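import Pool.Agent.H84.KlsMachine
import Pool.Agent.H69.KLS.Section

set_option autoImplicit false

open MeasureTheory Measure Set Filter Topology
open scoped ENNReal NNReal Real

namespace Pool.Agent.H18.KLS

open Pool.Agent.H84

/-- From a Poincare inequality on a large part of the body to the comparison of a central section
with the boundary of an arbitrary set of half the volume. -/
theorem assemble {n : ℕ} {Ω Ω' S : Set (EuclideanSpace ℝ (Fin (n + 1)))} (hΩo : IsOpen Ω)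
    (hΩc : Convex ℝ Ω) (hΩb : Bornology.IsBounded Ω) (hsymm : ∀ x ∈ Ω, -x ∈ Ω)
    (hne : Ω.Nonempty) (hsub : Ω' ⊆ Ω) (hΩ'c : Convex ℝ Ω') (hΩ'm : MeasurableSet Ω')
    {Λ c : ℝ} (hΛ : 0 < Λ) (hc : 0 < c) (hvol : 3 / 4 * volume.real Ω ≤ volume.real Ω')
    (hPC : PC Ω' Λ) (hS : MeasurableSet S) (hSΩ : S ⊆ Ω)
    (hSv : volume.real S = volume.real Ω / 2) (a : EuclideanSpace ℝ (Fin (n + 1))) (ha : ‖a‖ = 1)
    (hσ : Λ ^ 2 * volume.real Ω ≤ c ^ 2 * ∫ x in Ω, (inner ℝ a x) ^ 2) :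
    μHE[n] {x ∈ Ω | inner ℝ a x = 0} ≤ ENNReal.ofReal (8192 * c) * μHE[n] (Ω ∩ frontier S) := by
  obtain ⟨x0, hx0⟩ := hne
  have h0 : (0 : EuclideanSpace ℝ (Fin (n + 1))) ∈ Ω := by
    have := hΩc hx0 (hsymm x0 hx0) (by norm_num : (0:ℝ) ≤ 1 / 2) (by norm_num : (0:ℝ) ≤ 1 / 2)
      (by norm_num)
    simpa using this
  have hmach := kls_machine_fin hΩo hΩc hΩb h0 hsub hΩ'c hΩ'm hΛ hvol hPC hS hSΩ hSv
  by_cases hPt : μHE[n] (Ω ∩ frontier S) = ⊤
  · rw [hPt, ENNReal.mul_top (by simpa using hc)]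
    exact le_top
  have hΩv0 : volume Ω ≠ 0 := (hΩo.measure_pos volume ⟨0, h0⟩).ne'
  have hΩvt : volume Ω ≠ ⊤ := hΩb.measure_lt_top.ne
  set V := volume.real Ω with hV
  have hV0 : 0 < V := ENNReal.toReal_pos hΩv0 hΩvt
  set I := ∫ x in Ω, (inner ℝ a x) ^ 2 with hI
  have hIpos : 0 < I := by
    have : 0 < c ^ 2 * I := lt_of_lt_of_le (by positivity) hσ
    exact pos_of_mul_pos_right this (by positivity)
  have hint : IntegrableOn (fun x : EuclideanSpace ℝ (Fin (n + 1)) => (inner ℝ a x) ^ 2) Ω := by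
    have hcn : Continuous (fun x : EuclideanSpace ℝ (Fin (n + 1)) => (inner ℝ a x) ^ 2) := by
      fun_prop
    exact (hcn.continuousOn.integrableOn_compact hΩb.isCompact_closure).mono_set subset_closure
  have hIe : ∫⁻ x in Ω, ENNReal.ofReal ((inner ℝ a x) ^ 2) = ENNReal.ofReal I :=
    (ofReal_integral_eq_lintegral_ofReal hint (Eventually.of_forall fun x => sq_nonneg _)).symm
  have hsec := Pool.Agent.H69.KLS.section_bound_ennreal hΩo hΩc hΩb hsymm a ha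
  rw [hIe] at hsec
  have hAt : μHE[n] {x ∈ Ω | inner ℝ a x = 0} ≠ ⊤ := by
    intro hA
    rw [hA] at hsec
    have h1 : (⊤ : ℝ≥0∞) ^ 2 * ENNReal.ofReal I = ⊤ := by
      rw [ENNReal.top_pow (by norm_num), ENNReal.top_mul]
      simpa using hIpos
    rw [h1] at hsec
    have h2 : ENNReal.ofReal (4096 * π) * volume Ω ^ 3 ≠ ⊤ :=
      ENNReal.mul_ne_top ENNReal.ofReal_ne_top (ENNReal.pow_ne_top hΩvt)
    exact h2 (top_le_iff.mp hsec)
  have hsec2 := Pool.Agent.H69.KLS.section_bound hΩo hΩc hΩb hsymm a ha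
  set A := (μHE[n] {x ∈ Ω | inner ℝ a x = 0}).toReal with hA
  set P := (μHE[n] (Ω ∩ frontier S)).toReal with hP
  have hA0 : 0 ≤ A := ENNReal.toReal_nonneg
  have hP0 : 0 ≤ P := ENNReal.toReal_nonneg
  have hmach2 : V ≤ 64 * Λ * P := by
    have h1 : ENNReal.ofReal (64 * Λ) * μHE[n] (Ω ∩ frontier S) ≠ ⊤ :=
      ENNReal.mul_ne_top ENNReal.ofReal_ne_top hPt
    have h2 := ENNReal.toReal_mono h1 hmach
    rwa [ENNReal.toReal_mul, ENNReal.toReal_ofReal (by positivity)] at h2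
  have hkey : A ≤ 8192 * c * P := by
    have h1 : A ^ 2 * I ≤ 4096 * π * V ^ 3 := hsec2
    have h2 : A ^ 2 * Λ ^ 2 * V ≤ (128 * c * V) ^ 2 * V := by
      calc A ^ 2 * Λ ^ 2 * V = A ^ 2 * (Λ ^ 2 * V) := by ring
        _ ≤ A ^ 2 * (c ^ 2 * I) := mul_le_mul_of_nonneg_left hσ (sq_nonneg _)
        _ = c ^ 2 * (A ^ 2 * I) := by ring
        _ ≤ c ^ 2 * (4096 * π * V ^ 3) := mul_le_mul_of_nonneg_left h1 (sq_nonneg _)
        _ ≤ c ^ 2 * (4096 * 4 * V ^ 3) := by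
            apply mul_le_mul_of_nonneg_left _ (sq_nonneg _)
            apply mul_le_mul_of_nonneg_right _ (by positivity)
            linarith [Real.pi_le_four]
        _ = (128 * c * V) ^ 2 * V := by ring
    have h3 : (A * Λ) ^ 2 ≤ (128 * c * V) ^ 2 := by
      have := le_of_mul_le_mul_right h2 hV0
      linarith [this, mul_pow A Λ 2]
    have h4 : A * Λ ≤ 128 * c * V := by
      exact (abs_le_of_sq_le_sq h3 (by positivity)).trans' (le_abs_self _)
    have h5 : A * Λ ≤ (8192 * c * P) * Λ := by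
      calc A * Λ ≤ 128 * c * V := h4
        _ ≤ 128 * c * (64 * Λ * P) := mul_le_mul_of_nonneg_left hmach2 (by positivity)
        _ = (8192 * c * P) * Λ := by ring
    exact le_of_mul_le_mul_right h5 hΛ
  rw [← ENNReal.ofReal_toReal hAt, ← ENNReal.ofReal_toReal hPt, ← ENNReal.ofReal_mul (by positivity)]
  exact ENNReal.ofReal_le_ofReal hkey

/-- The same with the unnormalised Hausdorff measure. -/
theorem hausdorff_of_euclidean {n : ℕ} {A B : Set (EuclideanSpace ℝ (Fin (n + 1)))} {c : ℝ≥0∞}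
    (h : μHE[n] A ≤ c * μHE[n] B) :
    μH[((n + 1 : ℕ) : ℝ) - 1] A ≤ c * μH[((n + 1 : ℕ) : ℝ) - 1] B := by
  have e : ((n + 1 : ℕ) : ℝ) - 1 = (n : ℝ) := by push_cast; ring
  rw [e]
  rw [Pool.H71.Bdry.μHE_apply, Pool.H71.Bdry.μHE_apply, mul_left_comm] at h
  have h0 : (Pool.H71.Bdry.κ n : ℝ≥0∞) ≠ 0 := by
    simpa using Pool.H71.Bdry.κ_ne_zero n
  exact (ENNReal.mul_le_mul_iff_right h0 ENNReal.coe_ne_top).mp h

end Pool.Agent.H18.KLS
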