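import Mathlib

set_option autoImplicit false

open MeasureTheory Set Filter Topology

namespace Pool.Agent.H18.KLS

variable {n : ℕ}

/-- Invariance of a set under coordinate permutations and sign changes. -/
structure OneSymm (K : Set (EuclideanSpace ℝ (Fin n))) : Prop where
  perm : ∀ (σ : Equiv.Perm (Fin n)) (x y : EuclideanSpace ℝ (Fin n)), x ∈ K →
    (∀ j, y j = x (σ j)) → y ∈ K
  sign : ∀ (x y : EuclideanSpace ℝ (Fin n)), x ∈ K → (∀ j, |y j| = |x j|) → y ∈ K

theorem OneSymm.mono {K : Set (EuclideanSpace ℝ (Fin n))} (hK : OneSymm K) (hc : Convex ℝ K)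
    {x y : EuclideanSpace ℝ (Fin n)} (hx : x ∈ K) (hy : ∀ j, |y j| ≤ |x j|) : y ∈ K := by
  classical
  have key : ∀ T : Finset (Fin n), ∀ y : EuclideanSpace ℝ (Fin n),
      (∀ j ∈ T, |y j| ≤ |x j|) → (∀ j, j ∉ T → y j = x j) → y ∈ K := by
    intro T
    induction T using Finset.induction_on with
    | empty =>
      intro y _ h2
      exact hK.sign x y hx (fun j => by rw [h2 j (by simp)])
    | insert i T hi ih =>
      intro y h1 h2
      have hyi := h1 i (Finset.mem_insert_self i T)
      let y1 : EuclideanSpace ℝ (Fin n) := WithLp.toLp 2 (fun j => if j = i then x i else y j)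
      let y2 : EuclideanSpace ℝ (Fin n) := WithLp.toLp 2 (fun j => if j = i then - x i else y j)
      have hy1 : y1 ∈ K := by
        apply ih
        · intro j hj
          have hji : j ≠ i := fun h => hi (h ▸ hj)
          simp only [y1, hji, if_false]
          exact h1 j (Finset.mem_insert_of_mem hj)
        · intro j hj
          by_cases hji : j = i
          · subst hji; simp [y1]
          · simp only [y1, hji, if_false]
            exact h2 j (by simp [hji, hj])
      have hy2 : y2 ∈ K := by
        apply hK.sign y1 y2 hy1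
        intro j
        by_cases hji : j = i
        · subst hji; simp [y1, y2]
        · simp [y1, y2, hji]
      by_cases hx0 : x i = 0
      · have : y = y1 := by
          ext j
          by_cases hji : j = i
          · subst hji
            rw [hx0, abs_zero] at hyi
            have : y j = 0 := abs_nonpos_iff.mp hyi
            simp [y1, hx0, this]
          · simp [y1, hji]
        rw [this]; exact hy1
      · set t : ℝ := (1 - y i / x i) / 2 with ht
        have h3 : |y i / x i| ≤ 1 := by
          rw [abs_div]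
          exact (div_le_one (abs_pos.mpr hx0)).mpr hyi
        have h4 := abs_le.mp h3
        have ht0 : 0 ≤ t := by rw [ht]; linarith [h4.2]
        have ht1 : t ≤ 1 := by rw [ht]; linarith [h4.1]
        have hcomb := hc hy1 hy2 (sub_nonneg.mpr ht1) ht0 (by ring)
        have : y = (1 - t) • y1 + t • y2 := by
          ext j
          by_cases hji : j = i
          · subst hji
            simp only [y1, y2, PiLp.add_apply, PiLp.smul_apply, smul_eq_mul, if_true, ht]
            field_simp
            ring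
          · simp only [y1, y2, PiLp.add_apply, PiLp.smul_apply, smul_eq_mul, hji, if_false]
            ring
        rw [this]; exact hcomb
  exact key Finset.univ y (fun j _ => hy j) (fun j hj => absurd (Finset.mem_univ j) hj)

/-- Transfers from the coordinate `i` to the others stay in the body. -/
theorem OneSymm.transfer {K : Set (EuclideanSpace ℝ (Fin n))} (hK : OneSymm K)
    (hc : Convex ℝ K) {x : EuclideanSpace ℝ (Fin n)} (hx : x ∈ K) (i : Fin n)
    (θ : Fin n → ℝ) (hθ : ∀ j, 0 ≤ θ j) (hθi : θ i = 0) (hs : ∑ j, θ j ≤ 1)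
    {z : EuclideanSpace ℝ (Fin n)} (hzi : z i = x i - ∑ j, θ j * (x i - x j))
    (hz : ∀ j, j ≠ i → z j = x j + θ j * (x i - x j)) : z ∈ K := by
  classical
  let w : Fin n → ℝ := fun j => if j = i then 1 - ∑ j, θ j else θ j
  let p : Fin n → EuclideanSpace ℝ (Fin n) :=
    fun j => WithLp.toLp 2 (fun k => x (Equiv.swap i j k))
  have hp : ∀ j, p j ∈ K := fun j => hK.perm (Equiv.swap i j) x (p j) hx (fun k => rfl)
  have hw0 : ∀ j, 0 ≤ w j := by
    intro j
    by_cases hj : j = i
    · simp only [w, hj, if_true]; linarith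
    · simp only [w, hj, if_false]; exact hθ j
  have hsplit : ∀ f : Fin n → ℝ, ∑ j, w j * f j = (1 - ∑ j, θ j) * f i + ∑ j, θ j * f j := by
    intro f
    have h1 : ∀ j, w j * f j = (if j = i then (1 - ∑ j, θ j) * f i else 0) + θ j * f j := by
      intro j
      by_cases hj : j = i
      · subst hj; simp [w, hθi]
      · simp [w, hj]
    rw [Finset.sum_congr rfl (fun j _ => h1 j), Finset.sum_add_distrib]
    simp
  have hw1 : ∑ j, w j = 1 := by
    have := hsplit (fun _ => 1)
    simp only [mul_one] at this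
    rw [this]; ring
  have hmem := hc.sum_mem (t := Finset.univ) (fun j _ => hw0 j) hw1 (fun j _ => hp j)
  have : z = ∑ j, w j • p j := by
    ext k
    have h2 : (∑ j, w j • p j) k = ∑ j, w j * x (Equiv.swap i j k) := by
      rw [WithLp.ofLp_sum, Finset.sum_apply]
      rfl
    rw [h2, hsplit]
    by_cases hk : k = i
    · subst hk
      rw [hzi]
      simp only [Equiv.swap_self, Equiv.refl_apply, Equiv.swap_apply_left]
      have : ∑ j, θ j * (x k - x j) = (∑ j, θ j) * x k - ∑ j, θ j * x j := by
        rw [Finset.sum_mul, ← Finset.sum_sub_distrib]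
        exact Finset.sum_congr rfl (fun j _ => by ring)
      rw [this]; ring
    · rw [hz k hk]
      simp only [Equiv.swap_self, Equiv.refl_apply]
      have h3 : ∀ j, θ j * x (Equiv.swap i j k) =
          θ j * x k + (if j = k then θ k * (x i - x k) else 0) := by
        intro j
        by_cases hj : j = k
        · subst hj; simp
          ring
        · by_cases hji : j = i
          · subst hji
            simp [hθi, hj]
          · rw [Equiv.swap_apply_of_ne_of_ne hk (fun h => hj h.symm)]
            simp [hj]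
      rw [Finset.sum_congr rfl (fun j _ => h3 j), Finset.sum_add_distrib, ← Finset.sum_mul]
      simp
      ring
  rw [this]; exact hmem

/-- the lateral factor -/
noncomputable def gf (a t u : ℝ) : ℝ := (t ^ 2 - 4 * u ^ 2) / ((t + a) ^ 2 + 4 * u ^ 2)

theorem gf_abs_le {a t u : ℝ} (ha : 0 < a) (ht : 0 ≤ t) : |gf a t u| ≤ 1 := by
  unfold gf
  have h1 : 0 < (t + a) ^ 2 + 4 * u ^ 2 := by positivity
  rw [abs_div, abs_of_pos h1, div_le_one h1, abs_le]
  constructor
  · nlinarith [sq_nonneg t, sq_nonneg (t + a), sq_nonneg u]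
  · nlinarith [sq_nonneg u]

theorem gf_pos_iff {a t u : ℝ} (ha : 0 < a) (ht : 0 ≤ t) : 0 < gf a t u ↔ 4 * u ^ 2 < t ^ 2 := by
  unfold gf
  have h1 : 0 < (t + a) ^ 2 + 4 * u ^ 2 := by positivity
  rw [div_pos_iff_of_pos_right h1]
  constructor <;> intro h <;> linarith

theorem gf_le {a t u : ℝ} (ha : 0 < a) (ht : 0 ≤ t) (h : 0 < gf a t u) (hu : 0 ≤ u) :
    2 * a * gf a t u ≤ t - u := by
  have h4 := (gf_pos_iff ha ht).mp h
  have hut : 2 * u < t := by nlinarith
  unfold gf
  have h1 : 0 < (t + a) ^ 2 + 4 * u ^ 2 := by positivity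
  rw [← mul_div_assoc, div_le_iff₀ h1]
  have h2 : t ^ 2 - 4 * u ^ 2 ≤ (t - u) * (2 * t) := by nlinarith
  have h3 : 2 * a * (2 * t) ≤ (t + a) ^ 2 + 4 * u ^ 2 := by nlinarith [sq_nonneg (t - a), sq_nonneg u]
  have h5 : 0 ≤ t - u := by linarith
  calc 2 * a * (t ^ 2 - 4 * u ^ 2) ≤ 2 * a * ((t - u) * (2 * t)) := by
        apply mul_le_mul_of_nonneg_left h2; positivity
    _ = (t - u) * (2 * a * (2 * t)) := by ring
    _ ≤ (t - u) * ((t + a) ^ 2 + 4 * u ^ 2) := mul_le_mul_of_nonneg_left h3 h5

/-- The displaced point. `N` is the bound for the `l1` norm. -/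
noncomputable def psi (a N : ℝ) (i : Fin n) (τ : ℝ) (x : EuclideanSpace ℝ (Fin n)) :
    EuclideanSpace ℝ (Fin n) :=
  WithLp.toLp 2 (fun j => if j = i then x i - τ * (1 + 32 * a / (x i + a))
    else x j * (1 + τ / N * gf a (x i) (x j)))

theorem psi_self (a N : ℝ) (i : Fin n) (τ : ℝ) (x : EuclideanSpace ℝ (Fin n)) :
    psi a N i τ x i = x i - τ * (1 + 32 * a / (x i + a)) := by
  simp [psi]

theorem psi_ne (a N : ℝ) (i : Fin n) (τ : ℝ) (x : EuclideanSpace ℝ (Fin n)) {j : Fin n}
    (hj : j ≠ i) : psi a N i τ x j = x j * (1 + τ / N * gf a (x i) (x j)) := by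
  simp [psi, hj]

theorem psi_mem {K : Set (EuclideanSpace ℝ (Fin n))} (hK : OneSymm K)
    (hc : Convex ℝ K) {a N : ℝ} (ha : 0 < a) (hN : 0 < N)
    (hl : ∀ x ∈ K, ∑ j, |x j| ≤ N) (i : Fin n) {x : EuclideanSpace ℝ (Fin n)} (hx : x ∈ K)
    (hxi : 0 < x i) {τ : ℝ} (hτ : 0 < τ) (hτa : τ ≤ 2 * a) (hτN : τ ≤ N)
    (hy : 0 < psi a N i τ x i) : psi a N i τ x ∈ K := by
  classical
  let xa : EuclideanSpace ℝ (Fin n) := WithLp.toLp 2 (fun j => |x j|)
  have hxa : xa ∈ K := hK.sign x xa hx (fun j => by simp [xa])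
  have hxai : xa i = x i := by simp [xa, abs_of_pos hxi]
  set g : Fin n → ℝ := fun j => gf a (x i) (x j) with hg
  let θ : Fin n → ℝ := fun j => if j ≠ i ∧ 0 < g j then
    τ / N * |x j| * g j / (x i - |x j|) else 0
  have hpos : ∀ j, 0 < g j → 2 * |x j| < x i := by
    intro j hj
    have := (gf_pos_iff ha hxi.le).mp hj
    have h2 : |x j| ^ 2 = x j ^ 2 := sq_abs _
    nlinarith [abs_nonneg (x j)]
  have hgabs : ∀ j, |g j| ≤ 1 := fun j => gf_abs_le ha hxi.le
  have hθ0 : ∀ j, 0 ≤ θ j := by
    intro j
    simp only [θ]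
    split_ifs with h
    · have := hpos j h.2
      have h3 : 0 < x i - |x j| := by linarith [abs_nonneg (x j)]
      have := h.2
      positivity
    · exact le_rfl
  have hθi : θ i = 0 := by simp [θ]
  have hgev : ∀ j, gf a (x i) |x j| = g j := by
    intro j; simp [hg, gf, sq_abs]
  have hθle : ∀ j, θ j ≤ τ / N * |x j| * (1 / (2 * a)) := by
    intro j
    simp only [θ]
    split_ifs with h
    · have h1 := hpos j h.2
      have h3 : 0 < x i - |x j| := by linarith [abs_nonneg (x j)]
      have h4 := gf_le (u := |x j|) ha hxi.le (by rw [hgev]; exact h.2) (abs_nonneg _)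
      rw [hgev] at h4
      rw [mul_div_assoc]
      apply mul_le_mul_of_nonneg_left _ (by positivity)
      rw [div_le_div_iff₀ h3 (by positivity)]
      linarith
    · positivity
  have hθs : ∑ j, θ j ≤ 1 := by
    calc ∑ j, θ j ≤ ∑ j, τ / N * |x j| * (1 / (2 * a)) := Finset.sum_le_sum (fun j _ => hθle j)
      _ = τ / N * (1 / (2 * a)) * ∑ j, |x j| := by
          rw [Finset.mul_sum]; exact Finset.sum_congr rfl (fun j _ => by ring)
      _ ≤ τ / N * (1 / (2 * a)) * N := by
          apply mul_le_mul_of_nonneg_left (hl x hx); positivity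
      _ = τ / (2 * a) := by field_simp
      _ ≤ 1 := by rw [div_le_one (by positivity)]; exact hτa
  have hδ : ∀ j, θ j * (xa i - xa j) ≤ τ / N * |x j| := by
    intro j
    rw [hxai]
    have : xa j = |x j| := rfl
    rw [this]
    simp only [θ]
    split_ifs with h
    · have h1 := hpos j h.2
      have h3 : 0 < x i - |x j| := by linarith [abs_nonneg (x j)]
      rw [div_mul_cancel₀ _ h3.ne']
      have := (abs_le.mp (hgabs j)).2
      calc τ / N * |x j| * g j ≤ τ / N * |x j| * 1 := by
            apply mul_le_mul_of_nonneg_left this; positivity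
        _ = _ := by ring
    · rw [zero_mul]; positivity
  have hδs : ∑ j, θ j * (xa i - xa j) ≤ τ := by
    calc ∑ j, θ j * (xa i - xa j) ≤ ∑ j, τ / N * |x j| := Finset.sum_le_sum (fun j _ => hδ j)
      _ = τ / N * ∑ j, |x j| := by rw [Finset.mul_sum]
      _ ≤ τ / N * N := by apply mul_le_mul_of_nonneg_left (hl x hx); positivity
      _ = τ := by field_simp
  let z : EuclideanSpace ℝ (Fin n) := WithLp.toLp 2 (fun j => if j = i then
    xa i - ∑ j, θ j * (xa i - xa j) else xa j + θ j * (xa i - xa j))
  have hz : z ∈ K := hK.transfer hc hxa i θ hθ0 hθi hθs (z := z) (by simp [z])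
    (fun j hj => by simp [z, hj])
  apply hK.mono hc hz
  intro j
  by_cases hj : j = i
  · subst hj
    rw [abs_of_pos hy, psi_self]
    have h1 : z j = xa j - ∑ k, θ k * (xa j - xa k) := by simp [z]
    have h2 : 0 ≤ 32 * a / (x j + a) := by positivity
    have h3 : x j - τ * (1 + 32 * a / (x j + a)) ≤ z j := by
      rw [h1, hxai]
      rw [hxai] at hδs
      nlinarith [mul_nonneg hτ.le h2]
    exact h3.trans (le_abs_self _)
  · rw [psi_ne _ _ _ _ _ hj]
    have h1 : z j = |x j| + θ j * (x i - |x j|) := by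
      have : z j = xa j + θ j * (xa i - xa j) := by simp [z, hj]
      rw [this, hxai]
    have h0 : 0 < N := hN
    have hq1 : τ / N ≤ 1 := by rw [div_le_one hN]; exact hτN
    have hq0 : 0 ≤ τ / N := by positivity
    have hgj := abs_le.mp (hgabs j)
    have h5 : 0 ≤ 1 + τ / N * g j := by nlinarith
    rw [abs_mul, abs_of_nonneg h5, h1]
    refine le_trans ?_ (le_abs_self _)
    by_cases hgp : 0 < g j
    · have h2 := hpos j hgp
      have h3 : 0 < x i - |x j| := by linarith [abs_nonneg (x j)]
      have h6 : θ j = τ / N * |x j| * g j / (x i - |x j|) := by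
        simp only [θ]; rw [if_pos ⟨hj, hgp⟩]
      rw [h6, div_mul_cancel₀ _ h3.ne']
      linarith
    · have h6 : θ j = 0 := by
        simp only [θ]; rw [if_neg (fun h => hgp h.2)]
      rw [h6, zero_mul, add_zero]
      have h7 : τ / N * g j ≤ 0 := mul_nonpos_of_nonneg_of_nonpos hq0 (not_lt.mp hgp)
      nlinarith [abs_nonneg (x j)]

end Pool.Agent.H18.KLS
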