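import Mathlib

set_option autoImplicit false

open Set Filter Topology

namespace Pool.Agent.H18.KLS

/-- bump function -/
noncomputable def sg (x : ℝ) : ℝ := 256 / (256 + (x - 16) ^ 2)

/-- derivative of the bump function -/
noncomputable def sg' (x : ℝ) : ℝ := 512 * (16 - x) / (256 + (x - 16) ^ 2) ^ 2

theorem sg_den (x : ℝ) : 0 < 256 + (x - 16) ^ 2 := by positivity

theorem hasDerivAt_sg (x : ℝ) : HasDerivAt sg (sg' x) x := by
  unfold sg sg'
  have h1 : HasDerivAt (fun x : ℝ => 256 + (x - 16) ^ 2) (2 * (x - 16)) x := by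
    have := (((hasDerivAt_id x).sub_const 16).fun_pow 2).const_add 256
    exact this.congr_deriv (by simp)
  have h2 := (hasDerivAt_const x (256:ℝ)).fun_div h1 (sg_den x).ne'
  refine h2.congr_deriv ?_
  have := (sg_den x).ne'
  field_simp
  ring

theorem sg_pos (x : ℝ) : 0 < sg x := by unfold sg; positivity

theorem sg_le_one (x : ℝ) : sg x ≤ 1 := by
  unfold sg
  rw [div_le_one (sg_den x)]
  nlinarith [sq_nonneg (x - 16)]

theorem abs_sg'_le (x : ℝ) : |sg' x| ≤ 1 / 24 := by
  unfold sg'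
  have hd := sg_den x
  rw [abs_div, abs_of_pos (by positivity : 0 < (256 + (x - 16) ^ 2) ^ 2),
    div_le_div_iff₀ (by positivity) (by norm_num), abs_mul, abs_of_pos (by norm_num : (0:ℝ) < 512)]
  have h1 : |16 - x| ^ 2 = (x - 16) ^ 2 := by rw [sq_abs]; ring
  set z := |16 - x| with hz
  have hz0 : 0 ≤ z := abs_nonneg _
  rw [← h1]
  nlinarith [sq_nonneg (z ^ 2 - 80), sq_nonneg (z - 9), mul_nonneg hz0 (sq_nonneg (z - 9))]

theorem sg'_ge (x : ℝ) : 17 / 1000 - 3 / 1000 * |x| ≤ sg' x := by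
  unfold sg'
  have hd := sg_den x
  rw [le_div_iff₀ (by positivity)]
  rcases le_or_gt 0 x with hx | hx
  · rw [abs_of_nonneg hx]
    rcases le_or_gt x (17 / 3) with h1 | h1
    · -- positive left-hand side
      nlinarith [sq_nonneg (x - 16), mul_nonneg hx (sub_nonneg.mpr h1), sq_nonneg x,
        mul_nonneg hx (sq_nonneg (x - 16)), sq_nonneg ((x - 16) ^ 2)]
    · rcases le_or_gt x 16 with h2 | h2
      · have : (17 / 1000 - 3 / 1000 * x) * (256 + (x - 16) ^ 2) ^ 2 ≤ 0 := by
          apply mul_nonpos_of_nonpos_of_nonneg (by linarith) (by positivity)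
        nlinarith
      · set z := x - 16 with hz
        have hz0 : 0 < z := by rw [hz]; linarith
        have e1 : x = z + 16 := by rw [hz]; ring
        have e2 : 16 - x = -z := by rw [hz]; ring
        rw [e2, e1]
        nlinarith [mul_pos hz0 hz0, mul_pos (mul_pos hz0 hz0) hz0, sq_nonneg (z ^ 2 - 80),
          sq_nonneg (z - 9), mul_nonneg hz0.le (sq_nonneg (z - 9)),
          mul_nonneg hz0.le (sq_nonneg (z ^ 2))]
  · rw [abs_of_neg hx]
    set y := -x with hy
    have hy0 : 0 < y := by rw [hy]; linarith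
    have e1 : x = -y := by rw [hy]; ring
    rw [e1]
    rcases le_or_gt y (17 / 3) with h1 | h1
    · nlinarith [mul_nonneg hy0.le (sub_nonneg.mpr h1), sq_nonneg y, sq_nonneg (y + 16),
        mul_nonneg hy0.le (sq_nonneg (y + 16)), sq_nonneg ((y + 16) ^ 2),
        mul_nonneg (mul_nonneg hy0.le (sub_nonneg.mpr h1)) hy0.le]
    · have : (17 / 1000 - 3 / 1000 * y) * (256 + (-y - 16) ^ 2) ^ 2 ≤ 0 := by
        apply mul_nonpos_of_nonpos_of_nonneg (by linarith) (by positivity)
      nlinarith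

theorem abs_mul_sg'_le (x : ℝ) : |x| * |sg' x| ≤ 2 := by
  unfold sg'
  have hd := sg_den x
  rw [abs_div, abs_of_pos (by positivity : 0 < (256 + (x - 16) ^ 2) ^ 2), ← mul_div_assoc,
    div_le_iff₀ (by positivity), abs_mul, abs_of_pos (by norm_num : (0:ℝ) < 512)]
  have h1 : |16 - x| ^ 2 = (x - 16) ^ 2 := by rw [sq_abs]; ring
  have h2 : |x| ≤ 16 + |16 - x| := by
    have := abs_sub_abs_le_abs_sub x 16
    rw [abs_sub_comm x 16] at this
    rw [abs_of_pos (by norm_num : (0:ℝ) < 16)] at this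
    linarith
  set z := |16 - x| with hz
  have hz0 : 0 ≤ z := abs_nonneg _
  rw [← h1]
  have h3 : |x| * (512 * z) ≤ (16 + z) * (512 * z) := mul_le_mul_of_nonneg_right h2 (by positivity)
  nlinarith [sq_nonneg (z ^ 2 - 200), sq_nonneg (z - 16), sq_nonneg z]

theorem abs_mul_sg_le (x : ℝ) : |x| * sg x ≤ 24 := by
  unfold sg
  have hd := sg_den x
  rw [← mul_div_assoc, div_le_iff₀ hd]
  have h1 : |16 - x| ^ 2 = (x - 16) ^ 2 := by rw [sq_abs]; ring
  have h2 : |x| ≤ 16 + |16 - x| := by
    have := abs_sub_abs_le_abs_sub x 16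
    rw [abs_sub_comm x 16] at this
    rw [abs_of_pos (by norm_num : (0:ℝ) < 16)] at this
    linarith
  set z := |16 - x| with hz
  have hz0 : 0 ≤ z := abs_nonneg _
  rw [← h1]
  nlinarith [sq_nonneg (z - 16)]

/-- the radius -/
noncomputable def rr (p : ℝ) : ℝ := Real.sqrt (p ^ 2 + 16000000)

theorem rr_sq (p : ℝ) : rr p ^ 2 = p ^ 2 + 16000000 := Real.sq_sqrt (by positivity)

theorem rr_pos (p : ℝ) : 0 < rr p := Real.sqrt_pos.mpr (by positivity)

theorem rr_ge (p : ℝ) : 4000 ≤ rr p := by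
  rw [rr]
  apply Real.le_sqrt_of_sq_le
  nlinarith [sq_nonneg p]

theorem abs_le_rr (p : ℝ) : |p| ≤ rr p := by
  rw [rr]
  apply Real.abs_le_sqrt
  linarith

/-- the one-sided weight -/
noncomputable def om (p : ℝ) : ℝ := (p + rr p) / (2 * rr p ^ 2)

noncomputable def om' (p : ℝ) : ℝ := (p + rr p) * (rr p - 2 * p) / (2 * rr p ^ 4)

theorem hasDerivAt_rr (p : ℝ) : HasDerivAt rr (p / rr p) p := by
  have h1 : HasDerivAt (fun p : ℝ => p ^ 2 + 16000000) (2 * p) p := by
    have := ((hasDerivAt_id p).fun_pow 2).add_const 16000000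
    exact this.congr_deriv (by simp)
  have h2 := h1.sqrt (by positivity)
  refine h2.congr_deriv ?_
  show 2 * p / (2 * rr p) = p / rr p
  have := (rr_pos p).ne'
  field_simp

theorem hasDerivAt_om (p : ℝ) : HasDerivAt om (om' p) p := by
  unfold om om'
  have hr := hasDerivAt_rr p
  have hp := (rr_pos p).ne'
  have h1 : HasDerivAt (fun p : ℝ => p + rr p) (1 + p / rr p) p := (hasDerivAt_id p).fun_add hr
  have h2 : HasDerivAt (fun p : ℝ => 2 * rr p ^ 2) (4 * p) p := by
    have := (hr.fun_pow 2).const_mul 2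
    refine this.congr_deriv ?_
    simp
    field_simp
    ring
  have h3 := h1.fun_div h2 (by positivity)
  refine h3.congr_deriv ?_
  field_simp
  ring

theorem om_pos (p : ℝ) : 0 < om p := by
  unfold om
  have h1 := abs_le_rr p
  have h2 := rr_pos p
  have h3 : 0 < p + rr p := by
    have h4 : |p| < rr p := by
      rw [rr]
      apply Real.lt_sqrt_of_sq_lt
      rw [sq_abs]; linarith
    linarith [neg_abs_le p]
  positivity

theorem om_le (p : ℝ) : om p ≤ 1 / rr p := by
  unfold om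
  have h2 := rr_pos p
  rw [div_le_div_iff₀ (by positivity) h2]
  have := (le_abs_self p).trans (abs_le_rr p)
  nlinarith

theorem om_le' (p : ℝ) : om p ≤ 1 / 4000 := by
  refine (om_le p).trans ?_
  rw [div_le_div_iff₀ (rr_pos p) (by norm_num)]
  linarith [rr_ge p]

theorem abs_mul_om_le (p : ℝ) : |p| * om p ≤ 1 := by
  have h2 := rr_pos p
  calc |p| * om p ≤ rr p * (1 / rr p) :=
        mul_le_mul (abs_le_rr p) (om_le p) (om_pos p).le h2.le
    _ = 1 := by field_simp

theorem mul_om_ge (p : ℝ) : -(1 / 8) ≤ p * om p := by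
  unfold om
  have h2 := rr_pos p
  rw [← mul_div_assoc, le_div_iff₀ (by positivity)]
  nlinarith [sq_nonneg (2 * p + rr p)]

theorem mul_om_ge' {p : ℝ} (hp : 40000 ≤ p) : 99 / 100 ≤ p * om p := by
  unfold om
  have h2 := rr_pos p
  have h3 := (le_abs_self p).trans (abs_le_rr p)
  rw [← mul_div_assoc, le_div_iff₀ (by positivity), rr_sq]
  nlinarith

theorem abs_om'_le (p : ℝ) : |om' p| ≤ 3 / rr p ^ 2 := by
  unfold om'
  have h2 := rr_pos p
  have h3 := abs_le.mp (abs_le_rr p)
  rw [abs_div, abs_of_pos (by positivity : 0 < 2 * rr p ^ 4),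
    div_le_div_iff₀ (by positivity) (by positivity), abs_mul]
  have h4 : |p + rr p| ≤ 2 * rr p := by
    rw [abs_le]; constructor <;> linarith
  have h5 : |rr p - 2 * p| ≤ 3 * rr p := by
    rw [abs_le]; constructor <;> linarith
  calc |p + rr p| * |rr p - 2 * p| * rr p ^ 2 ≤ (2 * rr p) * (3 * rr p) * rr p ^ 2 := by
        apply mul_le_mul_of_nonneg_right _ (by positivity)
        exact mul_le_mul h4 h5 (abs_nonneg _) (by positivity)
    _ = 3 * (2 * rr p ^ 4) := by ring

/-- transferred amount -/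
noncomputable def GG (p x : ℝ) : ℝ := (p - x) * sg x * om p

/-- divergence of the transfer -/
noncomputable def gg (p x : ℝ) : ℝ :=
  (p - x) * sg' x * om p - 2 * sg x * om p - (p - x) * sg x * om' p

theorem hasDerivAt_GG (p x : ℝ) : HasDerivAt (fun t => GG (p - t) (x + t)) (gg p x) 0 := by
  unfold GG gg
  have h1 : HasDerivAt (fun t : ℝ => p - t) (-1) 0 := by
    have := (hasDerivAt_id (0:ℝ)).const_sub p
    exact this
  have h2 : HasDerivAt (fun t : ℝ => x + t) 1 0 := (hasDerivAt_id (0:ℝ)).const_add x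
  have h3 : HasDerivAt (fun t : ℝ => (p - t) - (x + t)) (-1 - 1) 0 := h1.fun_sub h2
  have h4 : HasDerivAt (fun t : ℝ => sg (x + t)) (sg' x * 1) 0 := by
    have h5 : HasDerivAt sg (sg' x) (x + 0) := by rw [add_zero]; exact hasDerivAt_sg x
    exact h5.comp (0:ℝ) h2
  have h6 : HasDerivAt (fun t : ℝ => om (p - t)) (om' p * (-1)) 0 := by
    have h7 : HasDerivAt om (om' p) (p - 0) := by rw [sub_zero]; exact hasDerivAt_om p
    exact h7.comp (0:ℝ) h1
  have h8 := (h3.fun_mul h4).fun_mul h6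
  refine h8.congr_deriv ?_
  simp only [sub_zero, add_zero]
  ring

theorem abs_GG_le (p x : ℝ) : |GG p x| ≤ 2 := by
  unfold GG
  rw [abs_mul, abs_mul, abs_of_pos (sg_pos x), abs_of_pos (om_pos p)]
  have h1 : |p - x| ≤ |p| + |x| := abs_sub _ _
  have h2 := abs_mul_om_le p
  have h3 := abs_mul_sg_le x
  have h4 := om_le' p
  have h5 := sg_le_one x
  have h6 := sg_pos x
  have h7 := om_pos p
  calc |p - x| * sg x * om p ≤ (|p| + |x|) * sg x * om p := by gcongr
    _ = (|p| * om p) * sg x + (|x| * sg x) * om p := by ring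
    _ ≤ 1 * 1 + 24 * (1 / 4000) := by
        apply add_le_add
        · exact mul_le_mul h2 h5 h6.le (by norm_num)
        · exact mul_le_mul h3 h4 h7.le (by norm_num)
    _ ≤ 2 := by norm_num

theorem gg_ge (p x : ℝ) : p * om p * sg' x - 7 / 4000 - 3 / 16000000 * |x| ≤ gg p x := by
  unfold gg
  have h1 := om_le' p
  have h2 := om_pos p
  have h3 := sg_pos x
  have h4 := sg_le_one x
  have h5 := abs_om'_le p
  have h6 := abs_mul_sg'_le x
  have hr := rr_ge p
  have hr0 := rr_pos p
  -- first term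
  have t1 : x * sg' x * om p ≤ 2 / 4000 := by
    calc x * sg' x * om p ≤ |x * sg' x| * om p := by
          apply mul_le_mul_of_nonneg_right (le_abs_self _) h2.le
      _ ≤ 2 * (1 / 4000) := by
          rw [abs_mul]
          exact mul_le_mul h6 h1 h2.le (by norm_num)
      _ = 2 / 4000 := by norm_num
  have t2 : 2 * sg x * om p ≤ 2 / 4000 := by
    calc 2 * sg x * om p ≤ 2 * 1 * (1 / 4000) := by gcongr
      _ = 2 / 4000 := by norm_num
  have t3 : (p - x) * sg x * om' p ≤ 3 / 4000 + 3 / 16000000 * |x| := by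
    have h7 : |p - x| ≤ rr p + |x| := (abs_sub _ _).trans (by linarith [abs_le_rr p])
    calc (p - x) * sg x * om' p ≤ |(p - x) * sg x * om' p| := le_abs_self _
      _ = |p - x| * sg x * |om' p| := by rw [abs_mul, abs_mul, abs_of_pos h3]
      _ ≤ (rr p + |x|) * 1 * (3 / rr p ^ 2) := by gcongr
      _ = 3 / rr p + |x| * (3 / rr p ^ 2) := by field_simp
      _ ≤ 3 / 4000 + |x| * (3 / 4000 ^ 2) := by gcongr
      _ = 3 / 4000 + 3 / 16000000 * |x| := by norm_num; ring
  have e : (p - x) * sg' x * om p = p * om p * sg' x - x * sg' x * om p := by ring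
  rw [e]
  linarith

end Pool.Agent.H18.KLS
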