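import Mathlib
import Pool.Agent.H18.KLS.Sig

set_option autoImplicit false

open Set Filter Topology

namespace Pool.Agent.H18.KLS

variable {n : ℕ}

/-- the other coordinates -/
def oth (i j : Fin n) : Finset (Fin n) := (Finset.univ.erase i).erase j

theorem mem_oth {i j k : Fin n} : k ∈ oth i j ↔ k ≠ j ∧ k ≠ i := by
  simp [oth]

theorem card_oth {i j : Fin n} (hij : i ≠ j) : ((oth i j).card : ℝ) = n - 2 := by
  have h1 : i ∈ (Finset.univ : Finset (Fin n)) := Finset.mem_univ i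
  have h2 : j ∈ Finset.univ.erase i := by simp [Ne.symm hij]
  have hn : 2 ≤ n := by
    have h3 := Finset.card_pos.mpr ⟨j, h2⟩
    rw [Finset.card_erase_of_mem h1, Finset.card_univ, Fintype.card_fin] at h3
    omega
  unfold oth
  rw [Finset.card_erase_of_mem h2, Finset.card_erase_of_mem h1, Finset.card_univ,
    Fintype.card_fin]
  have : n - 1 - 1 = n - 2 := by omega
  rw [this, Nat.cast_sub hn]
  norm_num

theorem sum_oth_abs_le (i j : Fin n) (y : Fin n → ℝ) :
    ∑ k ∈ oth i j, |y k| ≤ ∑ k, |y k| :=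
  Finset.sum_le_sum_of_subset_of_nonneg (Finset.subset_univ _) (fun k _ _ => abs_nonneg _)

theorem theta_ge {i j : Fin n} (hij : i ≠ j) (y : Fin n → ℝ) (hl : ∑ k, |y k| ≤ n) :
    17 / 1000 * ((n:ℝ) - 2) - 3 / 1000 * n ≤ ∑ k ∈ oth i j, sg' (y k) := by
  calc 17 / 1000 * ((n:ℝ) - 2) - 3 / 1000 * n
      ≤ ∑ k ∈ oth i j, (17 / 1000 - 3 / 1000 * |y k|) := by
        rw [Finset.sum_sub_distrib, Finset.sum_const, nsmul_eq_mul, card_oth hij,
          ← Finset.mul_sum]
        have := (sum_oth_abs_le i j y).trans hl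
        nlinarith
    _ ≤ _ := Finset.sum_le_sum (fun k _ => sg'_ge (y k))

theorem theta_abs {i j : Fin n} (hij : i ≠ j) (y : Fin n → ℝ) :
    |∑ k ∈ oth i j, sg' (y k)| ≤ 1 / 24 * n := by
  calc |∑ k ∈ oth i j, sg' (y k)| ≤ ∑ k ∈ oth i j, |sg' (y k)| := Finset.abs_sum_le_sum_abs _ _
    _ ≤ ∑ _k ∈ oth i j, (1 / 24 : ℝ) := Finset.sum_le_sum (fun k _ => abs_sg'_le (y k))
    _ = 1 / 24 * ((n:ℝ) - 2) := by
        rw [Finset.sum_const, nsmul_eq_mul, card_oth hij]; ring
    _ ≤ 1 / 24 * n := by linarith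

theorem gamma_ge {i j : Fin n} (hij : i ≠ j) (y : Fin n → ℝ) (hl : ∑ k, |y k| ≤ n) (p : ℝ) :
    p * om p * (∑ k ∈ oth i j, sg' (y k)) - 7 / 4000 * n - 3 / 16000000 * n ≤
      ∑ k ∈ oth i j, gg p (y k) := by
  calc p * om p * (∑ k ∈ oth i j, sg' (y k)) - 7 / 4000 * n - 3 / 16000000 * n
      ≤ ∑ k ∈ oth i j, (p * om p * sg' (y k) - 7 / 4000 - 3 / 16000000 * |y k|) := by
        rw [Finset.sum_sub_distrib, Finset.sum_sub_distrib, Finset.sum_const, nsmul_eq_mul,
          card_oth hij, ← Finset.mul_sum, ← Finset.mul_sum]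
        have := (sum_oth_abs_le i j y).trans hl
        nlinarith
    _ ≤ _ := Finset.sum_le_sum (fun k _ => gg_ge p (y k))

/-- The divergence of the total vector field is bounded below. -/
theorem brk {i j : Fin n} (hij : i ≠ j) (x : Fin n → ℝ) (hl : ∑ k, |x k| ≤ n) :
    1 / 200 ≤ 3 / 10 * Real.exp (-(x i - x j) / 80000) +
      1 / n * ∑ k ∈ oth i j, (gg (x i) (x k) + gg (-x j) (-x k)) := by
  have hn0 : 0 < n := Fin.pos i
  have hn : (0:ℝ) < n := by exact_mod_cast hn0
  set p := x i with hp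
  set q := x j with hq
  have hl' : ∑ k, |(-x k)| ≤ (n:ℝ) := by simpa using hl
  set Tp := ∑ k ∈ oth i j, sg' (x k) with hTp
  set Tm := ∑ k ∈ oth i j, sg' (-x k) with hTm
  have g1 := gamma_ge hij x hl p
  have g2 := gamma_ge hij (fun k => -x k) hl' (-q)
  rw [← hTp] at g1
  rw [← hTm] at g2
  have a1 : |Tp| ≤ 1 / 24 * n := theta_abs hij x
  have a2 : |Tm| ≤ 1 / 24 * n := theta_abs hij (fun k => -x k)
  have b1 := abs_mul_om_le p
  have b2 := abs_mul_om_le (-q)
  have op := om_pos p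
  have oq := om_pos (-q)
  have c1 : |p * om p| ≤ 1 := by rw [abs_mul, abs_of_pos op]; exact b1
  have c2 : |(-q) * om (-q)| ≤ 1 := by rw [abs_mul, abs_of_pos oq]; exact b2
  have hsum : ∑ k ∈ oth i j, (gg p (x k) + gg (-q) (-x k)) =
      (∑ k ∈ oth i j, gg p (x k)) + ∑ k ∈ oth i j, gg (-q) (-x k) := Finset.sum_add_distrib
  rw [hsum]
  have hexp : 0 < Real.exp (-(p - q) / 80000) := Real.exp_pos _
  rcases le_or_gt (p - q) 80000 with hs | hs
  · -- small gap
    have e1 : Real.exp (-1) ≤ Real.exp (-(p - q) / 80000) := by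
      apply Real.exp_le_exp.mpr
      rw [neg_div, neg_le_neg_iff, div_le_one (by norm_num)]
      exact hs
    have e2 : (36 / 100 : ℝ) ≤ Real.exp (-1) := by
      rw [Real.exp_neg]
      have h3 : Real.exp 1 < 2.7182818286 := Real.exp_one_lt_d9
      have h4 : 0 < Real.exp 1 := Real.exp_pos 1
      rw [le_inv_comm₀ (by norm_num) h4]
      norm_num
      linarith
    have m1 : -(1 / 24 * (n:ℝ)) ≤ p * om p * Tp := by
      have : |p * om p * Tp| ≤ 1 * (1 / 24 * n) := by
        rw [abs_mul]; exact mul_le_mul c1 a1 (abs_nonneg _) (by norm_num)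
      linarith [neg_abs_le (p * om p * Tp)]
    have m2 : -(1 / 24 * (n:ℝ)) ≤ (-q) * om (-q) * Tm := by
      have : |(-q) * om (-q) * Tm| ≤ 1 * (1 / 24 * n) := by
        rw [abs_mul]; exact mul_le_mul c2 a2 (abs_nonneg _) (by norm_num)
      linarith [neg_abs_le ((-q) * om (-q) * Tm)]
    have m3 : -(9 / 100 : ℝ) * n ≤ (∑ k ∈ oth i j, gg p (x k)) + ∑ k ∈ oth i j, gg (-q) (-x k) := by
      linarith
    have m4 : -(9 / 100 : ℝ) ≤ 1 / n * ((∑ k ∈ oth i j, gg p (x k)) +
        ∑ k ∈ oth i j, gg (-q) (-x k)) := by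
      rw [one_div, inv_mul_eq_div, le_div_iff₀ hn]
      exact m3
    linarith
  · -- large gap
    have hnbig : (80000:ℝ) < n := by
      have h1 : |x i| + |x j| ≤ ∑ k, |x k| := by
        rw [← Finset.add_sum_erase Finset.univ (fun k => |x k|) (Finset.mem_univ i)]
        have : |x j| ≤ ∑ k ∈ Finset.univ.erase i, |x k| :=
          Finset.single_le_sum (f := fun k => |x k|) (fun k _ => abs_nonneg _)
            (by simp [Ne.symm hij])
        linarith
      have h2 : p - q ≤ |x i| + |x j| := by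
        have := le_abs_self (x i)
        have := neg_abs_le (x j)
        linarith
      linarith
    have t1 : 13999 / 1000000 * (n:ℝ) ≤ Tp := by
      have := theta_ge hij x hl
      linarith
    have t2 : 13999 / 1000000 * (n:ℝ) ≤ Tm := by
      have := theta_ge hij (fun k => -x k) hl'
      linarith
    have u1 : Tp ≤ 1 / 24 * n := (le_abs_self _).trans a1
    have u2 : Tm ≤ 1 / 24 * n := (le_abs_self _).trans a2
    have v1 := mul_om_ge p
    have v2 := mul_om_ge (-q)
    have hT1 : 0 ≤ Tp := by nlinarith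
    have hT2 : 0 ≤ Tm := by nlinarith
    have key : 1 / 200 * (n:ℝ) ≤ (∑ k ∈ oth i j, gg p (x k)) + ∑ k ∈ oth i j, gg (-q) (-x k) := by
      rcases le_or_gt 40000 p with hp1 | hp1
      · have w1 := mul_om_ge' hp1
        have z1 : 99 / 100 * (13999 / 1000000 * (n:ℝ)) ≤ p * om p * Tp :=
          mul_le_mul w1 t1 (by positivity) (by linarith)
        have z2 : -(1 / 8) * (1 / 24 * (n:ℝ)) ≤ (-q) * om (-q) * Tm := by nlinarith
        linarith
      · have hq1 : 40000 ≤ -q := by linarith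
        have w1 := mul_om_ge' hq1
        have z1 : 99 / 100 * (13999 / 1000000 * (n:ℝ)) ≤ (-q) * om (-q) * Tm :=
          mul_le_mul w1 t2 (by positivity) (by linarith)
        have z2 : -(1 / 8) * (1 / 24 * (n:ℝ)) ≤ p * om p * Tp := by nlinarith
        linarith
    have m4 : (1 / 200 : ℝ) ≤ 1 / n * ((∑ k ∈ oth i j, gg p (x k)) +
        ∑ k ∈ oth i j, gg (-q) (-x k)) := by
      rw [one_div (n:ℝ), inv_mul_eq_div, le_div_iff₀ hn]
      exact key
    linarith

end Pool.Agent.H18.KLS
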