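import Pool.Agent.H18.KLS.Flip
import Pool.Agent.H97.KlsBochner

set_option autoImplicit false

open MeasureTheory Set Filter Topology

namespace Pool.Agent.H18.KLS

open Pool.Agent.H84

variable {n : ℕ}

theorem avg_flip {K : Set (EuclideanSpace ℝ (Fin n))} (i : Fin n) (hK : flip i ⁻¹' K = K)
    (δ : ℝ) {ψ : EuclideanSpace ℝ (Fin n) → ℝ} (hψ : ∀ x, ψ (flip i x) = ψ x)
    (y : EuclideanSpace ℝ (Fin n)) : avg K δ ψ (flip i y) = avg K δ ψ y := by
  have hk : ∀ x, kern δ (flip i x) (flip i y) = kern δ x y := by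
    intro x
    unfold kern
    rw [← map_sub, (flip i).norm_map]
  unfold avg
  congr 1
  · unfold NN
    rw [← integral_flip (K := K) i (fun x => ψ x * kern δ x (flip i y)), hK]
    apply integral_congr_ae
    filter_upwards with x
    simp only [hk, hψ]
  · unfold ZZ
    rw [← integral_flip (K := K) i (fun x => kern δ x (flip i y)), hK]
    apply integral_congr_ae
    filter_upwards with x
    simp only [hk]

theorem Qop_flip {K : Set (EuclideanSpace ℝ (Fin n))} (i : Fin n) (hK : flip i ⁻¹' K = K)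
    (δ : ℝ) {ψ : EuclideanSpace ℝ (Fin n) → ℝ} (hψ : ∀ x, ψ (flip i x) = ψ x)
    (y : EuclideanSpace ℝ (Fin n)) : Qop K δ ψ (flip i y) = Qop K δ ψ y := by
  unfold Qop Aop
  exact avg_flip i (preimage_univ) δ (fun x => avg_flip i hK δ hψ x) y

theorem fderiv_even_zero {u : EuclideanSpace ℝ (Fin n) → ℝ} (hu : Differentiable ℝ u) (i : Fin n)
    (he : ∀ x, u (flip i x) = u x) {x : EuclideanSpace ℝ (Fin n)} (hx : x i = 0) :
    fderiv ℝ u x (EuclideanSpace.single i 1) = 0 := by
  have h1 := norm_fderiv_flip hu i x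
  have h2 : (fun y => u (flip i y)) = u := funext he
  rw [h2] at h1
  have h3 : flip i x = x := by
    ext j
    rw [flip_apply]
    by_cases hj : j = i
    · subst hj; simp [hx]
    · simp [hj]
  rw [h3] at h1
  have h4 : flip i (EuclideanSpace.single i (1:ℝ)) = - EuclideanSpace.single i (1:ℝ) := by
    ext j
    rw [flip_apply]
    by_cases hj : j = i
    · subst hj; simp
    · simp [hj]
  have h5 : fderiv ℝ u x (EuclideanSpace.single i 1) =
      fderiv ℝ u x (flip i (EuclideanSpace.single i (1:ℝ))) := by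
    conv_lhs => rw [h1]
    rfl
  rw [h4, map_neg] at h5
  linarith

theorem even_poincare {K : Set (EuclideanSpace ℝ (Fin n))} (hK : OneSymm K) {R : ℝ} (hCB : CB K R)
    {D : ℝ} (hD : 0 < D) (hl : ∀ x ∈ K, ∑ j, |x j| ≤ D * n)
    (f : EuclideanSpace ℝ (Fin n) → ℝ) (hf : ContDiff ℝ 1 f)
    (he : ∀ i x, f (flip i x) = f x) :
    volume.real K * (∫ x in K, f x ^ 2) - (∫ x in K, f x) ^ 2
      ≤ 2 * (340 * D) ^ 2 * (volume.real K * ∫ x in K, ‖fderiv ℝ f x‖ ^ 2) := by
  have hb : Bornology.IsBounded K := Metric.isBounded_closedBall.subset hCB.sub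
  have hlam : 0 < (340 * D) ^ 2 := by positivity
  have key := Pool.H97.KLSG.discrete_bochner hCB (EuclideanSpace.basisFun (Fin n) ℝ)
    (fun ψ => ∀ i x, ψ (flip i x) = ψ x) (κ := 1 / (340 * D) ^ 2) (by positivity)
    (fun δ hδ ψ _ hψ i x => Qop_flip i (flip_preimage hK i) δ (hψ i) x)
    (fun δ hδ ψ hψc hψ => ?_) f hf he
  · rw [div_div_eq_mul_div, div_one] at key
    exact key
  · set u := Qop K δ ψ with hu
    have huc : ContDiff ℝ 1 u := contDiff_Qop hδ hCB (hCB.bm_of_cont hψc.continuous)
    have hue : ∀ i x, u (flip i x) = u x := fun i x => Qop_flip i (flip_preimage hK i) δ (hψ i) x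
    have hpc : ∀ i : Fin n, ContDiff ℝ 1 (fun z => fderiv ℝ u z (EuclideanSpace.basisFun (Fin n) ℝ i)) :=
      fun i => Pool.H97.KLSG.contDiff_partial_Qop hδ hCB (hCB.bm_of_cont hψc.continuous) _
    have h1 : ∀ i : Fin n, ∫ x in K, (fderiv ℝ u x (EuclideanSpace.basisFun (Fin n) ℝ i)) ^ 2 ≤
        (340 * D) ^ 2 * ∫ x in K,
          ‖fderiv ℝ (fun z => fderiv ℝ u z (EuclideanSpace.basisFun (Fin n) ℝ i)) x‖ ^ 2 := by
      intro i
      apply odd_poincare hK hCB.conv hCB.meas hb hD hl i (hpc i)
      intro x hx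
      rw [EuclideanSpace.basisFun_apply]
      exact fderiv_even_zero (huc.differentiable (by norm_num)) i (hue i) hx
    have hint : ∀ g : EuclideanSpace ℝ (Fin n) → ℝ, Continuous g → IntegrableOn g K := by
      intro g hg
      exact (hg.continuousOn.integrableOn_compact hb.isCompact_closure).mono_set subset_closure
    have h2 : ∫ x in K, ‖fderiv ℝ u x‖ ^ 2 =
        ∑ i, ∫ x in K, (fderiv ℝ u x (EuclideanSpace.basisFun (Fin n) ℝ i)) ^ 2 := by
      rw [← integral_finsetSum]
      · apply integral_congr_ae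
        filter_upwards with x
        exact Pool.H97.KLSG.norm_sq_dual _ _
      · intro i _
        exact hint _ ((hpc i).continuous.pow 2)
    have h3 : ∫ x in K, ∑ i, ‖fderiv ℝ (fun z => fderiv ℝ u z (EuclideanSpace.basisFun (Fin n) ℝ i)) x‖ ^ 2
        = ∑ i, ∫ x in K, ‖fderiv ℝ (fun z => fderiv ℝ u z (EuclideanSpace.basisFun (Fin n) ℝ i)) x‖ ^ 2 := by
      rw [integral_finsetSum]
      intro i _
      exact hint _ (((hpc i).continuous_fderiv (by norm_num)).norm.pow 2)
    rw [h2, h3, div_mul_eq_mul_div, one_mul, div_le_iff₀ hlam, mul_comm, Finset.mul_sum]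
    exact Finset.sum_le_sum (fun i _ => h1 i)

/-- Poincare inequality on symmetric bodies inside a multiple of the cross-polytope. -/
theorem full_poincare {K : Set (EuclideanSpace ℝ (Fin n))} (hK : OneSymm K) {R : ℝ} (hCB : CB K R)
    {D : ℝ} (hD : 0 < D) (hl : ∀ x ∈ K, ∑ j, |x j| ≤ D * n)
    (f : EuclideanSpace ℝ (Fin n) → ℝ) (hf : ContDiff ℝ 1 f) :
    volume.real K * (∫ x in K, f x ^ 2) - (∫ x in K, f x) ^ 2
      ≤ 2 * (340 * D) ^ 2 * (volume.real K * ∫ x in K, ‖fderiv ℝ f x‖ ^ 2) := by
  classical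
  have hb : Bornology.IsBounded K := Metric.isBounded_closedBall.subset hCB.sub
  have hV : 0 ≤ volume.real K := measureReal_nonneg
  have hint : ∀ g : EuclideanSpace ℝ (Fin n) → ℝ, Continuous g → IntegrableOn g K := by
    intro g hg
    exact (hg.continuousOn.integrableOn_compact hb.isCompact_closure).mono_set subset_closure
  have hflipint : ∀ (i : Fin n) (g : EuclideanSpace ℝ (Fin n) → ℝ),
      ∫ x in K, g (flip i x) = ∫ x in K, g x := by
    intro i g
    have := integral_flip (K := K) i g
    rwa [flip_preimage hK i] at this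
  have key : ∀ T : Finset (Fin n), ∀ f : EuclideanSpace ℝ (Fin n) → ℝ, ContDiff ℝ 1 f →
      (∀ i, i ∉ T → ∀ x, f (flip i x) = f x) →
      volume.real K * (∫ x in K, f x ^ 2) - (∫ x in K, f x) ^ 2
      ≤ 2 * (340 * D) ^ 2 * (volume.real K * ∫ x in K, ‖fderiv ℝ f x‖ ^ 2) := by
    intro T
    induction T using Finset.induction_on with
    | empty =>
      intro f hf he
      exact even_poincare hK hCB hD hl f hf (fun i x => he i (by simp) x)
    | insert i T hi ih =>
      intro f hf he
      set g : EuclideanSpace ℝ (Fin n) → ℝ := fun x => f (flip i x) with hg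
      have hgc : ContDiff ℝ 1 g := hf.comp (flip i).contDiff
      set ev : EuclideanSpace ℝ (Fin n) → ℝ := fun x => (1 / 2) * (f x + g x) with hev
      set od : EuclideanSpace ℝ (Fin n) → ℝ := fun x => (1 / 2) * (f x - g x) with hod
      have hevc : ContDiff ℝ 1 ev := contDiff_const.mul (hf.add hgc)
      have hodc : ContDiff ℝ 1 od := contDiff_const.mul (hf.sub hgc)
      have hevs : ∀ k, k ∉ T → ∀ x, ev (flip k x) = ev x := by
        intro k hk x
        simp only [hev, hg]
        by_cases hki : k = i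
        · subst hki
          rw [flip_flip]; ring
        · have hk2 : k ∉ insert i T := by simp [hki, hk]
          rw [he k hk2 x, flip_comm i k x, he k hk2]
      have hod0 : ∀ x : EuclideanSpace ℝ (Fin n), x i = 0 → od x = 0 := by
        intro x hx
        have h3 : flip i x = x := by
          ext j
          rw [flip_apply]
          by_cases hj : j = i
          · subst hj; simp [hx]
          · simp [hj]
        simp only [hod, hg, h3]; ring
      have h1 := ih ev hevc hevs
      have h2 := odd_poincare hK hCB.conv hCB.meas hb hD hl i hodc hod0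
      have hfd : Differentiable ℝ f := hf.differentiable (by norm_num)
      have hgd : Differentiable ℝ g := hgc.differentiable (by norm_num)
      -- sums of squares
      have e1 : (∫ x in K, ev x ^ 2) + (∫ x in K, od x ^ 2) = ∫ x in K, f x ^ 2 := by
        have j1 : IntegrableOn (fun x => ev x ^ 2) K := hint _ (hevc.continuous.pow 2)
        have j2 : IntegrableOn (fun x => od x ^ 2) K := hint _ (hodc.continuous.pow 2)
        have j3 : IntegrableOn (fun x => (1 / 2) * f x ^ 2) K :=
          (hint _ (hf.continuous.pow 2)).const_mul _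
        have j4 : IntegrableOn (fun x => (1 / 2) * g x ^ 2) K :=
          (hint _ (hgc.continuous.pow 2)).const_mul _
        rw [← integral_add j1 j2]
        have e2 : ∀ x, ev x ^ 2 + od x ^ 2 = (1 / 2) * f x ^ 2 + (1 / 2) * (g x) ^ 2 := by
          intro x; simp only [hev, hod]; ring
        simp_rw [e2]
        rw [integral_add j3 j4, integral_const_mul, integral_const_mul]
        have e3 : ∫ x in K, (g x) ^ 2 = ∫ x in K, f x ^ 2 := hflipint i (fun x => f x ^ 2)
        rw [e3]; ring
      have e4 : ∫ x in K, ev x = ∫ x in K, f x := by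
        simp only [hev]
        rw [integral_const_mul, integral_add (hint _ hf.continuous) (hint _ hgc.continuous)]
        have e3 : ∫ x in K, g x = ∫ x in K, f x := hflipint i f
        rw [e3]; ring
      have hdev : ∀ x, fderiv ℝ ev x = (1 / 2 : ℝ) • (fderiv ℝ f x + fderiv ℝ g x) := by
        intro x
        have := ((hfd x).hasFDerivAt.add (hgd x).hasFDerivAt).const_mul (1 / 2)
        exact this.fderiv
      have hdod : ∀ x, fderiv ℝ od x = (1 / 2 : ℝ) • (fderiv ℝ f x - fderiv ℝ g x) := by
        intro x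
        have := ((hfd x).hasFDerivAt.sub (hgd x).hasFDerivAt).const_mul (1 / 2)
        exact this.fderiv
      have hpar : ∀ x, ‖fderiv ℝ ev x‖ ^ 2 + ‖fderiv ℝ od x‖ ^ 2 =
          (1 / 2) * ‖fderiv ℝ f x‖ ^ 2 + (1 / 2) * ‖fderiv ℝ g x‖ ^ 2 := by
        intro x
        rw [hdev, hdod]
        rw [Pool.H97.KLSG.norm_sq_dual (EuclideanSpace.basisFun (Fin n) ℝ),
          Pool.H97.KLSG.norm_sq_dual (EuclideanSpace.basisFun (Fin n) ℝ),
          Pool.H97.KLSG.norm_sq_dual (EuclideanSpace.basisFun (Fin n) ℝ),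
          Pool.H97.KLSG.norm_sq_dual (EuclideanSpace.basisFun (Fin n) ℝ),
          ← Finset.sum_add_distrib, Finset.mul_sum, Finset.mul_sum, ← Finset.sum_add_distrib]
        apply Finset.sum_congr rfl
        intro j _
        have s1 : ((1 / 2 : ℝ) • (fderiv ℝ f x + fderiv ℝ g x))
            (EuclideanSpace.basisFun (Fin n) ℝ j) =
            (1 / 2) * (fderiv ℝ f x (EuclideanSpace.basisFun (Fin n) ℝ j) +
              fderiv ℝ g x (EuclideanSpace.basisFun (Fin n) ℝ j)) := rfl
        have s2 : ((1 / 2 : ℝ) • (fderiv ℝ f x - fderiv ℝ g x))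
            (EuclideanSpace.basisFun (Fin n) ℝ j) =
            (1 / 2) * (fderiv ℝ f x (EuclideanSpace.basisFun (Fin n) ℝ j) -
              fderiv ℝ g x (EuclideanSpace.basisFun (Fin n) ℝ j)) := rfl
        rw [s1, s2]
        ring
      have e5 : (∫ x in K, ‖fderiv ℝ ev x‖ ^ 2) + (∫ x in K, ‖fderiv ℝ od x‖ ^ 2) =
          ∫ x in K, ‖fderiv ℝ f x‖ ^ 2 := by
        have c1 : IntegrableOn (fun x => ‖fderiv ℝ ev x‖ ^ 2) K :=
          hint _ ((hevc.continuous_fderiv (by norm_num)).norm.pow 2)
        have c2 : IntegrableOn (fun x => ‖fderiv ℝ od x‖ ^ 2) K :=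
          hint _ ((hodc.continuous_fderiv (by norm_num)).norm.pow 2)
        have c3 : IntegrableOn (fun x => (1 / 2) * ‖fderiv ℝ f x‖ ^ 2) K :=
          (hint _ ((hf.continuous_fderiv (by norm_num)).norm.pow 2)).const_mul _
        have c4 : IntegrableOn (fun x => (1 / 2) * ‖fderiv ℝ g x‖ ^ 2) K :=
          (hint _ ((hgc.continuous_fderiv (by norm_num)).norm.pow 2)).const_mul _
        rw [← integral_add c1 c2]
        simp_rw [hpar]
        rw [integral_add c3 c4, integral_const_mul, integral_const_mul]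
        have e6 : ∫ x in K, ‖fderiv ℝ g x‖ ^ 2 = ∫ x in K, ‖fderiv ℝ f x‖ ^ 2 := by
          rw [← hflipint i (fun x => ‖fderiv ℝ f x‖ ^ 2)]
          apply integral_congr_ae
          filter_upwards with x
          rw [norm_fderiv_flip hfd, norm_comp_flip]
        rw [e6]; ring
      rw [e4] at h1
      have h0 : 0 ≤ ∫ x in K, ‖fderiv ℝ od x‖ ^ 2 := integral_nonneg (fun x => by positivity)
      have h3 : volume.real K * (∫ x in K, od x ^ 2) ≤
          2 * (340 * D) ^ 2 * (volume.real K * ∫ x in K, ‖fderiv ℝ od x‖ ^ 2) := by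
        have h4 := mul_le_mul_of_nonneg_left h2 hV
        have h5 : 0 ≤ (340 * D) ^ 2 * (volume.real K * ∫ x in K, ‖fderiv ℝ od x‖ ^ 2) := by
          positivity
        nlinarith
      rw [← e1, ← e5]
      nlinarith
  exact key Finset.univ f hf (fun i hi => absurd (Finset.mem_univ i) hi)

end Pool.Agent.H18.KLS
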