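import Mathlib
import Pool.Agent.H18.KLS.Basic

set_option autoImplicit false

open MeasureTheory Set Filter Topology

namespace Pool.Agent.H18.KLS

variable {n : ℕ}

/-- derivative of `u ↦ u * gf a t u` -/
noncomputable def dgf (a t u : ℝ) : ℝ :=
  -1 + (t ^ 2 + (t + a) ^ 2) * ((t + a) ^ 2 - 4 * u ^ 2) / ((t + a) ^ 2 + 4 * u ^ 2) ^ 2

theorem hasDerivAt_mul_gf {a t u : ℝ} (hs : t + a ≠ 0) :
    HasDerivAt (fun u => u * gf a t u) (dgf a t u) u := by
  unfold gf dgf
  have h1 : (t + a) ^ 2 + 4 * u ^ 2 ≠ 0 := by positivity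
  have hn : HasDerivAt (fun u : ℝ => t ^ 2 - 4 * u ^ 2) (-(8 * u)) u := by
    have := ((hasDerivAt_pow 2 u).const_mul 4).const_sub (t ^ 2)
    exact this.congr_deriv (by norm_num; ring)
  have hd : HasDerivAt (fun u : ℝ => (t + a) ^ 2 + 4 * u ^ 2) (8 * u) u := by
    have := ((hasDerivAt_pow 2 u).const_mul 4).const_add ((t + a) ^ 2)
    exact this.congr_deriv (by norm_num; ring)
  have := (hasDerivAt_id u).mul (hn.div hd h1)
  refine this.congr_deriv ?_
  simp only [id, Pi.div_apply]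
  field_simp
  ring

theorem dgf_le_one {a t u : ℝ} (ha : 0 < a) (ht : 0 ≤ t) : dgf a t u ≤ 1 := by
  unfold dgf
  have h0 : 0 < (t + a) ^ 2 := by positivity
  have h1 : 0 < (t + a) ^ 2 + 4 * u ^ 2 := by positivity
  have h2 : (t ^ 2 + (t + a) ^ 2) * ((t + a) ^ 2 - 4 * u ^ 2) / ((t + a) ^ 2 + 4 * u ^ 2) ^ 2 ≤ 2 := by
    rw [div_le_iff₀ (by positivity)]
    have h3 : t ^ 2 ≤ (t + a) ^ 2 := by nlinarith
    have h4 : (t + a) ^ 2 - 4 * u ^ 2 ≤ (t + a) ^ 2 + 4 * u ^ 2 := by nlinarith [sq_nonneg u]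
    calc (t ^ 2 + (t + a) ^ 2) * ((t + a) ^ 2 - 4 * u ^ 2)
        ≤ (t ^ 2 + (t + a) ^ 2) * ((t + a) ^ 2 + 4 * u ^ 2) := by
          apply mul_le_mul_of_nonneg_left h4; positivity
      _ ≤ (2 * ((t + a) ^ 2 + 4 * u ^ 2)) * ((t + a) ^ 2 + 4 * u ^ 2) := by
          apply mul_le_mul_of_nonneg_right _ h1.le
          nlinarith [sq_nonneg u]
      _ = 2 * ((t + a) ^ 2 + 4 * u ^ 2) ^ 2 := by ring
  linarith

theorem le_dgf {a t u : ℝ} (ha : 0 < a) (ht : 0 ≤ t) :
    (t / (t + a)) ^ 2 - 8 * |u| / (t + a) ≤ dgf a t u := by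
  unfold dgf
  have hs : 0 < t + a := by positivity
  set w := |u| / (t + a) with hw
  set q := (t / (t + a)) ^ 2 with hq
  have hw0 : 0 ≤ w := by positivity
  have hq0 : 0 ≤ q := by positivity
  have hq1 : q ≤ 1 := by
    rw [hq]
    apply pow_le_one₀ (by positivity)
    rw [div_le_one hs]; linarith
  have hu2 : u ^ 2 = (w * (t + a)) ^ 2 := by
    rw [hw, div_mul_cancel₀ _ hs.ne', sq_abs]
  have ht2 : t ^ 2 = q * (t + a) ^ 2 := by
    rw [hq]; field_simp
  have e1 : (t ^ 2 + (t + a) ^ 2) * ((t + a) ^ 2 - 4 * u ^ 2) / ((t + a) ^ 2 + 4 * u ^ 2) ^ 2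
      = (q + 1) * (1 - 4 * w ^ 2) / (1 + 4 * w ^ 2) ^ 2 := by
    rw [hu2, ht2]
    field_simp
  have e2 : 8 * |u| / (t + a) = 8 * w := by rw [hw]; ring
  rw [e1, e2]
  have h1 : 0 < (1 + 4 * w ^ 2) ^ 2 := by positivity
  have h2 : q + 1 - 8 * w ≤ (q + 1) * (1 - 4 * w ^ 2) / (1 + 4 * w ^ 2) ^ 2 := by
    rw [le_div_iff₀ h1]
    have h3 : (q + 1) * (12 * w ^ 2 + 16 * w ^ 4) ≤ 2 * (12 * w ^ 2 + 16 * w ^ 4) := by
      apply mul_le_mul_of_nonneg_right (by linarith); positivity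
    have h4 : 2 * (12 * w ^ 2 + 16 * w ^ 4) ≤ 8 * w * (1 + 4 * w ^ 2) ^ 2 := by
      have h5 : 0 ≤ 1 - 3 * w + 8 * w ^ 2 - 4 * w ^ 3 + 16 * w ^ 4 := by
        nlinarith [sq_nonneg (4 * w ^ 2 - w / 2), sq_nonneg (w - 3 / 16), sq_nonneg w]
      have h6 : 8 * w * (1 + 4 * w ^ 2) ^ 2 - 2 * (12 * w ^ 2 + 16 * w ^ 4)
          = 8 * w * (1 - 3 * w + 8 * w ^ 2 - 4 * w ^ 3 + 16 * w ^ 4) := by ring
      nlinarith [mul_nonneg hw0 h5]
    nlinarith
  linarith

theorem neg_le_dgf {a t u : ℝ} (ha : 0 < a) (ht : 0 ≤ t) : -3 ≤ dgf a t u := by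
  unfold dgf
  have h0 : 0 < (t + a) ^ 2 := by positivity
  have h1 : 0 < (t + a) ^ 2 + 4 * u ^ 2 := by positivity
  have h2 : -2 ≤ (t ^ 2 + (t + a) ^ 2) * ((t + a) ^ 2 - 4 * u ^ 2) / ((t + a) ^ 2 + 4 * u ^ 2) ^ 2 := by
    rw [le_div_iff₀ (by positivity)]
    have h3 : t ^ 2 ≤ (t + a) ^ 2 := by nlinarith
    have h4 : -((t + a) ^ 2 + 4 * u ^ 2) ≤ (t + a) ^ 2 - 4 * u ^ 2 := by nlinarith [sq_nonneg u]
    calc -2 * ((t + a) ^ 2 + 4 * u ^ 2) ^ 2
        = (2 * ((t + a) ^ 2 + 4 * u ^ 2)) * (-((t + a) ^ 2 + 4 * u ^ 2)) := by ring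
      _ ≤ (t ^ 2 + (t + a) ^ 2) * (-((t + a) ^ 2 + 4 * u ^ 2)) := by
          apply mul_le_mul_of_nonpos_right
          · nlinarith [sq_nonneg u]
          · linarith
      _ ≤ (t ^ 2 + (t + a) ^ 2) * ((t + a) ^ 2 - 4 * u ^ 2) := by
          apply mul_le_mul_of_nonneg_left h4; positivity
  linarith

/-- monotonicity in the lateral coordinates -/
theorem lateral_inj {a t ε u v : ℝ} (ha : 0 < a) (ht : 0 ≤ t) (hε : 0 ≤ ε) (hε1 : 3 * ε < 1)
    (h : u * (1 + ε * gf a t u) = v * (1 + ε * gf a t v)) : u = v := by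
  have hs : t + a ≠ 0 := by positivity
  by_contra hne
  rcases lt_or_gt_of_ne hne with h1 | h1
  · obtain ⟨c, hc, hc2⟩ := exists_hasDerivAt_eq_slope (fun u => u * gf a t u) (dgf a t) h1
      (fun x _ => (hasDerivAt_mul_gf hs).continuousAt.continuousWithinAt)
      (fun x _ => hasDerivAt_mul_gf hs)
    have h2 := neg_le_dgf (u := c) ha ht
    rw [hc2, le_div_iff₀ (by linarith)] at h2
    nlinarith
  · obtain ⟨c, hc, hc2⟩ := exists_hasDerivAt_eq_slope (fun u => u * gf a t u) (dgf a t) h1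
      (fun x _ => (hasDerivAt_mul_gf hs).continuousAt.continuousWithinAt)
      (fun x _ => hasDerivAt_mul_gf hs)
    have h2 := neg_le_dgf (u := c) ha ht
    rw [hc2, le_div_iff₀ (by linarith)] at h2
    nlinarith

theorem psi_injOn {a N : ℝ} (ha : 0 < a) (hN : 0 < N) (i : Fin n) {τ : ℝ} (hτ : 0 < τ)
    (hτN : 3 * τ < N) {S : Set (EuclideanSpace ℝ (Fin n))} (hS : ∀ x ∈ S, 0 < x i) :
    InjOn (psi a N i τ) S := by
  intro x hx y hy hxy
  have h1 : ∀ j, psi a N i τ x j = psi a N i τ y j := fun j => by rw [hxy]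
  have hxi := hS x hx
  have hyi := hS y hy
  have hi : x i = y i := by
    have := h1 i
    rw [psi_self, psi_self] at this
    by_contra hne
    have key : ∀ s t : ℝ, 0 < s → s < t → s - τ * (1 + 32 * a / (s + a)) < t - τ * (1 + 32 * a / (t + a)) := by
      intro s t hs hst
      have : 32 * a / (t + a) ≤ 32 * a / (s + a) := by
        apply div_le_div_of_nonneg_left (by positivity) (by positivity) (by linarith)
      nlinarith
    rcases lt_or_gt_of_ne hne with h | h
    · exact absurd this (key _ _ hxi h).ne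
    · exact absurd this.symm (key _ _ hyi h).ne
  ext j
  by_cases hj : j = i
  · rw [hj]; exact hi
  · have := h1 j
    rw [psi_ne _ _ _ _ _ hj, psi_ne _ _ _ _ _ hj, ← hi] at this
    exact lateral_inj ha hxi.le (by positivity) (by
      rw [← mul_div_assoc, div_lt_one hN]; exact hτN) this

/-- diagonal coefficients of the derivative of the vector field -/
noncomputable def bb (a N : ℝ) (i : Fin n) (x : EuclideanSpace ℝ (Fin n)) (j : Fin n) : ℝ :=
  if j = i then 32 * a / (x i + a) ^ 2 else 1 / N * dgf a (x i) (x j)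

theorem psi_differentiableAt {a N : ℝ} (ha : 0 < a) (i : Fin n) (τ : ℝ)
    {x : EuclideanSpace ℝ (Fin n)} (hx : 0 < x i) : DifferentiableAt ℝ (psi a N i τ) x := by
  rw [differentiableAt_euclidean]
  intro j
  have hc : ∀ k, DifferentiableAt ℝ (fun x : EuclideanSpace ℝ (Fin n) => x k) x := by
    intro k
    exact (differentiableAt_euclidean.mp differentiableAt_id) k
  have h1 : x i + a ≠ 0 := by positivity
  by_cases hj : j = i
  · have : (fun x : EuclideanSpace ℝ (Fin n) => psi a N i τ x j)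
        = fun x => x i - τ * (1 + 32 * a / (x i + a)) := by
      funext y; rw [hj, psi_self]
    rw [this]
    have h3 : DifferentiableAt ℝ (fun x : EuclideanSpace ℝ (Fin n) => 32 * a / (x i + a)) x := by
      have h4 : DifferentiableAt ℝ (fun y : EuclideanSpace ℝ (Fin n) => y i + a) x :=
        (hc i).add_const a
      simp only [div_eq_mul_inv]
      exact (differentiableAt_const (32 * a)).fun_mul (h4.fun_inv h1)
    exact (hc i).sub ((h3.const_add 1).const_mul τ)
  · have : (fun x : EuclideanSpace ℝ (Fin n) => psi a N i τ x j)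
        = fun x => x j * (1 + τ / N * ((x i ^ 2 - 4 * x j ^ 2) / ((x i + a) ^ 2 + 4 * x j ^ 2))) := by
      funext y; rw [psi_ne _ _ _ _ _ hj]; rfl
    rw [this]
    have h2 : (x i + a) ^ 2 + 4 * x j ^ 2 ≠ 0 := by positivity
    have hnum : DifferentiableAt ℝ (fun x : EuclideanSpace ℝ (Fin n) => x i ^ 2 - 4 * x j ^ 2) x :=
      ((hc i).pow 2).sub (((hc j).pow 2).const_mul 4)
    have hden : DifferentiableAt ℝ (fun x : EuclideanSpace ℝ (Fin n) => (x i + a) ^ 2 + 4 * x j ^ 2) x :=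
      (((hc i).add_const a).pow 2).add (((hc j).pow 2).const_mul 4)
    have h3 : DifferentiableAt ℝ (fun x : EuclideanSpace ℝ (Fin n) =>
        (x i ^ 2 - 4 * x j ^ 2) / ((x i + a) ^ 2 + 4 * x j ^ 2)) x := by
      simp only [div_eq_mul_inv]
      exact hnum.fun_mul (hden.fun_inv h2)
    exact (hc j).mul ((h3.const_mul (τ / N)).const_add 1)

theorem psi_fderiv_single {a N : ℝ} (ha : 0 < a) (i : Fin n) (τ : ℝ)
    {x : EuclideanSpace ℝ (Fin n)} (hx : 0 < x i) (j k : Fin n) {c : ℝ}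
    (h : HasDerivAt (fun s : ℝ => psi a N i τ (x + s • EuclideanSpace.single k 1) j) c 0) :
    (fderiv ℝ (psi a N i τ) x (EuclideanSpace.single k 1)) j = c := by
  have h1 := (psi_differentiableAt (N := N) ha i τ hx).hasFDerivAt
  have h2 : HasDerivAt (fun s : ℝ => x + s • (EuclideanSpace.single k 1 : EuclideanSpace ℝ (Fin n)))
      (EuclideanSpace.single k 1) 0 := by
    have := ((hasDerivAt_id (0:ℝ)).smul_const (EuclideanSpace.single k (1:ℝ) : EuclideanSpace ℝ (Fin n))).const_add x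
    simpa using this
  have h3 : HasFDerivAt (psi a N i τ) (fderiv ℝ (psi a N i τ) x)
      (x + (0:ℝ) • (EuclideanSpace.single k 1 : EuclideanSpace ℝ (Fin n))) := by simpa using h1
  have h4 := h3.comp_hasDerivAt (0:ℝ) h2
  have h5 : HasDerivAt (fun s : ℝ => psi a N i τ (x + s • EuclideanSpace.single k 1) j)
      ((fderiv ℝ (psi a N i τ) x (EuclideanSpace.single k 1)) j) 0 := by
    have := (PiLp.proj (𝕜 := ℝ) 2 (fun _ : Fin n => ℝ) j : EuclideanSpace ℝ (Fin n) →L[ℝ] ℝ).hasFDerivAt.comp_hasDerivAt (0:ℝ) h4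
    exact this
  exact h5.unique h

theorem psi_fderiv_diag {a N : ℝ} (ha : 0 < a) (i : Fin n) (τ : ℝ)
    {x : EuclideanSpace ℝ (Fin n)} (hx : 0 < x i) (j : Fin n) :
    (fderiv ℝ (psi a N i τ) x (EuclideanSpace.single j 1)) j = 1 + τ * bb a N i x j := by
  apply psi_fderiv_single ha i τ hx
  have hs : x i + a ≠ 0 := by positivity
  by_cases hj : j = i
  · have e : (fun s : ℝ => psi a N i τ (x + s • EuclideanSpace.single j 1) j)
        = fun s => (x i + s) - τ * (1 + 32 * a / (x i + s + a)) := by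
      funext s; rw [hj, psi_self]; simp
    rw [e]
    have h1 : HasDerivAt (fun s : ℝ => x i + s) 1 0 := (hasDerivAt_id (0:ℝ)).const_add _
    have h2 : HasDerivAt (fun s : ℝ => x i + s + a) 1 0 := h1.add_const a
    have h3 : HasDerivAt (fun s : ℝ => 32 * a / (x i + s + a)) (-(32 * a) / (x i + a) ^ 2) 0 := by
      have := (hasDerivAt_const (0:ℝ) (32 * a)).fun_div h2 (by simpa using hs)
      exact this.congr_deriv (by simp)
    have h4 := h1.fun_sub ((h3.const_add 1).const_mul τ)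
    refine h4.congr_deriv ?_
    simp only [bb, hj, if_true]
    ring
  · have hji : i ≠ j := fun h => hj h.symm
    have e : (fun s : ℝ => psi a N i τ (x + s • EuclideanSpace.single j 1) j)
        = fun s => (x j + s) + τ / N * ((x j + s) * gf a (x i) (x j + s)) := by
      funext s; rw [psi_ne _ _ _ _ _ hj]; simp [hji]; ring
    rw [e]
    have h1 : HasDerivAt (fun s : ℝ => x j + s) 1 0 := (hasDerivAt_id (0:ℝ)).const_add _
    have h2 : HasDerivAt (fun s : ℝ => (x j + s) * gf a (x i) (x j + s)) (dgf a (x i) (x j)) 0 := by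
      have h3 : HasDerivAt (fun u => u * gf a (x i) u) (dgf a (x i) (x j)) (x j + 0) := by
        rw [add_zero]; exact hasDerivAt_mul_gf hs
      have := h3.comp (0:ℝ) h1
      exact this.congr_deriv (by ring)
    have h4 := h1.fun_add (h2.const_mul (τ / N))
    refine h4.congr_deriv ?_
    simp only [bb, hj, if_false]
    ring

theorem psi_fderiv_off {a N : ℝ} (ha : 0 < a) (i : Fin n) (τ : ℝ)
    {x : EuclideanSpace ℝ (Fin n)} (hx : 0 < x i) {j k : Fin n} (hjk : j ≠ k) (hk : k ≠ i) :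
    (fderiv ℝ (psi a N i τ) x (EuclideanSpace.single k 1)) j = 0 := by
  apply psi_fderiv_single ha i τ hx
  have e : (fun s : ℝ => psi a N i τ (x + s • EuclideanSpace.single k 1) j)
      = fun s => psi a N i τ x j := by
    funext s
    by_cases hj : j = i
    · rw [hj, psi_self, psi_self]; simp [Ne.symm hk]
    · rw [psi_ne _ _ _ _ _ hj, psi_ne _ _ _ _ _ hj]; simp [Ne.symm hk, hjk]
  rw [e]
  exact hasDerivAt_const _ _

theorem psi_det {a N : ℝ} (ha : 0 < a) (i : Fin n) (τ : ℝ) (hτ : 0 ≤ τ)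
    {x : EuclideanSpace ℝ (Fin n)} (hx : 0 < x i) :
    (fderiv ℝ (psi a N i τ) x).det = ∏ j, (1 + τ * bb a N i x j) := by
  classical
  set L := fderiv ℝ (psi a N i τ) x with hL
  have h1 : L.det = LinearMap.det (L : EuclideanSpace ℝ (Fin n) →ₗ[ℝ] EuclideanSpace ℝ (Fin n)) := rfl
  rw [h1, ← LinearMap.det_toMatrix (EuclideanSpace.basisFun (Fin n) ℝ).toBasis]
  set A := LinearMap.toMatrix (EuclideanSpace.basisFun (Fin n) ℝ).toBasis
    (EuclideanSpace.basisFun (Fin n) ℝ).toBasis (L : EuclideanSpace ℝ (Fin n) →ₗ[ℝ] EuclideanSpace ℝ (Fin n)) with hA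
  have hentry : ∀ j k, A j k = (L (EuclideanSpace.single k 1)) j := by
    intro j k
    rw [hA, LinearMap.toMatrix_apply]
    simp
  have hdiag : ∀ j, A j j = 1 + τ * bb a N i x j := by
    intro j; rw [hentry]; exact psi_fderiv_diag ha i τ hx j
  have hdi : (1 + τ * bb a N i x i) ≠ 0 := by
    have : 0 ≤ bb a N i x i := by simp only [bb, if_true]; positivity
    positivity
  rw [Matrix.det_eq_of_forall_row_eq_smul_add_const
    (B := Matrix.diagonal (fun j => 1 + τ * bb a N i x j))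
    (fun j => if j = i then 0 else A j i / (1 + τ * bb a N i x i)) i (by simp)]
  · exact Matrix.det_diagonal
  · intro j k
    by_cases hk : k = i
    · by_cases hj : j = i
      · subst hj; subst hk
        simp [hdiag]
      · subst hk
        rw [Matrix.diagonal_apply_ne _ hj, Matrix.diagonal_apply_eq]
        simp only [hj, if_false]
        field_simp
        ring
    · by_cases hj : j = k
      · subst hj
        rw [Matrix.diagonal_apply_eq, Matrix.diagonal_apply_ne _ (Ne.symm hk), hdiag]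
        ring
      · rw [Matrix.diagonal_apply_ne _ hj, Matrix.diagonal_apply_ne _ (Ne.symm hk), hentry]
        rw [psi_fderiv_off ha i τ hx hj hk]
        ring

theorem prod_lower {ι : Type*} (T : Finset ι) (y : ι → ℝ) (h : ∑ j ∈ T, |y j| ≤ 1) :
    1 + ∑ j ∈ T, y j - (∑ j ∈ T, |y j|) ^ 2 ≤ ∏ j ∈ T, (1 + y j) := by
  classical
  induction T using Finset.induction_on with
  | empty => simp
  | insert i T hi ih =>
    rw [Finset.sum_insert hi] at h
    have hS0 : 0 ≤ ∑ j ∈ T, |y j| := Finset.sum_nonneg (fun j _ => abs_nonneg _)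
    have hyi : |y i| ≤ 1 := by linarith
    have hS1 : ∑ j ∈ T, |y j| ≤ 1 := by linarith [abs_nonneg (y i)]
    have ih' := ih hS1
    rw [Finset.sum_insert hi, Finset.sum_insert hi, Finset.prod_insert hi]
    set S := ∑ j ∈ T, |y j|
    set s := ∑ j ∈ T, y j with hs
    have hsS : |s| ≤ S := Finset.abs_sum_le_sum_abs _ _
    have h1 : 0 ≤ 1 + y i := by linarith [neg_abs_le (y i)]
    have h2 : (1 + y i) * (1 + s - S ^ 2) ≤ (1 + y i) * ∏ j ∈ T, (1 + y j) :=
      mul_le_mul_of_nonneg_left ih' h1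
    have h3 : -(S * |y i|) ≤ s * y i := by
      have : |s * y i| ≤ S * |y i| := by
        rw [abs_mul]; exact mul_le_mul_of_nonneg_right hsS (abs_nonneg _)
      linarith [neg_abs_le (s * y i)]
    have h4 : S ^ 2 * y i ≤ S * |y i| := by
      have h5 : S ^ 2 * y i ≤ S ^ 2 * |y i| := mul_le_mul_of_nonneg_left (le_abs_self _) (sq_nonneg _)
      have h6 : S ^ 2 * |y i| ≤ S * |y i| := mul_le_mul_of_nonneg_right (by nlinarith) (abs_nonneg _)
      linarith
    nlinarith [sq_nonneg (y i), sq_abs (y i)]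

end Pool.Agent.H18.KLS
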