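import Mathlib
import Pool.Agent.H18.KLS.Jac

set_option autoImplicit false

open MeasureTheory Set Filter Topology

namespace Pool.Agent.H18.KLS

variable {n : ℕ}

theorem bb_self (a N : ℝ) (i : Fin n) (x : EuclideanSpace ℝ (Fin n)) :
    bb a N i x i = 32 * a / (x i + a) ^ 2 := by simp [bb]

theorem bb_ne (a N : ℝ) (i : Fin n) (x : EuclideanSpace ℝ (Fin n)) {j : Fin n} (hj : j ≠ i) :
    bb a N i x j = 1 / N * dgf a (x i) (x j) := by simp [bb, hj]

theorem sum_bb {D : ℝ} (hD : 0 < D) (i : Fin n) {x : EuclideanSpace ℝ (Fin n)} (hx : 0 < x i)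
    (hl : ∑ j, |x j| ≤ D * n) : 1 / (5 * D) ≤ ∑ j, bb (32 * D) (D * n) i x j := by
  have hn : 0 < n := Fin.pos i
  have hn' : (0:ℝ) < n := by exact_mod_cast hn
  set a : ℝ := 32 * D with ha
  have ha0 : 0 < a := by positivity
  set t := x i with ht
  set u := a / (t + a) with hu
  have hta : 0 < t + a := by positivity
  have hu0 : 0 < u := by positivity
  have hu1 : u < 1 := by rw [hu, div_lt_one hta]; linarith
  rw [← Finset.add_sum_erase Finset.univ _ (Finset.mem_univ i), bb_self]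
  have hsumabs : |x i| + ∑ j ∈ Finset.univ.erase i, |x j| ≤ D * n := by
    rw [Finset.add_sum_erase Finset.univ (fun j => |x j|) (Finset.mem_univ i)]; exact hl
  have h1 : ∑ j ∈ Finset.univ.erase i, (1 / (D * n) * ((t / (t + a)) ^ 2 - 8 * |x j| / (t + a)))
      ≤ ∑ j ∈ Finset.univ.erase i, bb a (D * n) i x j := by
    apply Finset.sum_le_sum
    intro j hj
    rw [bb_ne _ _ _ _ (Finset.ne_of_mem_erase hj)]
    apply mul_le_mul_of_nonneg_left _ (by positivity)
    exact le_dgf ha0 hx.le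
  have h2 : ∑ j ∈ Finset.univ.erase i, (1 / (D * n) * ((t / (t + a)) ^ 2 - 8 * |x j| / (t + a)))
      = 1 / (D * n) * (((n:ℝ) - 1) * (t / (t + a)) ^ 2
        - 8 / (t + a) * ∑ j ∈ Finset.univ.erase i, |x j|) := by
    rw [← Finset.mul_sum, Finset.sum_sub_distrib, Finset.sum_const, Finset.card_erase_of_mem
      (Finset.mem_univ i), Finset.card_univ, Fintype.card_fin, nsmul_eq_mul, Nat.cast_sub hn,
      Nat.cast_one, Finset.mul_sum]
    congr 2
    exact Finset.sum_congr rfl (fun j _ => by ring)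
  have e1 : 32 * a / (t + a) ^ 2 = u ^ 2 / D := by
    rw [hu, ha]; field_simp
  have e2 : t / (t + a) = 1 - u := by
    rw [hu]; field_simp
    try ring
  have e3 : 8 / (t + a) = u / (4 * D) := by
    rw [hu, ha]; field_simp; norm_num
  rw [h2, e2, e3] at h1
  rw [e1]
  set s := ∑ j ∈ Finset.univ.erase i, |x j| with hs
  have hs0 : 0 ≤ s := Finset.sum_nonneg (fun j _ => abs_nonneg _)
  have hsD : s ≤ D * n := by
    have := abs_nonneg (x i); linarith
  by_cases h1n : n = 1
  · -- dimension one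
    have hs' : s = 0 := by
      rw [hs]
      apply Finset.sum_eq_zero
      intro j hj
      exfalso
      have : j = i := by
        subst h1n
        exact Subsingleton.elim _ _
      exact Finset.ne_of_mem_erase hj this
    have hn1 : (n:ℝ) = 1 := by exact_mod_cast h1n
    rw [hs', hn1] at h1
    rw [hn1] at hsumabs hsD
    have hxD : x i ≤ D := by
      have := le_abs_self (x i); nlinarith
    have hu2 : 32 / 33 ≤ u := by
      rw [hu, le_div_iff₀ hta, ha]; nlinarith
    have h3 : 1 / (5 * D) ≤ u ^ 2 / D := by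
      rw [div_le_div_iff₀ (by positivity) hD]
      nlinarith
    have h4 : 0 ≤ ∑ j ∈ Finset.univ.erase i, bb a (D * n) i x j := by
      rw [hn1]
      refine le_trans (le_of_eq ?_) h1
      ring
    linarith
  · have hn2 : (2:ℝ) ≤ n := by
      have : 2 ≤ n := by omega
      exact_mod_cast this
    have h3 : 1 / (D * n) * (((n:ℝ) - 1) * (1 - u) ^ 2 - u / (4 * D) * s)
        ≥ 1 / D * (1 / 2 * (1 - u) ^ 2 - u / 4) := by
      have h4 : u / (4 * D) * s ≤ u / 4 * n := by
        calc u / (4 * D) * s ≤ u / (4 * D) * (D * n) := by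
              apply mul_le_mul_of_nonneg_left hsD; positivity
          _ = u / 4 * n := by field_simp
      have h5 : (n:ℝ) / 2 * (1 - u) ^ 2 ≤ ((n:ℝ) - 1) * (1 - u) ^ 2 := by
        apply mul_le_mul_of_nonneg_right _ (sq_nonneg _); linarith
      calc 1 / D * (1 / 2 * (1 - u) ^ 2 - u / 4)
          = 1 / (D * n) * ((n:ℝ) / 2 * (1 - u) ^ 2 - u / 4 * n) := by field_simp
        _ ≤ 1 / (D * n) * (((n:ℝ) - 1) * (1 - u) ^ 2 - u / (4 * D) * s) := by
            apply mul_le_mul_of_nonneg_left _ (by positivity); linarith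
    have h6 : 1 / (5 * D) ≤ u ^ 2 / D + 1 / D * (1 / 2 * (1 - u) ^ 2 - u / 4) := by
      have : u ^ 2 / D + 1 / D * (1 / 2 * (1 - u) ^ 2 - u / 4)
          = (u ^ 2 + (1 / 2 * (1 - u) ^ 2 - u / 4)) / D := by ring
      rw [this, div_le_div_iff₀ (by positivity) hD]
      nlinarith [sq_nonneg (u - 5 / 12)]
    linarith

theorem sum_abs_bb {D : ℝ} (hD : 0 < D) (i : Fin n) {x : EuclideanSpace ℝ (Fin n)}
    (hx : 0 < x i) : ∑ j, |bb (32 * D) (D * n) i x j| ≤ 4 / D := by
  have hn : 0 < n := Fin.pos i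
  have hn' : (0:ℝ) < n := by exact_mod_cast hn
  rw [← Finset.add_sum_erase Finset.univ _ (Finset.mem_univ i), bb_self]
  have ha0 : 0 < 32 * D := by positivity
  have h1 : |32 * (32 * D) / (x i + 32 * D) ^ 2| ≤ 1 / D := by
    rw [abs_of_nonneg (by positivity), div_le_div_iff₀ (by positivity) hD]
    nlinarith [mul_pos hx hD]
  have h2 : ∑ j ∈ Finset.univ.erase i, |bb (32 * D) (D * n) i x j| ≤ 3 / D := by
    calc ∑ j ∈ Finset.univ.erase i, |bb (32 * D) (D * n) i x j|
        ≤ ∑ j ∈ Finset.univ.erase i, 3 / (D * n) := by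
          apply Finset.sum_le_sum
          intro j hj
          rw [bb_ne _ _ _ _ (Finset.ne_of_mem_erase hj), abs_mul, abs_of_nonneg (by positivity)]
          have h3 : |dgf (32 * D) (x i) (x j)| ≤ 3 := by
            rw [abs_le]
            exact ⟨neg_le_dgf ha0 hx.le, (dgf_le_one ha0 hx.le).trans (by norm_num)⟩
          calc 1 / (D * n) * |dgf (32 * D) (x i) (x j)| ≤ 1 / (D * n) * 3 := by
                apply mul_le_mul_of_nonneg_left h3; positivity
            _ = 3 / (D * n) := by ring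
      _ ≤ ∑ j : Fin n, 3 / (D * n) := by
          apply Finset.sum_le_sum_of_subset_of_nonneg (Finset.erase_subset _ _)
          intro j _ _; positivity
      _ = 3 / D := by
          rw [Finset.sum_const, Finset.card_univ, Fintype.card_fin, nsmul_eq_mul]
          field_simp
  calc _ ≤ 1 / D + 3 / D := add_le_add h1 h2
    _ = 4 / D := by ring

/-- lower bound for the Jacobian determinant -/
theorem det_lower {D : ℝ} (hD : 0 < D) (i : Fin n) {x : EuclideanSpace ℝ (Fin n)}
    (hx : 0 < x i) (hl : ∑ j, |x j| ≤ D * n) {τ : ℝ} (hτ : 0 ≤ τ) (hτ4 : τ ≤ D / 4) :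
    1 + τ * (1 / (5 * D)) - τ ^ 2 * (16 / D ^ 2) ≤
      (fderiv ℝ (psi (32 * D) (D * n) i τ) x).det := by
  rw [psi_det (by positivity) i τ hτ hx]
  have h1 := sum_bb hD i hx hl
  have h2 := sum_abs_bb hD i hx
  have h3 : ∑ j, |τ * bb (32 * D) (D * n) i x j| = τ * ∑ j, |bb (32 * D) (D * n) i x j| := by
    rw [Finset.mul_sum]
    exact Finset.sum_congr rfl (fun j _ => by rw [abs_mul, abs_of_nonneg hτ])
  have h5 : τ * ∑ j, |bb (32 * D) (D * n) i x j| ≤ τ * (4 / D) :=
    mul_le_mul_of_nonneg_left h2 hτ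
  have h4 : ∑ j, |τ * bb (32 * D) (D * n) i x j| ≤ 1 := by
    rw [h3]
    calc _ ≤ τ * (4 / D) := h5
      _ ≤ D / 4 * (4 / D) := by apply mul_le_mul_of_nonneg_right hτ4; positivity
      _ = 1 := by field_simp
  have := prod_lower Finset.univ (fun j => τ * bb (32 * D) (D * n) i x j) h4
  rw [h3, ← Finset.mul_sum] at this
  refine le_trans ?_ this
  have h6 : τ * (1 / (5 * D)) ≤ τ * ∑ j, bb (32 * D) (D * n) i x j :=
    mul_le_mul_of_nonneg_left h1 hτ
  have h7 : (τ * ∑ j, |bb (32 * D) (D * n) i x j|) ^ 2 ≤ (τ * (4 / D)) ^ 2 := by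
    apply pow_le_pow_left₀ _ h5
    apply mul_nonneg hτ
    exact Finset.sum_nonneg (fun j _ => abs_nonneg _)
  have h8 : (τ * (4 / D)) ^ 2 = τ ^ 2 * (16 / D ^ 2) := by ring
  linarith

end Pool.Agent.H18.KLS
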