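import Mathlib
import Pool.Agent.H18.KLS.Trace

set_option autoImplicit false

open MeasureTheory Set Filter Topology

namespace Pool.Agent.H18.KLS

variable {n : ℕ}

/-- the vector field -/
noncomputable def XX (a N : ℝ) (i : Fin n) (x : EuclideanSpace ℝ (Fin n)) :
    EuclideanSpace ℝ (Fin n) :=
  WithLp.toLp 2 (fun j => if j = i then -(1 + 32 * a / (x i + a))
    else 1 / N * (x j * gf a (x i) (x j)))

theorem psi_eq (a N : ℝ) (i : Fin n) (τ : ℝ) (x : EuclideanSpace ℝ (Fin n)) :
    psi a N i τ x = x + τ • XX a N i x := by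
  ext j
  by_cases hj : j = i
  · subst hj
    simp [psi, XX]
    ring
  · simp [psi, XX, hj]
    ring

theorem norm_le_sum_abs (v : EuclideanSpace ℝ (Fin n)) : ‖v‖ ≤ ∑ j, |v j| := by
  rw [EuclideanSpace.norm_eq]
  apply Real.sqrt_le_iff.mpr
  refine ⟨Finset.sum_nonneg (fun j _ => abs_nonneg _), ?_⟩
  exact Finset.sum_sq_le_sq_sum_of_nonneg (fun j _ => abs_nonneg _)

theorem norm_XX_le {a N : ℝ} (ha : 0 < a) (hN : 0 < N) (i : Fin n)
    {x : EuclideanSpace ℝ (Fin n)} (hx : 0 < x i) (hl : ∑ j, |x j| ≤ N) : ‖XX a N i x‖ ≤ 34 := by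
  refine (norm_le_sum_abs _).trans ?_
  have h1 : ∀ j, |XX a N i x j| ≤ (if j = i then 33 else 0) + 1 / N * |x j| := by
    intro j
    by_cases hj : j = i
    · subst hj
      have h2 : 32 * a / (x j + a) ≤ 32 := by
        rw [div_le_iff₀ (by positivity)]; nlinarith
      have h3 : 0 ≤ 32 * a / (x j + a) := by positivity
      have h4 : XX a N j x j = -(1 + 32 * a / (x j + a)) := by simp [XX]
      rw [h4, abs_neg, abs_of_nonneg (by positivity)]
      simp only [if_true]
      have : 0 ≤ 1 / N * |x j| := by positivity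
      linarith
    · have h4 : XX a N i x j = 1 / N * (x j * gf a (x i) (x j)) := by simp [XX, hj]
      rw [h4, abs_mul, abs_of_nonneg (by positivity : 0 ≤ 1 / N), abs_mul]
      simp only [hj, if_false, zero_add]
      apply mul_le_mul_of_nonneg_left _ (by positivity)
      have := gf_abs_le (u := x j) ha hx.le
      calc |x j| * |gf a (x i) (x j)| ≤ |x j| * 1 :=
            mul_le_mul_of_nonneg_left this (abs_nonneg _)
        _ = |x j| := mul_one _
  calc ∑ j, |XX a N i x j| ≤ ∑ j, ((if j = i then 33 else 0) + 1 / N * |x j|) :=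
        Finset.sum_le_sum (fun j _ => h1 j)
    _ = 33 + 1 / N * ∑ j, |x j| := by
        rw [Finset.sum_add_distrib, ← Finset.mul_sum]; simp
    _ ≤ 33 + 1 / N * N := by
        have : 1 / N * ∑ j, |x j| ≤ 1 / N * N := mul_le_mul_of_nonneg_left hl (by positivity)
        linarith
    _ = 34 := by field_simp; norm_num

theorem measurable_gf (a : ℝ) {f g : EuclideanSpace ℝ (Fin n) → ℝ} (hf : Measurable f)
    (hg : Measurable g) : Measurable (fun x => gf a (f x) (g x)) := by
  unfold gf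
  fun_prop

theorem measurable_coord (j : Fin n) : Measurable (fun x : EuclideanSpace ℝ (Fin n) => x j) := by
  fun_prop

theorem measurable_psi (a N : ℝ) (i : Fin n) (τ : ℝ) : Measurable (psi (n := n) a N i τ) := by
  apply (MeasurableEquiv.toLp 2 (Fin n → ℝ)).measurable.comp
  apply measurable_pi_lambda
  intro j
  by_cases hj : j = i
  · simp only [hj, if_true]
    fun_prop
  · simp only [hj, if_false]
    exact (measurable_coord j).mul (((measurable_gf a (measurable_coord i)
      (measurable_coord j)).const_mul _).const_add _)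

theorem measurable_XX (a N : ℝ) (i : Fin n) : Measurable (XX (n := n) a N i) := by
  apply (MeasurableEquiv.toLp 2 (Fin n → ℝ)).measurable.comp
  apply measurable_pi_lambda
  intro j
  by_cases hj : j = i
  · simp only [hj, if_true]
    fun_prop
  · simp only [hj, if_false]
    exact ((measurable_coord j).mul (measurable_gf a (measurable_coord i)
      (measurable_coord j))).const_mul _

/-- The transport step. -/
theorem step_ineq {K : Set (EuclideanSpace ℝ (Fin n))} (hK : OneSymm K) (hc : Convex ℝ K)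
    (hm : MeasurableSet K) (hb : Bornology.IsBounded K) {D : ℝ} (hD : 0 < D)
    (hl : ∀ x ∈ K, ∑ j, |x j| ≤ D * n) (i : Fin n) {h : EuclideanSpace ℝ (Fin n) → ℝ}
    (hh : Continuous h) {τ : ℝ} (hτ : 0 < τ) (hτ4 : τ ≤ D / 4) :
    (1 + τ * (1 / (5 * D)) - τ ^ 2 * (16 / D ^ 2)) *
      ∫ x in K ∩ {x | 0 < x i}, ({y | 0 < y i}.indicator h (psi (32 * D) (D * n) i τ x)) ^ 2
      ≤ ∫ x in K ∩ {x | 0 < x i}, (h x) ^ 2 := by
  have hn : 0 < n := Fin.pos i
  have hn' : (1:ℝ) ≤ n := by exact_mod_cast hn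
  set Ψ := psi (32 * D) (D * n) i τ with hΨ
  set S : Set (EuclideanSpace ℝ (Fin n)) := K ∩ {x | 0 < x i} with hS
  have hPm : MeasurableSet {x : EuclideanSpace ℝ (Fin n) | 0 < x i} :=
    measurableSet_lt measurable_const (measurable_coord i)
  have hSm : MeasurableSet S := hm.inter hPm
  have hΨm : Measurable Ψ := measurable_psi _ _ _ _
  set T : Set (EuclideanSpace ℝ (Fin n)) := S ∩ Ψ ⁻¹' {x | 0 < x i} with hT
  have hTm : MeasurableSet T := hSm.inter (hΨm hPm)
  have hKfin : volume K < ⊤ := hb.measure_lt_top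
  have hSfin : volume S < ⊤ := (measure_mono inter_subset_left).trans_lt hKfin
  have hTfin : volume T < ⊤ := (measure_mono inter_subset_left).trans_lt hSfin
  have hmaps : ∀ x ∈ T, Ψ x ∈ K := by
    intro x hx
    have h1 : D ≤ D * n := by nlinarith
    exact psi_mem hK hc (by positivity) (by positivity) hl i hx.1.1 hx.1.2 hτ (by linarith)
      (by linarith) hx.2
  have himg : Ψ '' T ⊆ S := by
    rintro _ ⟨x, hx, rfl⟩
    exact ⟨hmaps x hx, hx.2⟩
  have hinj : InjOn Ψ T := by
    apply psi_injOn (by positivity) (by positivity) i hτ _ (fun x hx => hx.1.2)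
    nlinarith
  have hder : ∀ x ∈ T, HasFDerivWithinAt Ψ (fderiv ℝ Ψ x) T x := fun x hx =>
    (psi_differentiableAt (by positivity) i τ hx.1.2).hasFDerivAt.hasFDerivWithinAt
  obtain ⟨M, hM⟩ := hb.isCompact_closure.exists_bound_of_continuousOn hh.continuousOn
  have hhK : ∀ x ∈ K, (h x) ^ 2 ≤ M ^ 2 := by
    intro x hx
    have := hM x (subset_closure hx)
    rw [Real.norm_eq_abs] at this
    exact sq_le_sq' (by linarith [neg_abs_le (h x)]) (by linarith [le_abs_self (h x)])
  have hintS : IntegrableOn (fun x => (h x) ^ 2) S := by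
    apply Measure.integrableOn_of_bounded hSfin.ne (hh.pow 2).aestronglyMeasurable
      (M := M ^ 2)
    filter_upwards [ae_restrict_mem hSm] with x hx
    rw [Real.norm_eq_abs, abs_of_nonneg (sq_nonneg _)]
    exact hhK x hx.1
  have e1 : ∫ x in S, ({y | 0 < y i}.indicator h (Ψ x)) ^ 2 = ∫ x in T, (h (Ψ x)) ^ 2 := by
    have : ∀ x, ({y : EuclideanSpace ℝ (Fin n) | 0 < y i}.indicator h (Ψ x)) ^ 2
        = (Ψ ⁻¹' {x | 0 < x i}).indicator (fun x => (h (Ψ x)) ^ 2) x := by
      intro x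
      by_cases hx : 0 < Ψ x i
      · rw [indicator_of_mem (show Ψ x ∈ {y : EuclideanSpace ℝ (Fin n) | 0 < y i} from hx),
          indicator_of_mem (show x ∈ Ψ ⁻¹' {x : EuclideanSpace ℝ (Fin n) | 0 < x i} from hx)]
      · rw [indicator_of_notMem (show Ψ x ∉ {y : EuclideanSpace ℝ (Fin n) | 0 < y i} from hx),
          indicator_of_notMem (show x ∉ Ψ ⁻¹' {x : EuclideanSpace ℝ (Fin n) | 0 < x i} from hx)]
        norm_num
    simp_rw [this]
    rw [setIntegral_indicator (hΨm hPm)]
  rw [e1]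
  have hintT : IntegrableOn (fun x => (h (Ψ x)) ^ 2) T := by
    apply Measure.integrableOn_of_bounded hTfin.ne
      ((hh.pow 2).measurable.comp hΨm).aestronglyMeasurable (M := M ^ 2)
    filter_upwards [ae_restrict_mem hTm] with x hx
    rw [Real.norm_eq_abs, abs_of_nonneg (sq_nonneg _)]
    exact hhK _ (hmaps x hx)
  have e2 := integral_image_eq_integral_abs_det_fderiv_smul volume hTm hder hinj
    (fun x => (h x) ^ 2)
  have hint3 : IntegrableOn (fun x => |(fderiv ℝ Ψ x).det| • (h (Ψ x)) ^ 2) T := by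
    rw [← integrableOn_image_iff_integrableOn_abs_det_fderiv_smul volume hTm hder hinj
      (fun x => (h x) ^ 2)]
    exact hintS.mono_set himg
  calc (1 + τ * (1 / (5 * D)) - τ ^ 2 * (16 / D ^ 2)) * ∫ x in T, (h (Ψ x)) ^ 2
      = ∫ x in T, (1 + τ * (1 / (5 * D)) - τ ^ 2 * (16 / D ^ 2)) * (h (Ψ x)) ^ 2 := by
        rw [integral_const_mul]
    _ ≤ ∫ x in T, |(fderiv ℝ Ψ x).det| • (h (Ψ x)) ^ 2 := by
        apply setIntegral_mono_on (hintT.const_mul _) hint3 hTm
        intro x hx
        rw [smul_eq_mul]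
        apply mul_le_mul_of_nonneg_right _ (sq_nonneg _)
        exact (det_lower hD i hx.1.2 (hl x hx.1.1) hτ.le hτ4).trans (le_abs_self _)
    _ = ∫ x in Ψ '' T, (h x) ^ 2 := e2.symm
    _ ≤ ∫ x in S, (h x) ^ 2 := by
        apply setIntegral_mono_set hintS
        · filter_upwards with x using sq_nonneg _
        · exact himg.eventuallyLE

theorem half_odd {K : Set (EuclideanSpace ℝ (Fin n))} (hK : OneSymm K) (hc : Convex ℝ K)
    (hm : MeasurableSet K) (hb : Bornology.IsBounded K) {D : ℝ} (hD : 0 < D)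
    (hl : ∀ x ∈ K, ∑ j, |x j| ≤ D * n) (i : Fin n) {h : EuclideanSpace ℝ (Fin n) → ℝ}
    (hh : ContDiff ℝ 1 h) (h0 : ∀ x : EuclideanSpace ℝ (Fin n), x i = 0 → h x = 0) :
    ∫ x in K ∩ {x | 0 < x i}, (h x) ^ 2 ≤
      (340 * D) ^ 2 * ∫ x in K ∩ {x | 0 < x i}, ‖fderiv ℝ h x‖ ^ 2 := by
  have hn : 0 < n := Fin.pos i
  have hn' : (1:ℝ) ≤ n := by exact_mod_cast hn
  set X := XX (n := n) (32 * D) (D * n) i with hX
  set S : Set (EuclideanSpace ℝ (Fin n)) := K ∩ {x | 0 < x i} with hS
  have hPm : MeasurableSet {x : EuclideanSpace ℝ (Fin n) | 0 < x i} :=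
    measurableSet_lt measurable_const (measurable_coord i)
  have hSm : MeasurableSet S := hm.inter hPm
  have hKfin : volume K < ⊤ := hb.measure_lt_top
  have hSfin : volume S < ⊤ := (measure_mono inter_subset_left).trans_lt hKfin
  have : IsFiniteMeasure (volume.restrict S) := ⟨by rw [Measure.restrict_apply_univ]; exact hSfin⟩
  have hcont : Continuous (fun x => fderiv ℝ h x) := hh.continuous_fderiv (by norm_num)
  obtain ⟨M0, hM0⟩ := hb.isCompact_closure.exists_bound_of_continuousOn hh.continuous.continuousOn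
  obtain ⟨L0, hL0⟩ := hb.isCompact_closure.exists_bound_of_continuousOn hcont.continuousOn
  set M := max M0 0
  set L := max L0 0
  have hMn : 0 ≤ M := le_max_right _ _
  have hLn : 0 ≤ L := le_max_right _ _
  have hM : ∀ x ∈ K, |h x| ≤ M := fun x hx => (hM0 x (subset_closure hx)).trans (le_max_left _ _)
  have hL : ∀ x ∈ K, ‖fderiv ℝ h x‖ ≤ L :=
    fun x hx => (hL0 x (subset_closure hx)).trans (le_max_left _ _)
  have hLip : ∀ x ∈ K, ∀ y ∈ K, |h y - h x| ≤ L * ‖y - x‖ := by
    intro x hx y hy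
    have := hc.norm_image_sub_le_of_norm_fderiv_le (𝕜 := ℝ)
      (fun z _ => (hh.differentiable (by norm_num)) z) hL hx hy
    rwa [Real.norm_eq_abs] at this
  have hXn : ∀ x ∈ S, ‖X x‖ ≤ 34 := fun x hx =>
    norm_XX_le (by positivity) (by positivity) i hx.2 (hl x hx.1)
  set H : ℝ → EuclideanSpace ℝ (Fin n) → ℝ := fun τ x =>
    {y : EuclideanSpace ℝ (Fin n) | 0 < y i}.indicator h (psi (32 * D) (D * n) i τ x) with hH
  have hHb : ∀ τ : ℝ, 0 < τ → τ ≤ D / 4 → ∀ x ∈ S, |H τ x - h x| ≤ 34 * L * τ ∧ |H τ x| ≤ M := by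
    intro τ hτ hτ4 x hx
    by_cases hp : 0 < psi (32 * D) (D * n) i τ x i
    · have h1 : H τ x = h (psi (32 * D) (D * n) i τ x) := indicator_of_mem (by exact hp) _
      have h2 : psi (32 * D) (D * n) i τ x ∈ K := by
        have h1 : D ≤ D * n := by nlinarith
        exact psi_mem hK hc (by positivity) (by positivity) hl i hx.1 hx.2 hτ (by linarith)
          (by linarith) hp
      rw [h1]
      refine ⟨(hLip x hx.1 _ h2).trans ?_, hM _ h2⟩
      rw [psi_eq, add_sub_cancel_left, norm_smul, Real.norm_eq_abs, abs_of_pos hτ]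
      have := hXn x hx
      calc L * (τ * ‖XX (32 * D) (D * n) i x‖) ≤ L * (τ * 34) := by
            apply mul_le_mul_of_nonneg_left _ hLn
            exact mul_le_mul_of_nonneg_left this hτ.le
        _ = 34 * L * τ := by ring
    · have h1 : H τ x = 0 := indicator_of_notMem (by exact hp) _
      rw [h1]
      refine ⟨?_, by simpa using hMn⟩
      let x0 : EuclideanSpace ℝ (Fin n) := WithLp.toLp 2 (fun j => if j = i then 0 else x j)
      have hx0 : x0 ∈ K := by
        apply hK.mono hc hx.1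
        intro j
        by_cases hj : j = i
        · simp [x0, hj]
        · simp [x0, hj]
      have hx00 : h x0 = 0 := h0 x0 (by simp [x0])
      have h3 := hLip x0 hx0 x hx.1
      rw [hx00, sub_zero] at h3
      have h4 : ‖x - x0‖ ≤ x i := by
        refine (norm_le_sum_abs _).trans ?_
        have : ∀ j, |(x - x0) j| = if j = i then x i else 0 := by
          intro j
          by_cases hj : j = i
          · subst hj; simp [x0, abs_of_pos (show 0 < x j from hx.2)]
          · simp [x0, hj]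
        rw [Finset.sum_congr rfl (fun j _ => this j)]
        simp
      have h5 : x i ≤ 33 * τ := by
        have hxi : 0 < x i := hx.2
        rw [psi_self] at hp
        have h6 : 32 * (32 * D) / (x i + 32 * D) ≤ 32 := by
          rw [div_le_iff₀ (by positivity)]; nlinarith
        nlinarith
      rw [zero_sub, abs_neg]
      calc |h x| ≤ L * ‖x - x0‖ := h3
        _ ≤ L * (33 * τ) := mul_le_mul_of_nonneg_left (h4.trans h5) hLn
        _ ≤ 34 * L * τ := by nlinarith [mul_nonneg hLn hτ.le]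
  have hHm : ∀ τ, Measurable (H τ) := by
    intro τ
    exact (hh.continuous.measurable.indicator hPm).comp (measurable_psi _ _ _ _)
  set F : ℝ → EuclideanSpace ℝ (Fin n) → ℝ := fun τ x => ((H τ x) ^ 2 - (h x) ^ 2) / τ with hF
  have hFm : ∀ τ, Measurable (F τ) := fun τ =>
    (((hHm τ).pow_const 2).sub (hh.continuous.measurable.pow_const 2)).div_const τ
  have hFb : ∀ τ : ℝ, 0 < τ → τ ≤ D / 4 → ∀ x ∈ S, |F τ x| ≤ 34 * L * (2 * M) := by
    intro τ hτ hτ4 x hx
    obtain ⟨h1, h2⟩ := hHb τ hτ hτ4 x hx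
    have h3 : F τ x = (H τ x - h x) * (H τ x + h x) / τ := by
      simp only [hF]; ring
    rw [h3, abs_div, abs_of_pos hτ, div_le_iff₀ hτ, abs_mul]
    have h4 : |H τ x + h x| ≤ 2 * M := by
      have := abs_add_le (H τ x) (h x)
      have := hM x hx.1
      linarith
    calc |H τ x - h x| * |H τ x + h x| ≤ (34 * L * τ) * (2 * M) :=
          mul_le_mul h1 h4 (abs_nonneg _) (by positivity)
      _ = 34 * L * (2 * M) * τ := by ring
  have hFlim : ∀ x ∈ S, Tendsto (fun τ => F τ x) (𝓝[>] 0) (𝓝 (2 * h x * (fderiv ℝ h x (X x)))) := by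
    intro x hx
    have hpsi : ∀ τ : ℝ, psi (32 * D) (D * n) i τ x = x + τ • X x := fun τ => psi_eq _ _ _ _ _
    have hd : HasDerivAt (fun τ : ℝ => x + τ • X x) (X x) 0 := by
      have := ((hasDerivAt_id (0:ℝ)).smul_const (X x)).const_add x
      simpa using this
    have hd2 : HasFDerivAt h (fderiv ℝ h x) (x + (0:ℝ) • X x) := by
      simpa using ((hh.differentiable (by norm_num)) x).hasFDerivAt
    have hd3 : HasDerivAt (fun τ : ℝ => h (x + τ • X x)) (fderiv ℝ h x (X x)) 0 :=
      hd2.comp_hasDerivAt (0:ℝ) hd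
    have hd4 : HasDerivAt (fun τ : ℝ => (h (x + τ • X x)) ^ 2) (2 * h x * (fderiv ℝ h x (X x))) 0 := by
      have := hd3.fun_pow 2
      refine this.congr_deriv ?_
      simp
    have hd5 := hd4.hasDerivWithinAt (s := Ioi 0)
    rw [hasDerivWithinAt_iff_tendsto_slope' (by simp)] at hd5
    refine hd5.congr' ?_
    have hev : ∀ᶠ τ : ℝ in 𝓝[>] 0, 0 < (x + τ • X x) i := by
      have hct : ContinuousAt (fun τ : ℝ => (x + τ • X x) i) 0 := by
        have : Continuous (fun τ : ℝ => (x + τ • X x) i) := by fun_prop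
        exact this.continuousAt
      have h1 : ∀ᶠ τ : ℝ in 𝓝 0, 0 < (x + τ • X x) i := by
        have h00 : 0 < (x + (0:ℝ) • X x) i := by simpa using hx.2
        exact hct.eventually (lt_mem_nhds h00)
      exact h1.filter_mono nhdsWithin_le_nhds
    filter_upwards [hev, self_mem_nhdsWithin] with τ h1 h2
    have h3 : H τ x = h (x + τ • X x) := by
      simp only [hH]
      rw [hpsi]
      exact indicator_of_mem (by exact h1) _
    simp only [hF, h3, slope_def_field]
    simp
  set J : ℝ → ℝ := fun τ => ∫ x in S, F τ x with hJ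
  set I := ∫ x in S, (h x) ^ 2 with hI
  have hev0 : ∀ᶠ τ : ℝ in 𝓝[>] 0, 0 < τ ∧ τ ≤ D / 4 := by
    have h1 : ∀ᶠ τ : ℝ in 𝓝[>] 0, 0 < τ := self_mem_nhdsWithin
    have h2 : ∀ᶠ τ : ℝ in 𝓝[>] 0, τ ≤ D / 4 := by
      have : ∀ᶠ τ : ℝ in 𝓝 0, τ ≤ D / 4 := eventually_le_nhds (by positivity)
      exact this.filter_mono nhdsWithin_le_nhds
    exact h1.and h2
  have hJlim : Tendsto J (𝓝[>] 0) (𝓝 (∫ x in S, 2 * h x * (fderiv ℝ h x (X x)))) := by
    apply tendsto_integral_filter_of_dominated_convergence (fun _ => 34 * L * (2 * M))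
    · filter_upwards with τ using (hFm τ).aestronglyMeasurable
    · filter_upwards [hev0] with τ hτ
      filter_upwards [ae_restrict_mem hSm] with x hx
      exact hFb τ hτ.1 hτ.2 x hx
    · exact integrable_const _
    · filter_upwards [ae_restrict_mem hSm] with x hx
      exact hFlim x hx
  have hbint : ∀ (g : EuclideanSpace ℝ (Fin n) → ℝ) (C : ℝ), Measurable g →
      (∀ x ∈ S, |g x| ≤ C) → IntegrableOn g S := by
    intro g C hg hgC
    apply Measure.integrableOn_of_bounded hSfin.ne hg.aestronglyMeasurable (M := C)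
    filter_upwards [ae_restrict_mem hSm] with x hx
    exact hgC x hx
  have hIint : IntegrableOn (fun x => (h x) ^ 2) S := by
    apply hbint _ (M ^ 2) (hh.continuous.measurable.pow_const 2)
    intro x hx
    rw [abs_pow]
    exact pow_le_pow_left₀ (abs_nonneg _) (hM x hx.1) 2
  have hstep : ∀ᶠ τ : ℝ in 𝓝[>] 0,
      J τ + (1 / (5 * D) - τ * (16 / D ^ 2)) * (I + τ * J τ) ≤ 0 := by
    filter_upwards [hev0] with τ hτ
    have h1 := step_ineq hK hc hm hb hD hl i hh.continuous hτ.1 hτ.2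
    have h2 : ∫ x in S, (H τ x) ^ 2 = I + τ * J τ := by
      rw [hI, hJ]
      simp only
      rw [← integral_const_mul, ← integral_add hIint
        ((hbint _ _ (hFm τ) (hFb τ hτ.1 hτ.2)).const_mul τ)]
      apply integral_congr_ae
      filter_upwards with x
      simp only [hF]
      have := hτ.1.ne'
      field_simp
      ring
    have h3 : (1 + τ * (1 / (5 * D)) - τ ^ 2 * (16 / D ^ 2)) * (I + τ * J τ) ≤ I := by
      rw [← h2]; exact h1
    have h4 : τ * (J τ + (1 / (5 * D) - τ * (16 / D ^ 2)) * (I + τ * J τ)) ≤ 0 := by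
      nlinarith [h3]
    by_contra hcon
    push Not at hcon
    have := mul_pos hτ.1 hcon
    linarith
  have hlim2 : Tendsto (fun τ => J τ + (1 / (5 * D) - τ * (16 / D ^ 2)) * (I + τ * J τ)) (𝓝[>] 0)
      (𝓝 ((∫ x in S, 2 * h x * (fderiv ℝ h x (X x))) +
        (1 / (5 * D) - 0 * (16 / D ^ 2)) *
          (I + 0 * (∫ x in S, 2 * h x * (fderiv ℝ h x (X x)))))) := by
    have hid : Tendsto (fun τ : ℝ => τ) (𝓝[>] 0) (𝓝 0) := nhdsWithin_le_nhds
    exact hJlim.add ((tendsto_const_nhds.sub (hid.mul_const _)).mul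
      (tendsto_const_nhds.add (hid.mul hJlim)))
  have hfin := le_of_tendsto hlim2 hstep
  rw [zero_mul, zero_mul, sub_zero, add_zero] at hfin
  -- pointwise Cauchy-Schwarz
  have hXm : Measurable X := measurable_XX _ _ _
  have hdm : Measurable (fun x => fderiv ℝ h x (X x)) := by
    have h1 : Measurable (fun x => (fderiv ℝ h x, X x)) := hcont.measurable.prodMk hXm
    have h2 : Continuous (fun p : (EuclideanSpace ℝ (Fin n) →L[ℝ] ℝ) × EuclideanSpace ℝ (Fin n) =>
      p.1 p.2) := by fun_prop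
    exact h2.measurable.comp h1
  have hgint : IntegrableOn (fun x => ‖fderiv ℝ h x‖ ^ 2) S := by
    apply hbint _ (L ^ 2) (hcont.norm.measurable.pow_const 2)
    intro x hx
    rw [abs_pow, abs_norm]
    exact pow_le_pow_left₀ (norm_nonneg _) (hL x hx.1) 2
  have hcross : IntegrableOn (fun x => 2 * h x * (fderiv ℝ h x (X x))) S := by
    apply hbint (fun x => 2 * h x * (fderiv ℝ h x (X x))) (2 * M * (L * 34))
      ((hh.continuous.measurable.const_mul 2).mul hdm)
    intro x hx
    rw [abs_mul, abs_mul, abs_two]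
    apply mul_le_mul _ _ (abs_nonneg _) (by positivity)
    · exact mul_le_mul_of_nonneg_left (hM x hx.1) (by norm_num)
    · have h1 := (fderiv ℝ h x).le_opNorm (X x)
      rw [Real.norm_eq_abs] at h1
      exact h1.trans (mul_le_mul (hL x hx.1) (hXn x hx) (norm_nonneg _) hLn)
  have hpt : ∫ x in S, (-(1 / (10 * D) * (h x) ^ 2) - 10 * D * 34 ^ 2 * ‖fderiv ℝ h x‖ ^ 2) ≤
      ∫ x in S, 2 * h x * (fderiv ℝ h x (X x)) := by
    apply setIntegral_mono_on _ hcross hSm
    · intro x hx
      have h1 := (fderiv ℝ h x).le_opNorm (X x)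
      rw [Real.norm_eq_abs] at h1
      have h2 : |fderiv ℝ h x (X x)| ≤ ‖fderiv ℝ h x‖ * 34 :=
        h1.trans (mul_le_mul_of_nonneg_left (hXn x hx) (norm_nonneg _))
      have h3 : (fderiv ℝ h x (X x)) ^ 2 ≤ (‖fderiv ℝ h x‖ * 34) ^ 2 := by
        rw [← sq_abs]
        exact pow_le_pow_left₀ (abs_nonneg _) h2 2
      have h4 : 0 ≤ (1 / (10 * D)) * (h x + 10 * D * (fderiv ℝ h x (X x))) ^ 2 := by positivity
      have h5 : (1 / (10 * D)) * (h x + 10 * D * (fderiv ℝ h x (X x))) ^ 2 =
          1 / (10 * D) * (h x) ^ 2 + 2 * h x * (fderiv ℝ h x (X x))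
            + 10 * D * (fderiv ℝ h x (X x)) ^ 2 := by
        field_simp
        ring
      have h6 : 10 * D * (fderiv ℝ h x (X x)) ^ 2 ≤ 10 * D * (‖fderiv ℝ h x‖ * 34) ^ 2 :=
        mul_le_mul_of_nonneg_left h3 (by positivity)
      nlinarith
    · exact ((hIint.const_mul _).neg).sub (hgint.const_mul _)
  have hneg : IntegrableOn (fun x => -(1 / (10 * D) * (h x) ^ 2)) S := (hIint.const_mul _).neg
  rw [integral_sub hneg (hgint.const_mul _), integral_neg,
    integral_const_mul, integral_const_mul] at hpt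
  have hG0 : 0 ≤ ∫ x in S, ‖fderiv ℝ h x‖ ^ 2 := integral_nonneg (fun x => by positivity)
  have hlast : 1 / (10 * D) * I ≤ 10 * D * 34 ^ 2 * ∫ x in S, ‖fderiv ℝ h x‖ ^ 2 := by
    have h7 : 1 / (5 * D) * I = 2 * (1 / (10 * D) * I) := by ring
    rw [h7] at hfin
    linarith
  calc I = (10 * D) * (1 / (10 * D) * I) := by field_simp
    _ ≤ (10 * D) * (10 * D * 34 ^ 2 * ∫ x in S, ‖fderiv ℝ h x‖ ^ 2) :=
        mul_le_mul_of_nonneg_left hlast (by positivity)
    _ = (340 * D) ^ 2 * ∫ x in S, ‖fderiv ℝ h x‖ ^ 2 := by ring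

end Pool.Agent.H18.KLS
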