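import Mathlib
import Pool.Agent.H18.KLS.Odd

set_option autoImplicit false

open MeasureTheory Set Filter Topology

namespace Pool.Agent.H18.KLS

variable {n : ℕ}

/-- the reflection `x_i ↦ -x_i` -/
noncomputable def flip (i : Fin n) : EuclideanSpace ℝ (Fin n) ≃ₗᵢ[ℝ] EuclideanSpace ℝ (Fin n) :=
  LinearIsometryEquiv.piLpCongrRight 2
    (fun j => if j = i then LinearIsometryEquiv.neg ℝ else LinearIsometryEquiv.refl ℝ ℝ)

theorem flip_apply (i : Fin n) (x : EuclideanSpace ℝ (Fin n)) (j : Fin n) :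
    flip i x j = if j = i then - x j else x j := by
  simp only [flip, LinearIsometryEquiv.piLpCongrRight_apply]
  by_cases hj : j = i
  · simp [hj]
  · simp [hj]

theorem flip_flip (i : Fin n) (x : EuclideanSpace ℝ (Fin n)) : flip i (flip i x) = x := by
  ext j
  rw [flip_apply, flip_apply]
  by_cases hj : j = i
  · simp [hj]
  · simp [hj]

theorem flip_comm (i k : Fin n) (x : EuclideanSpace ℝ (Fin n)) :
    flip i (flip k x) = flip k (flip i x) := by
  ext j
  simp only [flip_apply]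
  split_ifs <;> rfl

theorem flip_symm (i : Fin n) : (flip i).symm = flip i := by
  apply LinearIsometryEquiv.ext
  intro x
  rw [LinearIsometryEquiv.symm_apply_eq, flip_flip]

theorem flip_mem {K : Set (EuclideanSpace ℝ (Fin n))} (hK : OneSymm K) (i : Fin n)
    (x : EuclideanSpace ℝ (Fin n)) : flip i x ∈ K ↔ x ∈ K := by
  have key : ∀ x, x ∈ K → flip i x ∈ K := by
    intro x hx
    apply hK.sign x _ hx
    intro j
    rw [flip_apply]
    split_ifs <;> simp
  exact ⟨fun h => by rw [← flip_flip i x]; exact key _ h, key x⟩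

theorem flip_preimage {K : Set (EuclideanSpace ℝ (Fin n))} (hK : OneSymm K) (i : Fin n) :
    flip i ⁻¹' K = K := by
  ext x; exact flip_mem hK i x

theorem integral_flip {K : Set (EuclideanSpace ℝ (Fin n))} (i : Fin n)
    (g : EuclideanSpace ℝ (Fin n) → ℝ) :
    ∫ x in flip i ⁻¹' K, g (flip i x) = ∫ x in K, g x :=
  (flip i).measurePreserving.setIntegral_preimage_emb
    (flip i).toHomeomorph.measurableEmbedding g K

theorem norm_fderiv_flip {h : EuclideanSpace ℝ (Fin n) → ℝ} (hh : Differentiable ℝ h) (i : Fin n)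
    (x : EuclideanSpace ℝ (Fin n)) :
    fderiv ℝ (fun y => h (flip i y)) x =
      (fderiv ℝ h (flip i x)).comp (flip i : EuclideanSpace ℝ (Fin n) →L[ℝ] EuclideanSpace ℝ (Fin n)) := by
  have h1 : HasFDerivAt (fun y => flip i y)
      (flip i : EuclideanSpace ℝ (Fin n) →L[ℝ] EuclideanSpace ℝ (Fin n)) x :=
    (flip i : EuclideanSpace ℝ (Fin n) →L[ℝ] EuclideanSpace ℝ (Fin n)).hasFDerivAt
  exact ((hh (flip i x)).hasFDerivAt.comp x h1).fderiv

theorem norm_comp_flip (i : Fin n) (L : EuclideanSpace ℝ (Fin n) →L[ℝ] ℝ) :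
    ‖L.comp (flip i : EuclideanSpace ℝ (Fin n) →L[ℝ] EuclideanSpace ℝ (Fin n))‖ = ‖L‖ := by
  have key : ∀ L : EuclideanSpace ℝ (Fin n) →L[ℝ] ℝ,
      ‖L.comp (flip i : EuclideanSpace ℝ (Fin n) →L[ℝ] EuclideanSpace ℝ (Fin n))‖ ≤ ‖L‖ := by
    intro L
    apply ContinuousLinearMap.opNorm_le_bound _ (norm_nonneg _)
    intro x
    have := L.le_opNorm (flip i x)
    rw [(flip i).norm_map] at this
    exact this
  apply le_antisymm (key L)
  have h1 := key (L.comp (flip i : EuclideanSpace ℝ (Fin n) →L[ℝ] EuclideanSpace ℝ (Fin n)))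
  have h2 : (L.comp (flip i : EuclideanSpace ℝ (Fin n) →L[ℝ] EuclideanSpace ℝ (Fin n))).comp
      (flip i : EuclideanSpace ℝ (Fin n) →L[ℝ] EuclideanSpace ℝ (Fin n)) = L := by
    ext x
    show L (flip i (flip i x)) = L x
    rw [flip_flip]
  rw [h2] at h1
  exact h1

/-- The Poincare inequality for functions vanishing on the hyperplane `x_i = 0`. -/
theorem odd_poincare {K : Set (EuclideanSpace ℝ (Fin n))} (hK : OneSymm K) (hc : Convex ℝ K)
    (hm : MeasurableSet K) (hb : Bornology.IsBounded K) {D : ℝ} (hD : 0 < D)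
    (hl : ∀ x ∈ K, ∑ j, |x j| ≤ D * n) (i : Fin n) {h : EuclideanSpace ℝ (Fin n) → ℝ}
    (hh : ContDiff ℝ 1 h) (h0 : ∀ x : EuclideanSpace ℝ (Fin n), x i = 0 → h x = 0) :
    ∫ x in K, (h x) ^ 2 ≤ (340 * D) ^ 2 * ∫ x in K, ‖fderiv ℝ h x‖ ^ 2 := by
  have hcont : Continuous (fun x => fderiv ℝ h x) := hh.continuous_fderiv (by norm_num)
  have hPm : MeasurableSet {x : EuclideanSpace ℝ (Fin n) | 0 < x i} :=
    measurableSet_lt measurable_const (measurable_coord i)
  have hNm : MeasurableSet {x : EuclideanSpace ℝ (Fin n) | x i < 0} :=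
    measurableSet_lt (measurable_coord i) measurable_const
  have hKfin : volume K < ⊤ := hb.measure_lt_top
  -- continuous functions are integrable on K
  have hint : ∀ g : EuclideanSpace ℝ (Fin n) → ℝ, Continuous g → IntegrableOn g K := by
    intro g hg
    exact (hg.continuousOn.integrableOn_compact hb.isCompact_closure).mono_set subset_closure
  have hsplit : ∀ g : EuclideanSpace ℝ (Fin n) → ℝ, Continuous g → (∀ x, 0 ≤ g x) →
      (∫ x in K ∩ {x | 0 < x i}, g x) + (∫ x in K ∩ {x | x i < 0}, g x) ≤ ∫ x in K, g x := by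
    intro g hg hg0
    have hd : Disjoint (K ∩ {x : EuclideanSpace ℝ (Fin n) | 0 < x i}) (K ∩ {x | x i < 0}) := by
      rw [Set.disjoint_left]
      rintro x ⟨_, h1⟩ ⟨_, h2⟩
      exact absurd (lt_trans (show x i < 0 from h2) h1) (lt_irrefl _)
    rw [← setIntegral_union hd (hm.inter hNm) ((hint g hg).mono_set inter_subset_left)
      ((hint g hg).mono_set inter_subset_left)]
    apply setIntegral_mono_set (hint g hg)
    · filter_upwards with x using hg0 x
    · apply LE.le.eventuallyLE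
      exact union_subset inter_subset_left inter_subset_left
  have hL : ∫ x in K, (h x) ^ 2 = (∫ x in K ∩ {x | 0 < x i}, (h x) ^ 2) +
      ∫ x in K ∩ {x | x i < 0}, (h x) ^ 2 := by
    have hd : Disjoint (K ∩ {x : EuclideanSpace ℝ (Fin n) | 0 < x i}) (K ∩ {x | x i < 0}) := by
      rw [Set.disjoint_left]
      rintro x ⟨_, h1⟩ ⟨_, h2⟩
      exact absurd (lt_trans (show x i < 0 from h2) h1) (lt_irrefl _)
    have hg := hint (fun x => (h x) ^ 2) (hh.continuous.pow 2)
    rw [← setIntegral_union hd (hm.inter hNm) (hg.mono_set inter_subset_left)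
      (hg.mono_set inter_subset_left)]
    apply setIntegral_eq_of_subset_of_forall_sdiff_eq_zero hm
    · exact union_subset inter_subset_left inter_subset_left
    · rintro x ⟨hx, hx2⟩
      have : x i = 0 := by
        by_contra hne
        rcases lt_or_gt_of_ne hne with h1 | h1
        · exact hx2 (Or.inr ⟨hx, h1⟩)
        · exact hx2 (Or.inl ⟨hx, h1⟩)
      rw [h0 x this]; norm_num
  have hpos := half_odd hK hc hm hb hD hl i hh h0
  have hflipc : ContDiff ℝ 1 (fun y => h (flip i y)) := hh.comp (flip i).contDiff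
  have hneg := half_odd hK hc hm hb hD hl i hflipc (fun x hx => by
    apply h0; rw [flip_apply]; simp [hx])
  have hpre : K ∩ {x : EuclideanSpace ℝ (Fin n) | 0 < x i} = flip i ⁻¹' (K ∩ {x | x i < 0}) := by
    ext x
    simp only [mem_inter_iff, mem_preimage, flip_mem hK i x]
    simp [flip_apply]
  have hn1 : ∫ x in K ∩ {x | 0 < x i}, (h (flip i x)) ^ 2 = ∫ x in K ∩ {x | x i < 0}, (h x) ^ 2 := by
    rw [hpre]
    exact integral_flip i (fun x => (h x) ^ 2)
  have hn2 : ∫ x in K ∩ {x | 0 < x i}, ‖fderiv ℝ (fun y => h (flip i y)) x‖ ^ 2 =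
      ∫ x in K ∩ {x | x i < 0}, ‖fderiv ℝ h x‖ ^ 2 := by
    rw [hpre]
    rw [← integral_flip i (fun x => ‖fderiv ℝ h x‖ ^ 2)]
    apply integral_congr_ae
    filter_upwards with x
    rw [norm_fderiv_flip (hh.differentiable (by norm_num)), norm_comp_flip]
  rw [hn1, hn2] at hneg
  have hR := hsplit (fun x => ‖fderiv ℝ h x‖ ^ 2) (hcont.norm.pow 2) (fun x => by positivity)
  rw [hL]
  calc _ ≤ (340 * D) ^ 2 * (∫ x in K ∩ {x | 0 < x i}, ‖fderiv ℝ h x‖ ^ 2) +
        (340 * D) ^ 2 * (∫ x in K ∩ {x | x i < 0}, ‖fderiv ℝ h x‖ ^ 2) := add_le_add hpos hneg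
    _ = (340 * D) ^ 2 * ((∫ x in K ∩ {x | 0 < x i}, ‖fderiv ℝ h x‖ ^ 2) +
        (∫ x in K ∩ {x | x i < 0}, ‖fderiv ℝ h x‖ ^ 2)) := by ring
    _ ≤ _ := mul_le_mul_of_nonneg_left hR (by positivity)

end Pool.Agent.H18.KLS
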