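import Mathlib
import Pool.Agent.H18.KLS.Flip

set_option autoImplicit false

open MeasureTheory Set Filter Topology

namespace Pool.Agent.H18.KLS

variable {n : ℕ}

/-- coordinate permutation as an isometry -/
noncomputable def swp (i j : Fin n) : EuclideanSpace ℝ (Fin n) ≃ₗᵢ[ℝ] EuclideanSpace ℝ (Fin n) :=
  LinearIsometryEquiv.piLpCongrLeft 2 ℝ ℝ (Equiv.swap i j)

theorem swp_apply (i j : Fin n) (x : EuclideanSpace ℝ (Fin n)) (k : Fin n) :
    swp i j x k = x (Equiv.swap i j k) := by
  simp [swp, LinearIsometryEquiv.piLpCongrLeft_apply, Equiv.piCongrLeft'_apply]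

theorem swp_preimage {K : Set (EuclideanSpace ℝ (Fin n))} (hK : OneSymm K) (i j : Fin n) :
    swp i j ⁻¹' K = K := by
  have key : ∀ x, x ∈ K → swp i j x ∈ K := fun x hx =>
    hK.perm (Equiv.swap i j) x _ hx (fun k => swp_apply i j x k)
  ext x
  refine ⟨fun h => ?_, key x⟩
  have h2 := key _ h
  have : swp i j (swp i j x) = x := by
    ext k
    rw [swp_apply, swp_apply, Equiv.swap_apply_self]
  rwa [this] at h2

theorem integral_coord_sq {K : Set (EuclideanSpace ℝ (Fin n))} (hK : OneSymm K) (i j : Fin n) :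
    ∫ x in K, (x i) ^ 2 = ∫ x in K, (x j) ^ 2 := by
  have := (swp i j).measurePreserving.setIntegral_preimage_emb
    (swp i j).toHomeomorph.measurableEmbedding (fun x => (x j) ^ 2) K
  rw [swp_preimage hK i j] at this
  rw [← this]
  apply integral_congr_ae
  filter_upwards with x
  have h2 : (swp i j x) j = x i := by rw [swp_apply, Equiv.swap_apply_right]
  show (x i) ^ 2 = ((swp i j x) j) ^ 2
  rw [h2]

theorem OneSymm.inter_l1 {K : Set (EuclideanSpace ℝ (Fin n))} (hK : OneSymm K) (c : ℝ) :
    OneSymm (K ∩ {x | ∑ j, |x j| ≤ c}) := by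
  constructor
  · rintro σ x y ⟨hx, hx2⟩ hy
    refine ⟨hK.perm σ x y hx hy, ?_⟩
    have : ∑ j, |y j| = ∑ j, |x j| := by
      rw [Finset.sum_congr rfl (fun j _ => by rw [hy j])]
      exact Equiv.sum_comp σ (fun j => |x j|)
    show ∑ j, |y j| ≤ c
    rw [this]; exact hx2
  · rintro x y ⟨hx, hx2⟩ hy
    refine ⟨hK.sign x y hx hy, ?_⟩
    show ∑ j, |y j| ≤ c
    rw [Finset.sum_congr rfl (fun j _ => hy j)]
    exact hx2

theorem convex_l1 (c : ℝ) : Convex ℝ {x : EuclideanSpace ℝ (Fin n) | ∑ j, |x j| ≤ c} := by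
  have h : ConvexOn ℝ univ (fun x : EuclideanSpace ℝ (Fin n) => ∑ j, |x j|) := by
    refine ⟨convex_univ, ?_⟩
    intro x _ y _ a b ha hb _
    simp only [PiLp.add_apply, PiLp.smul_apply, smul_eq_mul]
    rw [Finset.mul_sum, Finset.mul_sum, ← Finset.sum_add_distrib]
    apply Finset.sum_le_sum
    intro j _
    calc |a * x j + b * y j| ≤ |a * x j| + |b * y j| := abs_add_le _ _
      _ = a * |x j| + b * |y j| := by rw [abs_mul, abs_mul, abs_of_nonneg ha, abs_of_nonneg hb]
  have := h.convex_le c
  simpa using this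

theorem measurable_l1 : Measurable (fun x : EuclideanSpace ℝ (Fin n) => ∑ j, |x j|) := by
  fun_prop

/-- Markov inequality: a large part of the body lies in a multiple of the cross-polytope. -/
theorem trunc_vol {K : Set (EuclideanSpace ℝ (Fin n))} (hK : OneSymm K)
    (hm : MeasurableSet K) (hb : Bornology.IsBounded K) (i : Fin n) {s : ℝ} (hs : 0 < s)
    (hsq : ∫ x in K, (x i) ^ 2 ≤ s ^ 2 * volume.real K) :
    3 / 4 * volume.real K ≤ volume.real (K ∩ {x | ∑ j, |x j| ≤ 4 * s * n}) := by
  have hn : 0 < n := Fin.pos i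
  have hn' : (0:ℝ) < n := by exact_mod_cast hn
  have hKfin : volume K < ⊤ := hb.measure_lt_top
  have hint : ∀ g : EuclideanSpace ℝ (Fin n) → ℝ, Continuous g → IntegrableOn g K := by
    intro g hg
    exact (hg.continuousOn.integrableOn_compact hb.isCompact_closure).mono_set subset_closure
  set V := volume.real K with hV
  have hV0 : 0 ≤ V := measureReal_nonneg
  have h1 : ∀ j : Fin n, ∫ x in K, |x j| ≤ s * V := by
    intro j
    have hi1 : IntegrableOn (fun x : EuclideanSpace ℝ (Fin n) => |x j|) K := hint _ (by fun_prop)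
    have hi2 : IntegrableOn (fun x : EuclideanSpace ℝ (Fin n) => (x j) ^ 2) K := hint _ (by fun_prop)
    have hi3 : IntegrableOn (fun x : EuclideanSpace ℝ (Fin n) => 1 / (2 * s) * (x j) ^ 2) K :=
      hi2.const_mul _
    have hi4 : IntegrableOn (fun _ : EuclideanSpace ℝ (Fin n) => s / 2) K := hint _ (by fun_prop)
    calc ∫ x in K, |x j| ≤ ∫ x in K, (s / 2 + 1 / (2 * s) * (x j) ^ 2) := by
          apply setIntegral_mono_on hi1 (hi4.add hi3) hm
          intro x _
          have h2 : 0 ≤ 1 / (2 * s) * (|x j| - s) ^ 2 := by positivity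
          have h3 : 1 / (2 * s) * (|x j| - s) ^ 2 = 1 / (2 * s) * (x j) ^ 2 - |x j| + s / 2 := by
            rw [← sq_abs (x j)]; field_simp; ring
          show |x j| ≤ s / 2 + 1 / (2 * s) * (x j) ^ 2
          linarith
      _ = s / 2 * V + 1 / (2 * s) * ∫ x in K, (x j) ^ 2 := by
          rw [integral_add hi4 hi3, integral_const_mul, setIntegral_const, smul_eq_mul]
          ring
      _ ≤ s / 2 * V + 1 / (2 * s) * (s ^ 2 * V) := by
          rw [integral_coord_sq hK j i]
          have := mul_le_mul_of_nonneg_left hsq (by positivity : 0 ≤ 1 / (2 * s))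
          linarith
      _ = s * V := by field_simp; ring
  have hBm : MeasurableSet {x : EuclideanSpace ℝ (Fin n) | ∑ j, |x j| ≤ 4 * s * n} :=
    measurableSet_le measurable_l1 measurable_const
  set B : Set (EuclideanSpace ℝ (Fin n)) := {x | ∑ j, |x j| ≤ 4 * s * n} with hB
  have hsum : ∫ x in K, ∑ j, |x j| ≤ n * (s * V) := by
    rw [integral_finsetSum _ (fun j _ => hint _ (by fun_prop))]
    calc ∑ j : Fin n, ∫ x in K, |x j| ≤ ∑ j : Fin n, s * V := Finset.sum_le_sum (fun j _ => h1 j)
      _ = n * (s * V) := by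
          rw [Finset.sum_const, Finset.card_univ, Fintype.card_fin, nsmul_eq_mul]
  have hmk : (4 * s * n) * volume.real (K \ B) ≤ ∫ x in K, ∑ j, |x j| := by
    have hi5 : IntegrableOn (fun x : EuclideanSpace ℝ (Fin n) => ∑ j, |x j|) K :=
      hint _ (by fun_prop)
    calc (4 * s * n) * volume.real (K \ B) = ∫ x in K \ B, (4 * s * n) := by
          rw [setIntegral_const, smul_eq_mul]; ring
      _ ≤ ∫ x in K \ B, ∑ j, |x j| := by
          apply setIntegral_mono_on _ (hi5.mono_set sdiff_subset) (hm.diff hBm)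
          · intro x hx
            exact (not_le.mp hx.2).le
          · exact (hint _ (by fun_prop)).mono_set sdiff_subset
      _ ≤ ∫ x in K, ∑ j, |x j| := by
          apply setIntegral_mono_set hi5
          · filter_upwards with x using Finset.sum_nonneg (fun j _ => abs_nonneg _)
          · exact sdiff_subset.eventuallyLE
  have hdec : volume.real (K ∩ B) + volume.real (K \ B) = V := by
    rw [hV]
    exact measureReal_inter_add_sdiff hBm
  have h5 : volume.real (K \ B) ≤ V / 4 := by
    have h6 : (4 * s * n) * volume.real (K \ B) ≤ (4 * s * n) * (V / 4) := by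
      calc _ ≤ _ := hmk
        _ ≤ _ := hsum
        _ = _ := by ring
    exact le_of_mul_le_mul_left h6 (by positivity)
  linarith

end Pool.Agent.H18.KLS
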