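import Pool.Agent.H18.KLS.Assemble
import Pool.Agent.H18.KLS.Trunc
import Pool.Agent.H18.KLS.Even

set_option autoImplicit false

open MeasureTheory Measure Set Filter Topology
open scoped ENNReal NNReal Real

namespace Pool.Agent.H18.KLS

open Pool.Agent.H84

variable {n : ℕ}

theorem integral_cross {K : Set (EuclideanSpace ℝ (Fin n))} (hK : OneSymm K) {i j : Fin n}
    (hij : i ≠ j) : ∫ x in K, x i * x j = 0 := by
  have h1 : ∫ x in K, x i * x j = ∫ x in K, -(x i * x j) := by
    have := integral_flip (K := K) i (fun x => x i * x j)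
    rw [flip_preimage hK i] at this
    rw [← this]
    apply integral_congr_ae
    filter_upwards with x
    have h2 : flip i x i = - x i := by rw [flip_apply]; simp
    have h3 : flip i x j = x j := by rw [flip_apply]; simp [hij.symm]
    show flip i x i * flip i x j = -(x i * x j)
    rw [h2, h3]; ring
  rw [integral_neg] at h1
  linarith

theorem integral_inner_sq {K : Set (EuclideanSpace ℝ (Fin n))} (hK : OneSymm K)
    (hb : Bornology.IsBounded K) (i : Fin n) (a : EuclideanSpace ℝ (Fin n)) :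
    ∫ x in K, (inner ℝ a x) ^ 2 = ‖a‖ ^ 2 * ∫ x in K, (x i) ^ 2 := by
  have hint : ∀ g : EuclideanSpace ℝ (Fin n) → ℝ, Continuous g → IntegrableOn g K := by
    intro g hg
    exact (hg.continuousOn.integrableOn_compact hb.isCompact_closure).mono_set subset_closure
  have h1 : ∀ x : EuclideanSpace ℝ (Fin n), (inner ℝ a x) ^ 2 =
      ∑ k, ∑ l, (a k * a l) * (x k * x l) := by
    intro x
    have : inner ℝ a x = ∑ k, a k * x k := by
      rw [PiLp.inner_apply]
      apply Finset.sum_congr rfl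
      intro k _
      simp [mul_comm]
    rw [this, sq, Finset.sum_mul_sum]
    apply Finset.sum_congr rfl; intro k _
    apply Finset.sum_congr rfl; intro l _
    ring
  simp_rw [h1]
  rw [integral_finsetSum _ (fun k _ => hint _ (by fun_prop))]
  have h2 : ∀ k : Fin n, ∫ x in K, ∑ l, (a k * a l) * (x k * x l) =
      (a k) ^ 2 * ∫ x in K, (x i) ^ 2 := by
    intro k
    rw [integral_finsetSum _ (fun l _ => hint _ (by fun_prop))]
    rw [Finset.sum_eq_single k]
    · rw [integral_const_mul, integral_coord_sq hK i k]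
      have : ∀ x : EuclideanSpace ℝ (Fin n), x k * x k = (x k) ^ 2 := fun x => by ring
      simp_rw [this]
    · intro l _ hl
      rw [integral_const_mul, integral_cross hK (Ne.symm hl), mul_zero]
    · intro h; exact absurd (Finset.mem_univ k) h
  rw [Finset.sum_congr rfl (fun k _ => h2 k), ← Finset.sum_mul, EuclideanSpace.real_norm_sq_eq]

theorem poincare_trunc {K : Set (EuclideanSpace ℝ (Fin n))} (hK : OneSymm K) (hc : Convex ℝ K)
    (hm : MeasurableSet K) (hb : Bornology.IsBounded K) (hv : 0 < volume.real K) (i : Fin n)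
    {s : ℝ} (hs : 0 < s) (hsq : ∫ x in K, (x i) ^ 2 ≤ s ^ 2 * volume.real K) :
    3 / 4 * volume.real K ≤ volume.real (K ∩ {x | ∑ j, |x j| ≤ 4 * s * n}) ∧
    PC (K ∩ {x | ∑ j, |x j| ≤ 4 * s * n}) (1924 * s) := by
  have hvol := trunc_vol hK hm hb i hs hsq
  refine ⟨hvol, ?_⟩
  obtain ⟨R, hR⟩ := hb.subset_closedBall (0 : EuclideanSpace ℝ (Fin n))
  set K' := K ∩ {x : EuclideanSpace ℝ (Fin n) | ∑ j, |x j| ≤ 4 * s * n} with hK'
  have hCB : CB K' R := by
    refine ⟨hc.inter (convex_l1 _), hm.inter (measurableSet_le measurable_l1 measurable_const),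
      inter_subset_left.trans hR, ?_⟩
    intro h0
    have : volume.real K' = 0 := by rw [Measure.real, h0]; rfl
    rw [this] at hvol
    linarith
  intro g hg
  have h1 := full_poincare (hK.inter_l1 _) hCB (D := 4 * s) (by positivity) (fun x hx => hx.2) g hg
  refine h1.trans ?_
  apply mul_le_mul_of_nonneg_right
  · nlinarith [sq_nonneg s]
  · exact mul_nonneg measureReal_nonneg (integral_nonneg fun x => by positivity)

theorem main_one_symm {n : ℕ} {Ω E : Set (EuclideanSpace ℝ (Fin (n + 1)))} (hΩo : IsOpen Ω)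
    (hΩc : Convex ℝ Ω) (hΩb : Bornology.IsBounded Ω) (hK : OneSymm Ω)
    (hE : MeasurableSet E) (hEΩ : E ⊆ Ω) (hEv : volume E = volume Ω / 2)
    (a : EuclideanSpace ℝ (Fin (n + 1))) (ha : a ≠ 0) :
    μH[((n + 1 : ℕ) : ℝ) - 1] {x | x ∈ Ω ∧ inner ℝ a x = (0:ℝ)} ≤
      ENNReal.ofReal 16000000 * μH[((n + 1 : ℕ) : ℝ) - 1] (Ω ∩ frontier E) := by
  apply hausdorff_of_euclidean
  rcases Ω.eq_empty_or_nonempty with he | hne
  · have : {x : EuclideanSpace ℝ (Fin (n + 1)) | x ∈ Ω ∧ inner ℝ a x = (0:ℝ)} = ∅ := by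
      ext x; simp [he]
    rw [this, measure_empty]; exact bot_le
  have hvt : volume Ω ≠ ⊤ := hΩb.measure_lt_top.ne
  have hv0 : volume Ω ≠ 0 := (hΩo.measure_pos volume hne).ne'
  have hV : 0 < volume.real Ω := ENNReal.toReal_pos hv0 hvt
  have hsymm : ∀ x ∈ Ω, -x ∈ Ω := fun x hx => hK.sign x (-x) hx (fun j => by simp)
  have hanorm : 0 < ‖a‖ := norm_pos_iff.mpr ha
  -- second moment
  set I := ∫ x in Ω, (x (0 : Fin (n + 1))) ^ 2 with hI
  have hI0 : 0 < I := by
    have hint : IntegrableOn (fun x : EuclideanSpace ℝ (Fin (n + 1)) => (x 0) ^ 2) Ω := by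
      have hcn : Continuous (fun x : EuclideanSpace ℝ (Fin (n + 1)) => (x 0) ^ 2) := by fun_prop
      exact (hcn.continuousOn.integrableOn_compact hΩb.isCompact_closure).mono_set subset_closure
    rw [hI, setIntegral_pos_iff_support_of_nonneg_ae
      (Eventually.of_forall fun x => sq_nonneg _) hint]
    have hU : IsOpen ({x : EuclideanSpace ℝ (Fin (n + 1)) | x 0 ≠ 0} ∩ Ω) := by
      apply IsOpen.inter _ hΩo
      have : Continuous (fun x : EuclideanSpace ℝ (Fin (n + 1)) => x 0) := by fun_prop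
      exact isOpen_ne_fun this continuous_const
    have hsup : Function.support (fun x : EuclideanSpace ℝ (Fin (n + 1)) => (x 0) ^ 2) =
        {x | x 0 ≠ 0} := by
      ext x; simp
    rw [hsup]
    apply hU.measure_pos volume
    -- a point of Ω off the hyperplane
    have h0 : (0 : EuclideanSpace ℝ (Fin (n + 1))) ∈ Ω := by
      obtain ⟨x0, hx0⟩ := hne
      have := hΩc hx0 (hsymm x0 hx0) (by norm_num : (0:ℝ) ≤ 1 / 2) (by norm_num : (0:ℝ) ≤ 1 / 2)
        (by norm_num)
      simpa using this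
    obtain ⟨r, hr, hball⟩ := Metric.isOpen_iff.mp hΩo 0 h0
    refine ⟨EuclideanSpace.single 0 (r / 2), ?_, hball ?_⟩
    · show (EuclideanSpace.single (0 : Fin (n + 1)) (r / 2) : EuclideanSpace ℝ (Fin (n + 1))) 0 ≠ 0
      simp
      linarith
    · rw [mem_ball_zero_iff]
      simp [abs_of_pos hr]
      linarith
  set s := Real.sqrt (I / volume.real Ω) with hs
  have hs2 : s ^ 2 = I / volume.real Ω := Real.sq_sqrt (by positivity)
  have hs0 : 0 < s := Real.sqrt_pos.mpr (by positivity)
  have hsq : I = s ^ 2 * volume.real Ω := by rw [hs2]; field_simp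
  obtain ⟨hvol, hPC⟩ := poincare_trunc hK hΩc hΩo.measurableSet hΩb hV 0 hs0 hsq.le
  set u := (‖a‖)⁻¹ • a with hu
  have hu1 : ‖u‖ = 1 := by
    rw [hu, norm_smul, norm_inv, norm_norm, inv_mul_cancel₀ hanorm.ne']
  have hset : {x : EuclideanSpace ℝ (Fin (n + 1)) | x ∈ Ω ∧ inner ℝ a x = (0:ℝ)} =
      {x ∈ Ω | inner ℝ u x = 0} := by
    ext x
    simp only [mem_ofPred_eq, hu, inner_smul_left]
    simp [hanorm.ne']
  rw [hset]
  have hEvr : volume.real E = volume.real Ω / 2 := by
    rw [Measure.real, hEv, ENNReal.toReal_div]; rfl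
  have := assemble (Λ := 1924 * s) (c := 1924) hΩo hΩc hΩb hsymm hne (inter_subset_left)
    (hΩc.inter (convex_l1 _))
    (hΩo.measurableSet.inter (measurableSet_le measurable_l1 measurable_const)) (by positivity)
    (by norm_num) hvol hPC hE hEΩ hEvr u hu1 (by
      rw [integral_inner_sq hK hΩb 0 u, hu1, ← hI, hsq]
      apply le_of_eq; ring)
  refine this.trans ?_
  gcongr
  norm_num

end Pool.Agent.H18.KLS
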