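import Pool.Agent.H18.KLS.Perm

set_option autoImplicit false

open MeasureTheory Measure Set Filter Topology
open scoped ENNReal NNReal Real Pointwise

namespace Pool.Agent.H18.KLS

open Pool.Agent.H84 Pool.H97.KLSG

variable {n : ℕ}

/-- the truncated body -/
def trunc (Ω : Set (EuclideanSpace ℝ (Fin n))) (t : ℝ) : Set (EuclideanSpace ℝ (Fin n)) :=
  (Ω ∩ {x | ∑ j, |x j| < t * n}) ∩ {x | |inner ℝ (e0 n) x| < t}

theorem trunc_perm {Ω : Set (EuclideanSpace ℝ (Fin n))} (hK : PermInv Ω) (t : ℝ) :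
    PermInv (trunc Ω t) := by
  rintro σ x y ⟨⟨hx, hx2⟩, hx3⟩ hy
  have hyx : y = pm σ x := by ext j; rw [hy j, pm_apply]
  refine ⟨⟨hK σ x y hx hy, ?_⟩, ?_⟩
  · show ∑ j, |y j| < t * n
    have : ∑ j, |y j| = ∑ j, |x j| := by
      rw [Finset.sum_congr rfl (fun j _ => by rw [hy j])]
      exact Equiv.sum_comp σ (fun j => |x j|)
    rw [this]; exact hx2
  · show |inner ℝ (e0 n) y| < t
    rw [hyx, inner_e0_pm]; exact hx3

theorem trunc_open {Ω : Set (EuclideanSpace ℝ (Fin n))} (ho : IsOpen Ω) (t : ℝ) :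
    IsOpen (trunc Ω t) := by
  unfold trunc
  refine (ho.inter ?_).inter ?_
  · exact isOpen_lt (by fun_prop) continuous_const
  · exact isOpen_lt (by fun_prop) continuous_const

theorem trunc_convex {Ω : Set (EuclideanSpace ℝ (Fin n))} (hc : Convex ℝ Ω) (t : ℝ) :
    Convex ℝ (trunc Ω t) := by
  unfold trunc
  refine (hc.inter ?_).inter ?_
  · have h : ConvexOn ℝ univ (fun x : EuclideanSpace ℝ (Fin n) => ∑ j, |x j|) := by
      refine ⟨convex_univ, ?_⟩
      intro x _ y _ a b ha hb _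
      simp only [PiLp.add_apply, PiLp.smul_apply, smul_eq_mul]
      rw [Finset.mul_sum, Finset.mul_sum, ← Finset.sum_add_distrib]
      apply Finset.sum_le_sum
      intro j _
      calc |a * x j + b * y j| ≤ |a * x j| + |b * y j| := abs_add_le _ _
        _ = a * |x j| + b * |y j| := by rw [abs_mul, abs_mul, abs_of_nonneg ha, abs_of_nonneg hb]
    have := h.convex_lt (t * n)
    simpa using this
  · have h : ConvexOn ℝ univ (fun x : EuclideanSpace ℝ (Fin n) => |inner ℝ (e0 n) x|) := by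
      refine ⟨convex_univ, ?_⟩
      intro x _ y _ a b ha hb _
      simp only [inner_add_right, inner_smul_right, smul_eq_mul]
      calc |a * inner ℝ (e0 n) x + b * inner ℝ (e0 n) y| ≤
          |a * inner ℝ (e0 n) x| + |b * inner ℝ (e0 n) y| := abs_add_le _ _
        _ = a * |inner ℝ (e0 n) x| + b * |inner ℝ (e0 n) y| := by
            rw [abs_mul, abs_mul, abs_of_nonneg ha, abs_of_nonneg hb]
    have := h.convex_lt t
    simpa using this

theorem norm_e0 (hn : 0 < n) : ‖e0 n‖ = 1 := by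
  have hn' : (0:ℝ) < n := by exact_mod_cast hn
  rw [EuclideanSpace.norm_eq]
  have : ∀ i : Fin n, ‖e0 n i‖ ^ 2 = 1 / n := by
    intro i
    simp only [e0, Real.norm_eq_abs, sq_abs, div_pow, one_pow, Real.sq_sqrt hn'.le]
  rw [Finset.sum_congr rfl (fun i _ => this i), Finset.sum_const, Finset.card_univ,
    Fintype.card_fin, nsmul_eq_mul, mul_one_div_cancel hn'.ne', Real.sqrt_one]

theorem trunc_vol2 {Ω : Set (EuclideanSpace ℝ (Fin n))} (ho : IsOpen Ω)
    (hb : Bornology.IsBounded Ω) (hn : 0 < n) {s : ℝ} (hs : 0 < s)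
    (hsv : ∀ v : EuclideanSpace ℝ (Fin n),
      ∫ x in Ω, (inner ℝ v x) ^ 2 ≤ s ^ 2 * ‖v‖ ^ 2 * volume.real Ω) :
    3 / 4 * volume.real Ω ≤ volume.real (trunc Ω (8 * s)) := by
  have hn' : (0:ℝ) < n := by exact_mod_cast hn
  have hm : MeasurableSet Ω := ho.measurableSet
  set V := volume.real Ω with hV
  have hV0 : 0 ≤ V := measureReal_nonneg
  have h1 : ∀ j : Fin n, ∫ x in Ω, |x j| ≤ s * V := by
    intro j
    apply int_abs_le hb (g := fun x : EuclideanSpace ℝ (Fin n) => x j) (by fun_prop) hs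
    have h3 := hsv (EuclideanSpace.single j 1)
    have e : ∀ x : EuclideanSpace ℝ (Fin n), inner ℝ (EuclideanSpace.single j (1:ℝ)) x = x j := by
      intro x
      rw [EuclideanSpace.inner_single_left]
      simp
    simp_rw [e] at h3
    simpa using h3
  have hsum : ∫ x in Ω, ∑ j, |x j| ≤ n * (s * V) := by
    rw [integral_finsetSum _ (fun j _ => integrableOn_of_cont hb (by fun_prop))]
    calc ∑ j : Fin n, ∫ x in Ω, |x j| ≤ ∑ j : Fin n, s * V := Finset.sum_le_sum (fun j _ => h1 j)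
      _ = n * (s * V) := by
          rw [Finset.sum_const, Finset.card_univ, Fintype.card_fin, nsmul_eq_mul]
  have h2 : ∫ x in Ω, |inner ℝ (e0 n) x| ≤ s * V := by
    apply int_abs_le hb (g := fun x : EuclideanSpace ℝ (Fin n) => inner ℝ (e0 n) x)
      (by fun_prop) hs
    have := hsv (e0 n)
    rw [norm_e0 hn] at this
    simpa using this
  have m1 := markov_real hm hb (g := fun x : EuclideanSpace ℝ (Fin n) => ∑ j, |x j|)
    (by fun_prop) (fun x => Finset.sum_nonneg (fun j _ => abs_nonneg _)) (8 * s * n)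
  have m2 := markov_real hm hb (g := fun x : EuclideanSpace ℝ (Fin n) => |inner ℝ (e0 n) x|)
    (by fun_prop) (fun x => abs_nonneg _) (8 * s)
  set A1 : Set (EuclideanSpace ℝ (Fin n)) := {x | 8 * s * n ≤ ∑ j, |x j|} with hA1
  set A2 : Set (EuclideanSpace ℝ (Fin n)) := {x | 8 * s ≤ |inner ℝ (e0 n) x|} with hA2
  have k1 : volume.real (Ω ∩ A1) ≤ V / 8 := by
    have : (8 * s * n) * volume.real (Ω ∩ A1) ≤ (8 * s * n) * (V / 8) := by
      calc _ ≤ _ := m1
        _ ≤ _ := hsum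
        _ = _ := by ring
    exact le_of_mul_le_mul_left this (by positivity)
  have k2 : volume.real (Ω ∩ A2) ≤ V / 8 := by
    have : (8 * s) * volume.real (Ω ∩ A2) ≤ (8 * s) * (V / 8) := by
      calc _ ≤ _ := m2
        _ ≤ _ := h2
        _ = _ := by ring
    exact le_of_mul_le_mul_left this (by positivity)
  have hfin : volume Ω < ⊤ := hb.measure_lt_top
  have hcov : Ω ⊆ trunc Ω (8 * s) ∪ ((Ω ∩ A1) ∪ (Ω ∩ A2)) := by
    intro x hx
    by_cases h3 : ∑ j, |x j| < 8 * s * n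
    · by_cases h4 : |inner ℝ (e0 n) x| < 8 * s
      · exact Or.inl ⟨⟨hx, h3⟩, h4⟩
      · exact Or.inr (Or.inr ⟨hx, not_lt.mp h4⟩)
    · exact Or.inr (Or.inl ⟨hx, not_lt.mp h3⟩)
  have hsub : trunc Ω (8 * s) ⊆ Ω := fun x hx => hx.1.1
  have hle : V ≤ volume.real (trunc Ω (8 * s)) + (volume.real (Ω ∩ A1) + volume.real (Ω ∩ A2)) := by
    have hnt : volume (trunc Ω (8 * s) ∪ ((Ω ∩ A1) ∪ (Ω ∩ A2))) ≠ ⊤ := by
      apply ne_top_of_le_ne_top hfin.ne
      apply measure_mono
      exact union_subset hsub (union_subset inter_subset_left inter_subset_left)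
    calc V ≤ volume.real (trunc Ω (8 * s) ∪ ((Ω ∩ A1) ∪ (Ω ∩ A2))) :=
          measureReal_mono hcov hnt
      _ ≤ volume.real (trunc Ω (8 * s)) + volume.real ((Ω ∩ A1) ∪ (Ω ∩ A2)) :=
          measureReal_union_le _ _
      _ ≤ _ := by
          have := measureReal_union_le (μ := volume) (Ω ∩ A1) (Ω ∩ A2)
          linarith
  linarith

theorem poincare_trunc2 {Ω : Set (EuclideanSpace ℝ (Fin n))} (hK : PermInv Ω) (ho : IsOpen Ω)
    (hc : Convex ℝ Ω) (hb : Bornology.IsBounded Ω) (hn : 0 < n) {s : ℝ} (hs : 0 < s)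
    (hpos : 0 < volume.real (trunc Ω (8 * s))) : PC (trunc Ω (8 * s)) (352048000 * s) := by
  set t := 8 * s with ht
  have ht0 : 0 < t := by positivity
  set K : Set (EuclideanSpace ℝ (Fin n)) := t⁻¹ • trunc Ω t with hKdef
  have hKe : t • K = trunc Ω t := by rw [hKdef, smul_inv_smul₀ ht0.ne']
  have hmem : ∀ y, y ∈ K ↔ t • y ∈ trunc Ω t := by
    intro y; rw [hKdef, mem_inv_smul_set_iff₀ ht0.ne']
  have hKo : IsOpen K := (trunc_open ho t).smul₀ (inv_ne_zero ht0.ne')
  have hKc : Convex ℝ K := (trunc_convex hc t).smul _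
  have hKp : PermInv K := by
    intro σ x y hx hy
    rw [hmem] at hx ⊢
    exact trunc_perm hK t σ (t • x) (t • y) hx (fun j => by simp [hy j])
  obtain ⟨R, hR⟩ := hb.subset_closedBall (0 : EuclideanSpace ℝ (Fin n))
  have hCB : CB K (R / t) := by
    refine ⟨hKc, hKo.measurableSet, ?_, ?_⟩
    · intro y hy
      rw [hmem] at hy
      have h1 := hR hy.1.1
      rw [mem_closedBall_zero_iff, norm_smul, Real.norm_of_nonneg ht0.le] at h1
      rw [mem_closedBall_zero_iff, le_div_iff₀ ht0]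
      linarith
    · intro h0
      have h1 : volume.real (t • K) = 0 := by
        rw [volume_real_smul K ht0, Measure.real, h0]; simp
      rw [hKe] at h1
      linarith
  have hPC : PC K 44006000 := by
    apply perm_poincare hKp hKo hCB _ hn
    · intro y hy
      rw [hmem] at hy
      have h1 := hy.2
      have h2 : |inner ℝ (e0 n) (t • y)| < t := h1
      rw [inner_smul_right, abs_mul, abs_of_pos ht0] at h2
      have h3 : |inner ℝ (e0 n) y| < 1 := by
        by_contra hcon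
        push Not at hcon
        nlinarith
      rw [qf_a0]
      nlinarith [sq_abs (inner ℝ (e0 n) y), abs_nonneg (inner ℝ (e0 n) y)]
    · intro y hy
      rw [hmem] at hy
      have h1 : ∑ j, |(t • y) j| < t * n := hy.1.2
      have h2 : ∑ j, |(t • y) j| = t * ∑ j, |y j| := by
        rw [Finset.mul_sum]
        apply Finset.sum_congr rfl; intro j _
        rw [PiLp.smul_apply, smul_eq_mul, abs_mul, abs_of_pos ht0]
      rw [h2] at h1
      exact (lt_of_mul_lt_mul_left h1 ht0.le).le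
  have h := hPC.smul ht0
  rw [hKe] at h
  have e : t * 44006000 = 352048000 * s := by rw [ht]; ring
  rwa [e] at h

theorem main_perm {n : ℕ} {Ω E : Set (EuclideanSpace ℝ (Fin (n + 1)))} (hΩo : IsOpen Ω)
    (hΩc : Convex ℝ Ω) (hΩb : Bornology.IsBounded Ω) (hsymm : ∀ x ∈ Ω, -x ∈ Ω)
    (hne : Ω.Nonempty) (hK : PermInv Ω)
    (hE : MeasurableSet E) (hEΩ : E ⊆ Ω) (hEv : volume E = volume Ω / 2)
    (a : EuclideanSpace ℝ (Fin (n + 1))) (ha : a ≠ 0)
    (hmax : ∀ b, ‖a‖ ^ 2 * ∫ x in Ω, (inner ℝ b x) ^ 2 ≤ ‖b‖ ^ 2 * ∫ x in Ω, (inner ℝ a x) ^ 2) :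
    μH[((n + 1 : ℕ) : ℝ) - 1] {x | x ∈ Ω ∧ inner ℝ a x = (0:ℝ)} ≤
      ENNReal.ofReal 2900000000000 * μH[((n + 1 : ℕ) : ℝ) - 1] (Ω ∩ frontier E) := by
  apply hausdorff_of_euclidean
  have hvt : volume Ω ≠ ⊤ := hΩb.measure_lt_top.ne
  have hv0 : volume Ω ≠ 0 := (hΩo.measure_pos volume hne).ne'
  have hV : 0 < volume.real Ω := ENNReal.toReal_pos hv0 hvt
  have hanorm : 0 < ‖a‖ := norm_pos_iff.mpr ha
  have h0 : (0 : EuclideanSpace ℝ (Fin (n + 1))) ∈ Ω := by
    obtain ⟨x0, hx0⟩ := hne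
    have := hΩc hx0 (hsymm x0 hx0) (by norm_num : (0:ℝ) ≤ 1 / 2) (by norm_num : (0:ℝ) ≤ 1 / 2)
      (by norm_num)
    simpa using this
  obtain ⟨a', ha', s, hs, hsa', hsv⟩ := exists_max_dir hΩo h0 hΩb
  set u := (‖a‖)⁻¹ • a with hu
  have hu1 : ‖u‖ = 1 := by
    rw [hu, norm_smul, norm_inv, norm_norm, inv_mul_cancel₀ hanorm.ne']
  have hIu : s ^ 2 * volume.real Ω ≤ ∫ x in Ω, (inner ℝ u x) ^ 2 := by
    have h1 := hmax a'
    rw [hsa', ha', one_pow, one_mul] at h1
    have h2 : ∫ x in Ω, (inner ℝ u x) ^ 2 = (‖a‖⁻¹) ^ 2 * ∫ x in Ω, (inner ℝ a x) ^ 2 := by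
      rw [← integral_const_mul]
      apply integral_congr_ae
      filter_upwards with x
      show (inner ℝ u x) ^ 2 = (‖a‖⁻¹) ^ 2 * (inner ℝ a x) ^ 2
      rw [hu, real_inner_smul_left, mul_pow]
    rw [h2, inv_pow, inv_mul_eq_div, le_div_iff₀ (by positivity)]
    linarith
  have hset : {x : EuclideanSpace ℝ (Fin (n + 1)) | x ∈ Ω ∧ inner ℝ a x = (0:ℝ)} =
      {x ∈ Ω | inner ℝ u x = 0} := by
    ext x
    simp only [mem_ofPred_eq, hu, inner_smul_left]
    simp [hanorm.ne']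
  rw [hset]
  have hEvr : volume.real E = volume.real Ω / 2 := by
    rw [Measure.real, hEv, ENNReal.toReal_div]; rfl
  have hvol := trunc_vol2 hΩo hΩb (Nat.succ_pos n) hs hsv
  have hpos : 0 < volume.real (trunc Ω (8 * s)) := by linarith
  have hPC := poincare_trunc2 hK hΩo hΩc hΩb (Nat.succ_pos n) hs hpos
  have := assemble (Λ := 352048000 * s) (c := 352048000) hΩo hΩc hΩb hsymm hne
    (fun x hx => hx.1.1) (trunc_convex hΩc _) (trunc_open hΩo _).measurableSet (by positivity)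
    (by norm_num) hvol hPC hE hEΩ hEvr u hu1 (by
      calc (352048000 * s) ^ 2 * volume.real Ω = 352048000 ^ 2 * (s ^ 2 * volume.real Ω) := by ring
        _ ≤ _ := mul_le_mul_of_nonneg_left hIu (by positivity))
  refine this.trans ?_
  gcongr
  norm_num

end Pool.Agent.H18.KLS
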