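import Pool.Agent.H18.KLS.NonInv
import Pool.Agent.H97.KlsWBochner2
import Pool.Agent.H97.KlsRepMain

set_option autoImplicit false

open MeasureTheory Set Filter Topology

namespace Pool.Agent.H18.KLS

open Pool.Agent.H84 Pool.H97.KLSG

variable {n : ℕ}

/-- the unit vector in the fixed direction -/
noncomputable def e0 (n : ℕ) : EuclideanSpace ℝ (Fin n) :=
  WithLp.toLp 2 (fun _ => 1 / Real.sqrt n)

theorem inner_e0 (x : EuclideanSpace ℝ (Fin n)) :
    inner ℝ (e0 n) x = 1 / Real.sqrt n * ∑ k, x k := by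
  rw [PiLp.inner_apply, Finset.mul_sum]
  apply Finset.sum_congr rfl
  intro k _
  simp [e0, mul_comm]

theorem inner_e0_pm (σ : Equiv.Perm (Fin n)) (x : EuclideanSpace ℝ (Fin n)) :
    inner ℝ (e0 n) (pm σ x) = inner ℝ (e0 n) x := by
  rw [inner_e0, inner_e0]
  congr 1
  rw [Finset.sum_congr rfl (fun k _ => pm_apply σ x k)]
  exact Equiv.sum_comp σ (fun k => x k)

/-- the family with the single fixed vector -/
noncomputable def a0 (n : ℕ) : Fin 1 → EuclideanSpace ℝ (Fin n) := fun _ => e0 n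

theorem qf_a0 (x : EuclideanSpace ℝ (Fin n)) : qf (a0 n) x = (inner ℝ (e0 n) x) ^ 2 := by
  simp [qf, a0]

theorem qf_a0_pm (σ : Equiv.Perm (Fin n)) (x : EuclideanSpace ℝ (Fin n)) :
    qf (a0 n) (pm σ x) = qf (a0 n) x := by
  rw [qf_a0, qf_a0, inner_e0_pm]

theorem contDiff_wt : ContDiff ℝ 1 (wt (a0 n)) := by
  have : wt (a0 n) = fun x => Real.exp (-((inner ℝ (e0 n) x) ^ 2) / 2) := by
    funext x; unfold wt; rw [qf_a0]
  rw [this]
  exact (((contDiff_const.inner ℝ contDiff_id).pow 2).neg.div_const 2).exp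

theorem fderiv_wt_ee (i j : Fin n) (x : EuclideanSpace ℝ (Fin n)) :
    fderiv ℝ (wt (a0 n)) x (ee i j) = 0 := by
  have hd : HasDerivAt (fun τ : ℝ => x + τ • ee i j) (ee i j) 0 := by
    have := ((hasDerivAt_id (0:ℝ)).smul_const (ee i j)).const_add x
    simpa using this
  have hd2 : HasFDerivAt (wt (a0 n)) (fderiv ℝ (wt (a0 n)) x) (x + (0:ℝ) • ee i j) := by
    simpa using ((contDiff_wt.differentiable (by norm_num)) x).hasFDerivAt
  have hd3 := hd2.comp_hasDerivAt (0:ℝ) hd
  have h0 : inner ℝ (e0 n) (ee i j) = 0 := by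
    rw [inner_e0]
    have : ∑ k, (ee i j) k = 0 := by
      simp [ee, Finset.sum_sub_distrib]
    rw [this, mul_zero]
  have e : (wt (a0 n) ∘ fun τ : ℝ => x + τ • ee i j) = fun _ => wt (a0 n) x := by
    funext τ
    show wt (a0 n) (x + τ • ee i j) = wt (a0 n) x
    unfold wt
    rw [qf_a0, qf_a0, inner_add_right, inner_smul_right, h0, mul_zero, add_zero]
  rw [e] at hd3
  exact hd3.unique (hasDerivAt_const _ _)

theorem norm_sq_fderiv (L : EuclideanSpace ℝ (Fin n) →L[ℝ] ℝ) :
    ‖L‖ ^ 2 = ∑ k, (L (EuclideanSpace.single k 1)) ^ 2 := by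
  rw [norm_sq_dual (EuclideanSpace.basisFun (Fin n) ℝ)]
  apply Finset.sum_congr rfl
  intro k _
  rw [EuclideanSpace.basisFun_apply]

theorem sum_diff_sq (y : Fin n → ℝ) :
    ∑ i, ∑ j, (y i - y j) ^ 2 = 2 * n * (∑ k, y k ^ 2) - 2 * (∑ k, y k) ^ 2 := by
  have h1 : ∀ i, ∑ j, (y i - y j) ^ 2 = n * y i ^ 2 - 2 * y i * (∑ j, y j) + ∑ j, y j ^ 2 := by
    intro i
    have : ∀ j ∈ (Finset.univ : Finset (Fin n)), (y i - y j) ^ 2 =
        y i ^ 2 - 2 * y i * y j + y j ^ 2 := fun j _ => by ring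
    rw [Finset.sum_congr rfl this, Finset.sum_add_distrib, Finset.sum_sub_distrib,
      Finset.sum_const, Finset.card_univ, Fintype.card_fin, nsmul_eq_mul, ← Finset.mul_sum]
  rw [Finset.sum_congr rfl (fun i _ => h1 i), Finset.sum_add_distrib, Finset.sum_sub_distrib,
    ← Finset.mul_sum, Finset.sum_const, Finset.card_univ, Fintype.card_fin, nsmul_eq_mul,
    ← Finset.sum_mul, ← Finset.mul_sum]
  ring

theorem inv_poincare {K : Set (EuclideanSpace ℝ (Fin n))} (hK : PermInv K) (ho : IsOpen K)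
    {R : ℝ} (hCB : CB K R) (hl : ∀ x ∈ K, ∑ k, |x k| ≤ (n:ℝ)) (hn : 0 < n)
    (hq : ∀ x ∈ K, qf (a0 n) x ≤ 1)
    (f : EuclideanSpace ℝ (Fin n) → ℝ) (hf : ContDiff ℝ 1 f)
    (hinv : ∀ (σ : Equiv.Perm (Fin n)) x, f (pm σ x) = f x) :
    volume.real K * (∫ x in K, f x ^ 2) - (∫ x in K, f x) ^ 2
      ≤ 1106560000000000 * (volume.real K * ∫ x in K, ‖fderiv ℝ f x‖ ^ 2) := by
  have hn' : (0:ℝ) < n := by exact_mod_cast hn
  have hb : Bornology.IsBounded K := Metric.isBounded_closedBall.subset hCB.sub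
  have hwc : Continuous (wt (a0 n)) := contDiff_wt.continuous
  have key := weighted_bochner_int hCB (EuclideanSpace.basisFun (Fin n) ℝ) (a0 n)
    (fun ψ => ∀ (σ : Equiv.Perm (Fin n)) x, ψ (pm σ x) = ψ x) (κ := 1 / 276640000000000) (ℓ := 1)
    (by norm_num) (by norm_num)
    (fun δ hδ τ hτ ψ _ hψ σ x => QW_invariant ho.measurableSet hδ hτ (pm σ) (pm_preimage hK σ)
      (qf_a0_pm σ) ψ (hψ σ) x)
    (fun u hu hup hui => ?_) f hf hinv
  · have h1 := Pool.H97.KLSR.unweight hCB (a0 n) hq (Θ := 553280000000000) (by norm_num) hf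
      (by
        refine key.trans (le_of_eq ?_)
        norm_num)
    refine h1.trans (le_of_eq ?_)
    norm_num
  · -- the second order estimate
    have hud : Differentiable ℝ u := hu.differentiable (by norm_num)
    set d : Fin n → EuclideanSpace ℝ (Fin n) → ℝ :=
      fun k x => fderiv ℝ u x (EuclideanSpace.single k 1) with hd
    have hdc : ∀ k, ContDiff ℝ 1 (d k) := fun k => hup _
    set A : ℝ := ∫ x in K, (∑ k, d k x ^ 2) * wt (a0 n) x with hA
    set S : Fin n → ℝ := fun k => ∫ x in K, ‖fderiv ℝ (d k) x‖ ^ 2 * wt (a0 n) x with hS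
    have hS0 : ∀ k, 0 ≤ S k := fun k => integral_nonneg (fun x =>
      mul_nonneg (sq_nonneg _) (wt_pos _ _).le)
    have cS : ∀ k, Continuous (fun x => ‖fderiv ℝ (d k) x‖ ^ 2 * wt (a0 n) x) := fun k =>
      (((hdc k).continuous_fderiv (by norm_num)).norm.pow 2).mul hwc
    have hpair : ∀ i j : Fin n, ∫ x in K, wt (a0 n) x * (d i x - d j x) ^ 2 ≤
        69160000000000 * (4 * S i + 4 * S j) := by
      intro i j
      by_cases hij : i = j
      · subst hij
        have : ∀ x, wt (a0 n) x * (d i x - d i x) ^ 2 = 0 := fun x => by ring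
        simp_rw [this]
        rw [integral_zero]
        have := hS0 i
        positivity
      set h : EuclideanSpace ℝ (Fin n) → ℝ := fun x => d i x - d j x with hh
      have hhc : ContDiff ℝ 1 h := (hdc i).sub (hdc j)
      have h0 : ∀ x : EuclideanSpace ℝ (Fin n), x i = x j → h x = 0 := by
        intro x hx
        set s := pm (Equiv.swap i j) with hs
        have hsx : s x = x := by
          ext k
          rw [hs, pm_apply]
          rcases eq_or_ne k i with h1 | h1
          · subst h1; rw [Equiv.swap_apply_left]; exact hx.symm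
          · rcases eq_or_ne k j with h2 | h2
            · subst h2; rw [Equiv.swap_apply_right]; exact hx
            · rw [Equiv.swap_apply_of_ne_of_ne h1 h2]
        have hus : (fun y => u (s y)) = u := funext (hui (Equiv.swap i j))
        have h1 := fderiv_comp_iso s hud x (EuclideanSpace.single i 1)
        rw [hus, hsx, hs, pm_single, Equiv.symm_swap, Equiv.swap_apply_left] at h1
        simp only [hh, hd]
        rw [h1]; ring
      have h1 := full_transp hK hCB.conv ho hb hl hij (W := wt (a0 n)) contDiff_wt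
        (fun x => (wt_pos _ x).le) fderiv_wt_ee hhc h0
      refine h1.trans ?_
      apply mul_le_mul_of_nonneg_left _ (by norm_num)
      have hder : ∀ x, fderiv ℝ h x = fderiv ℝ (d i) x - fderiv ℝ (d j) x := fun x =>
        fderiv_fun_sub ((hdc i).differentiable (by norm_num) x)
          ((hdc j).differentiable (by norm_num) x)
      have hpt : ∀ x, wt (a0 n) x * ((fderiv ℝ h x (EuclideanSpace.single i 1)) ^ 2 +
          (fderiv ℝ h x (EuclideanSpace.single j 1)) ^ 2 +
          1 / n * ∑ k, (fderiv ℝ h x (EuclideanSpace.single k 1)) ^ 2) ≤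
          4 * (‖fderiv ℝ (d i) x‖ ^ 2 * wt (a0 n) x) + 4 * (‖fderiv ℝ (d j) x‖ ^ 2 * wt (a0 n) x) := by
        intro x
        have hw := (wt_pos (a0 n) x).le
        have g1 : ∑ k, (fderiv ℝ h x (EuclideanSpace.single k 1)) ^ 2 = ‖fderiv ℝ h x‖ ^ 2 :=
          (norm_sq_fderiv _).symm
        have g2 : (fderiv ℝ h x (EuclideanSpace.single i 1)) ^ 2 +
            (fderiv ℝ h x (EuclideanSpace.single j 1)) ^ 2 ≤ ‖fderiv ℝ h x‖ ^ 2 := by
          rw [← g1]
          calc (fderiv ℝ h x (EuclideanSpace.single i 1)) ^ 2 +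
              (fderiv ℝ h x (EuclideanSpace.single j 1)) ^ 2 =
              ∑ k ∈ {i, j}, (fderiv ℝ h x (EuclideanSpace.single k 1)) ^ 2 := by
                rw [Finset.sum_pair hij]
            _ ≤ _ := Finset.sum_le_sum_of_subset_of_nonneg (Finset.subset_univ _)
                (fun k _ _ => sq_nonneg _)
        have g3 : 1 / (n:ℝ) * ‖fderiv ℝ h x‖ ^ 2 ≤ ‖fderiv ℝ h x‖ ^ 2 := by
          have : 1 / (n:ℝ) ≤ 1 := by
            rw [div_le_one hn']; exact_mod_cast hn
          calc _ ≤ 1 * ‖fderiv ℝ h x‖ ^ 2 := mul_le_mul_of_nonneg_right this (sq_nonneg _)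
            _ = _ := one_mul _
        have g4 : ‖fderiv ℝ h x‖ ^ 2 ≤ 2 * ‖fderiv ℝ (d i) x‖ ^ 2 + 2 * ‖fderiv ℝ (d j) x‖ ^ 2 := by
          rw [hder]
          have := norm_sub_le (fderiv ℝ (d i) x) (fderiv ℝ (d j) x)
          have h3 := pow_le_pow_left₀ (norm_nonneg _) this 2
          nlinarith [sq_nonneg (‖fderiv ℝ (d i) x‖ - ‖fderiv ℝ (d j) x‖)]
        rw [g1]
        have g5 : (fderiv ℝ h x (EuclideanSpace.single i 1)) ^ 2 +
            (fderiv ℝ h x (EuclideanSpace.single j 1)) ^ 2 + 1 / n * ‖fderiv ℝ h x‖ ^ 2 ≤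
            4 * ‖fderiv ℝ (d i) x‖ ^ 2 + 4 * ‖fderiv ℝ (d j) x‖ ^ 2 := by linarith
        calc _ ≤ wt (a0 n) x * (4 * ‖fderiv ℝ (d i) x‖ ^ 2 + 4 * ‖fderiv ℝ (d j) x‖ ^ 2) :=
              mul_le_mul_of_nonneg_left g5 hw
          _ = _ := by ring
      have cL : Continuous (fun x => wt (a0 n) x * ((fderiv ℝ h x (EuclideanSpace.single i 1)) ^ 2 +
          (fderiv ℝ h x (EuclideanSpace.single j 1)) ^ 2 +
          1 / n * ∑ k, (fderiv ℝ h x (EuclideanSpace.single k 1)) ^ 2)) := by
        have hhdc : Continuous (fun x => fderiv ℝ h x) := hhc.continuous_fderiv (by norm_num)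
        have ch : ∀ k : Fin n, Continuous (fun x =>
            (fderiv ℝ h x (EuclideanSpace.single k 1)) ^ 2) := by
          intro k; fun_prop
        exact hwc.mul (((ch i).add (ch j)).add
          ((continuous_finsetSum _ (fun k _ => ch k)).const_mul _))
      have iS : ∀ k, IntegrableOn (fun x => 4 * (‖fderiv ℝ (d k) x‖ ^ 2 * wt (a0 n) x)) K :=
        fun k => (integrableOn_of_cont hb (cS k)).const_mul 4
      calc _ ≤ ∫ x in K, (4 * (‖fderiv ℝ (d i) x‖ ^ 2 * wt (a0 n) x) +
            4 * (‖fderiv ℝ (d j) x‖ ^ 2 * wt (a0 n) x)) :=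
            setIntegral_mono (integrableOn_of_cont hb cL) ((iS i).add (iS j)) hpt
        _ = 4 * S i + 4 * S j := by
            rw [integral_add (iS i) (iS j), integral_const_mul, integral_const_mul]
    -- summation over the pairs
    have cd : ∀ i, Continuous (d i) := fun i => (hdc i).continuous
    have hsumpair : ∑ i, ∑ j, ∫ x in K, wt (a0 n) x * (d i x - d j x) ^ 2 =
        2 * n * ((∫ x in K, ‖fderiv ℝ u x‖ ^ 2 * wt (a0 n) x)
          - 1 * ∫ x in K, (∑ k, (fderiv ℝ u x (a0 n k)) ^ 2) * wt (a0 n) x) := by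
      have c1 : ∀ i j, Continuous (fun x => wt (a0 n) x * (d i x - d j x) ^ 2) := fun i j =>
        hwc.mul (((cd i).sub (cd j)).pow 2)
      have e1 : ∑ i, ∑ j, ∫ x in K, wt (a0 n) x * (d i x - d j x) ^ 2 =
          ∫ x in K, ∑ i, ∑ j, wt (a0 n) x * (d i x - d j x) ^ 2 := by
        rw [integral_finsetSum _ (fun i _ => integrableOn_of_cont hb
          (continuous_finsetSum _ (fun j _ => c1 i j)))]
        apply Finset.sum_congr rfl; intro i _
        rw [integral_finsetSum _ (fun j _ => integrableOn_of_cont hb (c1 i j))]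
      have hde0 : ∀ x, fderiv ℝ u x (e0 n) = 1 / Real.sqrt n * ∑ k, d k x := by
        intro x
        have : e0 n = ∑ k, (1 / Real.sqrt n) • (EuclideanSpace.single k (1:ℝ) :
            EuclideanSpace ℝ (Fin n)) := by
          ext j
          rw [WithLp.ofLp_sum, Finset.sum_apply]
          simp [e0]
        rw [this, map_sum, Finset.mul_sum]
        apply Finset.sum_congr rfl; intro k _
        rw [map_smul, smul_eq_mul]
      have e2 : ∀ x, ∑ i, ∑ j, wt (a0 n) x * (d i x - d j x) ^ 2 =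
          2 * n * (‖fderiv ℝ u x‖ ^ 2 * wt (a0 n) x) -
          2 * n * ((∑ k, (fderiv ℝ u x (a0 n k)) ^ 2) * wt (a0 n) x) := by
        intro x
        have e3 : ∑ i, ∑ j, wt (a0 n) x * (d i x - d j x) ^ 2 =
            wt (a0 n) x * ∑ i, ∑ j, (d i x - d j x) ^ 2 := by
          rw [Finset.mul_sum]
          apply Finset.sum_congr rfl; intro i _
          rw [Finset.mul_sum]
        rw [e3, sum_diff_sq, norm_sq_fderiv]
        have e4 : ∑ k, (fderiv ℝ u x (a0 n k)) ^ 2 = 1 / n * (∑ k, d k x) ^ 2 := by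
          simp only [a0, Finset.univ_unique, Finset.sum_const, Finset.card_singleton, one_smul]
          rw [hde0, mul_pow, div_pow, one_pow, Real.sq_sqrt hn'.le]
        have e6 : ∑ k, (fderiv ℝ u x (EuclideanSpace.single k 1)) ^ 2 = ∑ k, d k x ^ 2 := rfl
        rw [e4, e6]
        field_simp
      rw [e1]
      simp_rw [e2]
      have cu : Continuous (fun x => ‖fderiv ℝ u x‖ ^ 2 * wt (a0 n) x) :=
        ((hu.continuous_fderiv (by norm_num)).norm.pow 2).mul hwc
      have cu2 : Continuous (fun x => (∑ k, (fderiv ℝ u x (a0 n k)) ^ 2) * wt (a0 n) x) := by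
        have hudc : Continuous (fun x => fderiv ℝ u x) := hu.continuous_fderiv (by norm_num)
        exact (continuous_finsetSum _ (fun k _ => by fun_prop)).mul hwc
      rw [integral_sub ((integrableOn_of_cont hb cu).const_mul _)
        ((integrableOn_of_cont hb cu2).const_mul _), integral_const_mul, integral_const_mul]
      ring
    have hsumS : ∑ i, ∑ j, (69160000000000 * (4 * S i + 4 * S j)) =
        2 * n * (276640000000000 * ∑ k, S k) := by
      simp only [← Finset.mul_sum, Finset.sum_add_distrib, Finset.sum_const, Finset.card_univ,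
        Fintype.card_fin, nsmul_eq_mul]
      ring
    have hle := Finset.sum_le_sum (fun i (_ : i ∈ (Finset.univ : Finset (Fin n))) =>
      Finset.sum_le_sum (fun j (_ : j ∈ (Finset.univ : Finset (Fin n))) => hpair i j))
    rw [hsumpair, hsumS] at hle
    have hle2 := le_of_mul_le_mul_left hle (by positivity : (0:ℝ) < 2 * n)
    have hfinal : ∫ x in K, (∑ i, ‖fderiv ℝ (fun z => fderiv ℝ u z
        (EuclideanSpace.basisFun (Fin n) ℝ i)) x‖ ^ 2) * wt (a0 n) x = ∑ k, S k := by
      simp_rw [Finset.sum_mul]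
      have e5 : ∀ i : Fin n, (fun z => fderiv ℝ u z (EuclideanSpace.basisFun (Fin n) ℝ i)) = d i := by
        intro i; funext z; simp only [hd, EuclideanSpace.basisFun_apply]
      simp_rw [e5]
      rw [integral_finsetSum _ (fun i _ => integrableOn_of_cont hb (cS i))]
    rw [hfinal, one_div, inv_mul_eq_div, div_le_iff₀ (by norm_num)]
    linarith

end Pool.Agent.H18.KLS
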