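import Mathlib

set_option autoImplicit false
set_option linter.unusedSectionVars false

open Finset

namespace Pool.Agent.H18.KLS.RT

variable {n : ℕ} {V : Type*} [NormedAddCommGroup V] [InnerProductSpace ℝ V]
  [FiniteDimensional ℝ V] (ρ : Equiv.Perm (Fin n) →* (V →ₗ[ℝ] V))

/-- transposition operator -/
noncomputable def s (a b : Fin n) : V →ₗ[ℝ] V := ρ (Equiv.swap a b)

theorem s_comm (a b : Fin n) (v : V) : s ρ a b v = s ρ b a v := by
  unfold s; rw [Equiv.swap_comm]

theorem s_self (a : Fin n) (v : V) : s ρ a a v = v := by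
  unfold s; rw [Equiv.swap_self]
  have : (Equiv.refl (Fin n)) = (1 : Equiv.Perm (Fin n)) := rfl
  rw [this, map_one]; rfl

theorem s_s (a b : Fin n) (v : V) : s ρ a b (s ρ a b v) = v := by
  unfold s
  rw [← Module.End.mul_apply, ← map_mul, Equiv.swap_mul_self, map_one]; rfl

theorem s_conj (a b x y : Fin n) (v : V) :
    s ρ a b (s ρ x y v) = s ρ (Equiv.swap a b x) (Equiv.swap a b y) (s ρ a b v) := by
  unfold s
  rw [← Module.End.mul_apply, ← map_mul, ← Module.End.mul_apply, ← map_mul,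
    Equiv.mul_swap_eq_swap_mul]

variable {ρ} (hρ : ∀ g v, ‖ρ g v‖ = ‖v‖)

include hρ in
theorem s_norm (a b : Fin n) (v : V) : ‖s ρ a b v‖ = ‖v‖ := hρ _ _

include hρ in
theorem s_inner (a b : Fin n) (u v : V) : inner ℝ (s ρ a b u) (s ρ a b v) = inner ℝ u v := by
  have := (LinearIsometry.mk (s ρ a b) (s_norm hρ a b)).inner_map_map u v
  exact this

include hρ in
theorem s_symm (a b : Fin n) (u v : V) : inner ℝ (s ρ a b u) v = inner ℝ u (s ρ a b v) := by
  rw [← s_inner hρ a b (s ρ a b u) v, s_s]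

variable (ρ) in
/-- vectors invariant under the transpositions inside `A` -/
noncomputable def WW (A : Finset (Fin n)) : Submodule ℝ V where
  carrier := {v | ∀ a ∈ A, ∀ b ∈ A, s ρ a b v = v}
  add_mem' := by
    intro x y hx hy a ha b hb
    rw [map_add, hx a ha b hb, hy a ha b hb]
  zero_mem' := by intro a _ b _; exact map_zero _
  smul_mem' := by
    intro c x hx a ha b hb
    rw [map_smul, hx a ha b hb]

theorem mem_WW {A : Finset (Fin n)} {v : V} : v ∈ WW ρ A ↔ ∀ a ∈ A, ∀ b ∈ A, s ρ a b v = v :=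
  Iff.rfl

theorem WW_mono {A B : Finset (Fin n)} (h : A ⊆ B) : WW ρ B ≤ WW ρ A := by
  intro v hv a ha b hb
  exact hv a (h ha) b (h hb)

variable (ρ) in
/-- averaging of the position `k` over `A ∪ {k}` -/
noncomputable def TT (A : Finset (Fin n)) (k : Fin n) (v : V) : V :=
  ((A.card : ℝ) + 1)⁻¹ • (v + ∑ l ∈ A, s ρ l k v)

theorem TT_sub (A : Finset (Fin n)) (k : Fin n) (u v : V) :
    TT ρ A k (u - v) = TT ρ A k u - TT ρ A k v := by
  unfold TT
  rw [← smul_sub]
  congr 1
  simp only [map_sub, Finset.sum_sub_distrib]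
  abel

theorem TT_comm {A : Finset (Fin n)} {k : Fin n} (hk : k ∉ A) {a b : Fin n} (ha : a ∈ A)
    (hb : b ∈ A) (v : V) : s ρ a b (TT ρ A k v) = TT ρ A k (s ρ a b v) := by
  unfold TT
  rw [map_smul, map_add, map_sum]
  congr 2
  have hka : k ≠ a := fun h => hk (h ▸ ha)
  have hkb : k ≠ b := fun h => hk (h ▸ hb)
  have h1 : ∀ l ∈ A, s ρ a b (s ρ l k v) = s ρ (Equiv.swap a b l) k (s ρ a b v) := by
    intro l _
    rw [s_conj, Equiv.swap_apply_of_ne_of_ne hka hkb]
  rw [Finset.sum_congr rfl h1]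
  apply Finset.sum_nbij' (fun l => Equiv.swap a b l) (fun l => Equiv.swap a b l)
  · intro l hl
    rcases eq_or_ne l a with h | h
    · subst h; rw [Equiv.swap_apply_left]; exact hb
    · rcases eq_or_ne l b with h2 | h2
      · subst h2; rw [Equiv.swap_apply_right]; exact ha
      · rw [Equiv.swap_apply_of_ne_of_ne h h2]; exact hl
  · intro l hl
    rcases eq_or_ne l a with h | h
    · subst h; rw [Equiv.swap_apply_left]; exact hb
    · rcases eq_or_ne l b with h2 | h2
      · subst h2; rw [Equiv.swap_apply_right]; exact ha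
      · rw [Equiv.swap_apply_of_ne_of_ne h h2]; exact hl
  · intro l _; exact Equiv.swap_apply_self a b l
  · intro l _; exact Equiv.swap_apply_self a b l
  · intro l _; rfl

theorem TT_fix {A : Finset (Fin n)} {k : Fin n} {v : V} (hv : v ∈ WW ρ (insert k A)) :
    TT ρ A k v = v := by
  unfold TT
  have h1 : ∀ l ∈ A, s ρ l k v = v := fun l hl =>
    hv l (Finset.mem_insert_of_mem hl) k (Finset.mem_insert_self k A)
  rw [Finset.sum_congr rfl h1, Finset.sum_const]
  have : v + A.card • v = ((A.card : ℝ) + 1) • v := by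
    rw [add_smul, one_smul, ← Nat.cast_smul_eq_nsmul ℝ]; abel
  rw [this, smul_smul, inv_mul_cancel₀ (by positivity), one_smul]

theorem TT_mem {A : Finset (Fin n)} {k : Fin n} (hk : k ∉ A) {v : V} (hv : v ∈ WW ρ A) :
    TT ρ A k v ∈ WW ρ (insert k A) := by
  have key : ∀ m ∈ A, s ρ m k (TT ρ A k v) = TT ρ A k v := by
    intro m hm
    unfold TT
    rw [map_smul, map_add, map_sum]
    congr 1
    rw [← Finset.add_sum_erase A (fun l => s ρ m k (s ρ l k v)) hm,
      ← Finset.add_sum_erase A (fun l => s ρ l k v) hm, s_s]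
    have h1 : ∀ l ∈ A.erase m, s ρ m k (s ρ l k v) = s ρ l k v := by
      intro l hl
      have hlm : l ≠ m := Finset.ne_of_mem_erase hl
      have hlA : l ∈ A := Finset.mem_of_mem_erase hl
      have hlk : l ≠ k := fun h => hk (h ▸ hlA)
      have hmk : m ≠ k := fun h => hk (h ▸ hm)
      -- s_{lk} s_{ml} = s_{mk} s_{lk}
      have h2 := s_conj ρ l k m l v
      rw [Equiv.swap_apply_left, Equiv.swap_apply_of_ne_of_ne hlm.symm hmk] at h2
      rw [← h2, hv m hm l hlA]
    rw [Finset.sum_congr rfl h1]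
    abel
  intro a ha b hb
  rcases Finset.mem_insert.mp ha with h1 | h1
  · rcases Finset.mem_insert.mp hb with h2 | h2
    · rw [h1, h2]; exact s_self ρ k _
    · rw [h1, s_comm]; exact key b h2
  · rcases Finset.mem_insert.mp hb with h2 | h2
    · rw [h2]; exact key a h1
    · rw [TT_comm hk h1 h2, hv a h1 b h2]

include hρ in
theorem TT_symm (A : Finset (Fin n)) (k : Fin n) (u v : V) :
    inner ℝ (TT ρ A k u) v = inner ℝ u (TT ρ A k v) := by
  unfold TT
  rw [real_inner_smul_left, real_inner_smul_right, inner_add_left, inner_add_right, sum_inner,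
    inner_sum]
  congr 2
  exact Finset.sum_congr rfl (fun l _ => s_symm hρ l k u v)

include hρ in
theorem TT_norm (A : Finset (Fin n)) (k : Fin n) (v : V) : ‖TT ρ A k v‖ ≤ ‖v‖ := by
  unfold TT
  rw [norm_smul, norm_inv, Real.norm_of_nonneg (by positivity : (0:ℝ) ≤ (A.card:ℝ) + 1),
    inv_mul_le_iff₀ (by positivity)]
  calc ‖v + ∑ l ∈ A, s ρ l k v‖ ≤ ‖v‖ + ∑ l ∈ A, ‖s ρ l k v‖ :=
        (norm_add_le _ _).trans (add_le_add le_rfl (norm_sum_le _ _))
    _ = ((A.card : ℝ) + 1) * ‖v‖ := by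
        rw [Finset.sum_congr rfl (fun l _ => s_norm hρ l k v), Finset.sum_const, nsmul_eq_mul]
        ring

include hρ in
theorem TT_var {A : Finset (Fin n)} {k : Fin n} (v : V) :
    ‖v‖ ^ 2 - ‖TT ρ A k v‖ ^ 2 ≤ ((A.card : ℝ) + 1)⁻¹ * ∑ l ∈ A, ‖v - s ρ l k v‖ ^ 2 := by
  set c : ℝ := (A.card : ℝ) + 1 with hc
  have hc0 : 0 < c := by positivity
  have h1 : ∑ l ∈ A, ‖v - s ρ l k v‖ ^ 2 = 2 * (A.card : ℝ) * ‖v‖ ^ 2
      - 2 * inner ℝ v (∑ l ∈ A, s ρ l k v) := by
    have h2 : ∀ l ∈ A, ‖v - s ρ l k v‖ ^ 2 = 2 * ‖v‖ ^ 2 - 2 * inner ℝ v (s ρ l k v) := by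
      intro l _
      rw [norm_sub_sq_real, s_norm hρ]; ring
    rw [Finset.sum_congr rfl h2, Finset.sum_sub_distrib, Finset.sum_const, nsmul_eq_mul,
      ← Finset.mul_sum, inner_sum]
    ring
  have h3 : c • TT ρ A k v = v + ∑ l ∈ A, s ρ l k v := by
    unfold TT; rw [smul_smul, mul_inv_cancel₀ hc0.ne', one_smul]
  have h4 : ∑ l ∈ A, s ρ l k v = c • TT ρ A k v - v := by rw [h3]; abel
  rw [h4, inner_sub_right, real_inner_smul_right, real_inner_self_eq_norm_sq] at h1
  have h5 : 0 ≤ ‖v - TT ρ A k v‖ ^ 2 := by positivity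
  rw [norm_sub_sq_real] at h5
  rw [h1, ← mul_le_mul_iff_right₀ hc0, ← mul_assoc, mul_inv_cancel₀ hc0.ne', one_mul]
  have hA : (A.card : ℝ) = c - 1 := by rw [hc]; ring
  rw [hA]
  nlinarith

variable (ρ) in
/-- distance to the invariant vectors -/
noncomputable def dist2 (A : Finset (Fin n)) (v : V) : ℝ :=
  ‖v‖ ^ 2 - ‖(WW ρ A).starProjection v‖ ^ 2

include hρ in
theorem proj_step {A : Finset (Fin n)} {k : Fin n} (hk : k ∉ A) (v : V) :
    (WW ρ (insert k A)).starProjection v = (WW ρ A).starProjection (TT ρ A k v) := by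
  set p := (WW ρ A).starProjection v with hp
  have hpm : p ∈ WW ρ A := Submodule.starProjection_apply_mem _ v
  have hporth : ∀ w ∈ WW ρ A, inner ℝ (v - p) w = 0 := fun w hw =>
    Submodule.starProjection_inner_eq_zero v w hw
  have h1 : (WW ρ (insert k A)).starProjection v = TT ρ A k p := by
    apply Submodule.eq_starProjection_of_mem_of_inner_eq_zero (TT_mem hk hpm)
    intro w hw
    have hwA : w ∈ WW ρ A := WW_mono (Finset.subset_insert k A) hw
    rw [inner_sub_left, TT_symm hρ, TT_fix hw, ← inner_sub_left]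
    exact hporth w hwA
  have h2 : (WW ρ A).starProjection (TT ρ A k v) = TT ρ A k p := by
    apply Submodule.eq_starProjection_of_mem_of_inner_eq_zero
      (WW_mono (Finset.subset_insert k A) (TT_mem hk hpm))
    intro w hw
    rw [← TT_sub, TT_symm hρ]
    exact hporth _ (WW_mono (Finset.subset_insert k A) (TT_mem hk hw))
  rw [h1, h2]

/-- energy -/
noncomputable def en (ρ : Equiv.Perm (Fin n) →* (V →ₗ[ℝ] V)) (A : Finset (Fin n)) (v : V) : ℝ :=
  ∑ l ∈ A, ∑ m ∈ A, ‖v - s ρ l m v‖ ^ 2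

theorem en_nonneg (A : Finset (Fin n)) (v : V) : 0 ≤ en ρ A v :=
  Finset.sum_nonneg (fun _ _ => Finset.sum_nonneg (fun _ _ => by positivity))

include hρ in
theorem en_TT {A : Finset (Fin n)} {k : Fin n} (hk : k ∉ A) (v : V) :
    en ρ A (TT ρ A k v) ≤ en ρ A v := by
  apply Finset.sum_le_sum; intro l hl
  apply Finset.sum_le_sum; intro m hm
  rw [TT_comm hk hl hm, ← TT_sub]
  exact pow_le_pow_left₀ (norm_nonneg _) (TT_norm hρ A k _) 2

include hρ in
theorem dist_step {A : Finset (Fin n)} {k : Fin n} (hk : k ∉ A) (v : V) :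
    dist2 ρ (insert k A) v ≤ dist2 ρ A (TT ρ A k v) +
      ((A.card : ℝ) + 1)⁻¹ * ∑ l ∈ A, ‖v - s ρ l k v‖ ^ 2 := by
  have h1 := TT_var hρ (A := A) (k := k) v
  unfold dist2
  rw [proj_step hρ hk]
  linarith

include hρ in
theorem gap_le (b : ℕ) : ∀ B : Finset (Fin n), B.card = b → ∀ v : V,
    (b : ℝ) * dist2 ρ B v ≤ en ρ B v := by
  induction b with
  | zero =>
    intro B hB v
    simp only [Nat.cast_zero, zero_mul]
    exact en_nonneg B v
  | succ b ih =>
    intro B hB v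
    have h1 : ∀ k ∈ B, (b : ℝ) * dist2 ρ B v ≤ en ρ (B.erase k) v +
        b * (((b : ℝ) + 1)⁻¹ * ∑ l ∈ B.erase k, ‖v - s ρ l k v‖ ^ 2) := by
      intro k hk
      have hcard : (B.erase k).card = b := by
        rw [Finset.card_erase_of_mem hk, hB]; simp
      have h2 := dist_step hρ (Finset.notMem_erase k B) v
      rw [Finset.insert_erase hk, hcard] at h2
      have h3 := ih (B.erase k) hcard (TT ρ (B.erase k) k v)
      have h4 := en_TT hρ (Finset.notMem_erase k B) v
      have hb0 : (0:ℝ) ≤ b := Nat.cast_nonneg b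
      have h5 := mul_le_mul_of_nonneg_left h2 hb0
      rw [mul_add] at h5
      linarith
    -- sum over k
    have h6 := Finset.sum_le_sum h1
    rw [Finset.sum_const, hB, nsmul_eq_mul, Finset.sum_add_distrib] at h6
    have h7 : ∀ k ∈ B, ∑ l ∈ B.erase k, ‖v - s ρ l k v‖ ^ 2 = ∑ l ∈ B, ‖v - s ρ l k v‖ ^ 2 := by
      intro k hk
      rw [← Finset.add_sum_erase B (fun l => ‖v - s ρ l k v‖ ^ 2) hk, s_self]
      simp
    have h8 : ∑ k ∈ B, b * (((b : ℝ) + 1)⁻¹ * ∑ l ∈ B.erase k, ‖v - s ρ l k v‖ ^ 2) =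
        b * (((b : ℝ) + 1)⁻¹ * en ρ B v) := by
      rw [Finset.sum_congr rfl (fun k hk => by rw [h7 k hk]), ← Finset.mul_sum, ← Finset.mul_sum]
      congr 2
      unfold en
      rw [Finset.sum_comm]
    have h9 : ∑ k ∈ B, en ρ (B.erase k) v = ((b : ℝ) - 1) * en ρ B v := by
      have h10 : ∀ k ∈ B, en ρ (B.erase k) v = en ρ B v
          - 2 * ∑ l ∈ B, ‖v - s ρ l k v‖ ^ 2 := by
        intro k hk
        unfold en
        have h11 : ∀ l ∈ B.erase k, ∑ m ∈ B.erase k, ‖v - s ρ l m v‖ ^ 2 =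
            (∑ m ∈ B, ‖v - s ρ l m v‖ ^ 2) - ‖v - s ρ l k v‖ ^ 2 := by
          intro l _
          rw [← Finset.add_sum_erase B (fun m => ‖v - s ρ l m v‖ ^ 2) hk]; ring
        rw [Finset.sum_congr rfl h11, Finset.sum_sub_distrib, h7 k hk]
        rw [← Finset.add_sum_erase B (fun l => ∑ m ∈ B, ‖v - s ρ l m v‖ ^ 2) hk]
        have h12 : ∑ m ∈ B, ‖v - s ρ k m v‖ ^ 2 = ∑ l ∈ B, ‖v - s ρ l k v‖ ^ 2 :=
          Finset.sum_congr rfl (fun m _ => by rw [s_comm])
        rw [h12]; ring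
      rw [Finset.sum_congr rfl h10, Finset.sum_sub_distrib, Finset.sum_const, hB, nsmul_eq_mul,
        ← Finset.mul_sum]
      have h13 : ∑ k ∈ B, ∑ l ∈ B, ‖v - s ρ l k v‖ ^ 2 = en ρ B v := by
        unfold en; rw [Finset.sum_comm]
      rw [h13]; push_cast; ring
    rw [h8, h9] at h6
    push_cast at h6 ⊢
    have hE := en_nonneg (ρ := ρ) B v
    rcases Nat.eq_zero_or_pos b with hb | hb
    · -- one element
      subst hb
      obtain ⟨k, hk⟩ := Finset.card_eq_one.mp hB
      have h14 : WW ρ B = ⊤ := by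
        rw [eq_top_iff]
        intro w _
        rw [mem_WW, hk]
        intro a ha c hc
        rw [Finset.mem_singleton] at ha hc
        rw [ha, hc]; exact s_self ρ k w
      have h15 : dist2 ρ B v = 0 := by
        unfold dist2
        have hmem : v ∈ WW ρ B := by rw [h14]; trivial
        have : (WW ρ B).starProjection v = v := Submodule.starProjection_eq_self_iff.mpr hmem
        rw [this]; ring
      rw [h15]; simpa using hE
    · have hb' : (0:ℝ) < b := by exact_mod_cast hb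
      have h16 : (b : ℝ) * (((b : ℝ) + 1)⁻¹ * en ρ B v) ≤ en ρ B v := by
        rw [← mul_assoc]
        have : (b : ℝ) * ((b : ℝ) + 1)⁻¹ ≤ 1 := by
          rw [← div_eq_mul_inv, div_le_one (by positivity)]; linarith
        calc _ ≤ 1 * en ρ B v := mul_le_mul_of_nonneg_right this hE
          _ = _ := one_mul _
      have h17 : (b : ℝ) * (((b : ℝ) + 1) * dist2 ρ B v) ≤ b * en ρ B v := by nlinarith
      exact le_of_mul_le_mul_left h17 hb'

end Pool.Agent.H18.KLS.RT
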