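import Mathlib
import Pool.Agent.H18.KLS.RT

set_option autoImplicit false

open Finset

namespace Pool.Agent.H18.KLS.RT

variable {n : ℕ}

/-- the right regular representation -/
noncomputable def reg (n : ℕ) : Equiv.Perm (Fin n) →*
    (EuclideanSpace ℝ (Equiv.Perm (Fin n)) →ₗ[ℝ] EuclideanSpace ℝ (Equiv.Perm (Fin n))) where
  toFun g :=
    { toFun := fun F => WithLp.toLp 2 (fun σ => F (σ * g))
      map_add' := by intro F G; ext σ; rfl
      map_smul' := by intro c F; ext σ; rfl }
  map_one' := by
    apply LinearMap.ext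
    intro F
    ext σ
    show F (σ * 1) = F σ
    rw [mul_one]
  map_mul' := by
    intro g h
    apply LinearMap.ext
    intro F
    ext σ
    show F (σ * (g * h)) = F (σ * g * h)
    rw [mul_assoc]

theorem reg_apply (g σ : Equiv.Perm (Fin n)) (F : EuclideanSpace ℝ (Equiv.Perm (Fin n))) :
    reg n g F σ = F (σ * g) := rfl

theorem reg_norm (g : Equiv.Perm (Fin n)) (F : EuclideanSpace ℝ (Equiv.Perm (Fin n))) :
    ‖reg n g F‖ = ‖F‖ := by
  rw [EuclideanSpace.norm_eq, EuclideanSpace.norm_eq]
  congr 1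
  exact Equiv.sum_comp (Equiv.mulRight g) (fun σ => ‖F σ‖ ^ 2)

theorem const_of_inv {F : Equiv.Perm (Fin n) → ℝ}
    (h : ∀ (a b : Fin n) (σ : Equiv.Perm (Fin n)), F (σ * Equiv.swap a b) = F σ)
    (σ : Equiv.Perm (Fin n)) : F σ = F 1 := by
  have key : ∀ g : Equiv.Perm (Fin n), ∀ σ, F (σ * g) = F σ := by
    intro g
    induction g using Equiv.Perm.swap_induction_on' with
    | one => intro σ; rw [mul_one]
    | mul_swap g x y _ ih =>
      intro σ
      rw [← mul_assoc, h, ih]
  have := key σ 1
  rwa [one_mul] at this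

/-- the Poincare inequality for random transpositions -/
theorem perm_var (F : Equiv.Perm (Fin n) → ℝ) :
    (n : ℝ) * (∑ σ, F σ ^ 2 - (∑ σ, F σ) ^ 2 / (Nat.factorial n)) ≤
      ∑ l, ∑ m, ∑ σ, (F σ - F (σ * Equiv.swap l m)) ^ 2 := by
  classical
  set v : EuclideanSpace ℝ (Equiv.Perm (Fin n)) := WithLp.toLp 2 F with hv
  have h1 := gap_le (ρ := reg n) (fun g v => reg_norm g v) n Finset.univ (by simp) v
  have hen : en (reg n) Finset.univ v = ∑ l, ∑ m, ∑ σ, (F σ - F (σ * Equiv.swap l m)) ^ 2 := by
    unfold en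
    apply Finset.sum_congr rfl; intro l _
    apply Finset.sum_congr rfl; intro m _
    rw [EuclideanSpace.real_norm_sq_eq]
    rfl
  rw [hen] at h1
  have hd : dist2 (reg n) Finset.univ v = ∑ σ, F σ ^ 2 - (∑ σ, F σ) ^ 2 / (Nat.factorial n) := by
    unfold dist2
    set p := (WW (reg n) Finset.univ).starProjection v with hp
    have hpm : p ∈ WW (reg n) Finset.univ := Submodule.starProjection_apply_mem _ v
    have hpc : ∀ σ, p σ = p 1 := by
      apply const_of_inv
      intro a b σ
      have := hpm a (Finset.mem_univ a) b (Finset.mem_univ b)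
      have h2 : (s (reg n) a b p) σ = p σ := by rw [this]
      exact h2
    set one : EuclideanSpace ℝ (Equiv.Perm (Fin n)) := WithLp.toLp 2 (fun _ => 1) with hone
    have hom : one ∈ WW (reg n) Finset.univ := by
      intro a _ b _
      ext σ
      rfl
    have horth := Submodule.starProjection_inner_eq_zero v one hom
    rw [inner_sub_left] at horth
    have e1 : inner ℝ v one = ∑ σ, F σ := by
      rw [PiLp.inner_apply]
      apply Finset.sum_congr rfl
      intro σ _
      simp [hv, hone]
    have hcard : (Fintype.card (Equiv.Perm (Fin n)) : ℝ) = Nat.factorial n := by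
      rw [Fintype.card_perm, Fintype.card_fin]
    have e2 : inner ℝ p one = Nat.factorial n * p 1 := by
      rw [PiLp.inner_apply]
      have : ∀ σ ∈ (Finset.univ : Finset (Equiv.Perm (Fin n))), inner ℝ (p σ) (one σ) = p 1 := by
        intro σ _
        simp [hone, hpc σ]
      rw [Finset.sum_congr rfl this, Finset.sum_const, Finset.card_univ, nsmul_eq_mul, hcard]
    have hp2 : ‖p‖ ^ 2 = Nat.factorial n * p 1 ^ 2 := by
      rw [EuclideanSpace.real_norm_sq_eq]
      have : ∀ σ ∈ (Finset.univ : Finset (Equiv.Perm (Fin n))), (p σ) ^ 2 = p 1 ^ 2 := by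
        intro σ _; rw [hpc σ]
      rw [Finset.sum_congr rfl this, Finset.sum_const, Finset.card_univ, nsmul_eq_mul, hcard]
    have hv2 : ‖v‖ ^ 2 = ∑ σ, F σ ^ 2 := by
      rw [EuclideanSpace.real_norm_sq_eq]
    have hf : (0:ℝ) < Nat.factorial n := by exact_mod_cast Nat.factorial_pos n
    rw [← hp] at horth
    rw [e1, e2] at horth
    rw [hv2, hp2]
    have : (∑ σ, F σ) = Nat.factorial n * p 1 := by linarith
    rw [this]
    field_simp
  rw [hd] at h1
  exact h1

end Pool.Agent.H18.KLS.RT
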