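import Mathlib

set_option autoImplicit false

open MeasureTheory Set Filter Topology

namespace Pool.Agent.H18.KLS

variable {n : ℕ}

/-- Invariance under all coordinate permutations. -/
def PermInv (K : Set (EuclideanSpace ℝ (Fin n))) : Prop :=
  ∀ (σ : Equiv.Perm (Fin n)) (x y : EuclideanSpace ℝ (Fin n)), x ∈ K → (∀ j, y j = x (σ j)) → y ∈ K

/-- the direction of a transfer from `i` to `k` -/
noncomputable def ee (i k : Fin n) : EuclideanSpace ℝ (Fin n) :=
  EuclideanSpace.single k 1 - EuclideanSpace.single i 1

theorem ee_left {i k : Fin n} (h : i ≠ k) : ee i k i = -1 := by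
  simp [ee, h]

theorem ee_right {i k : Fin n} (h : i ≠ k) : ee i k k = 1 := by
  simp [ee, Ne.symm h]

theorem ee_other {i k j : Fin n} (h1 : j ≠ i) (h2 : j ≠ k) : ee i k j = 0 := by
  simp [ee, h1, h2]

theorem norm_ee_le (i k : Fin n) : ‖ee i k‖ ≤ 2 := by
  unfold ee
  refine (norm_sub_le _ _).trans ?_
  simp
  norm_num

/-- Points between a point of `K` and its swap are in `K`. -/
theorem swap_hull {K : Set (EuclideanSpace ℝ (Fin n))} (hK : PermInv K) (hc : Convex ℝ K)
    {i k : Fin n} (hik : i ≠ k) {x : EuclideanSpace ℝ (Fin n)} (hx : x ∈ K) {t : ℝ}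
    (ht0 : 0 ≤ t) (ht1 : t ≤ 1) : x + (t * (x i - x k)) • ee i k ∈ K := by
  classical
  let y : EuclideanSpace ℝ (Fin n) := WithLp.toLp 2 (fun j => x (Equiv.swap i k j))
  have hy : y ∈ K := hK (Equiv.swap i k) x y hx (fun j => rfl)
  have := hc hx hy (sub_nonneg.mpr ht1) ht0 (by ring)
  have e : x + (t * (x i - x k)) • ee i k = (1 - t) • x + t • y := by
    ext j
    simp only [PiLp.add_apply, PiLp.smul_apply, smul_eq_mul]
    by_cases h1 : j = i
    · subst h1
      rw [ee_left hik]
      simp [y]
      ring
    · by_cases h2 : j = k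
      · subst h2
        rw [ee_right hik]
        simp [y]
        ring
      · rw [ee_other h1 h2]
        simp [y, Equiv.swap_apply_of_ne_of_ne h1 h2]
        ring
  rw [e]; exact this

theorem swap_flux {K : Set (EuclideanSpace ℝ (Fin n))} (hK : PermInv K) (hc : Convex ℝ K)
    (ho : IsOpen K) (hb : Bornology.IsBounded K) {i k : Fin n} (hik : i ≠ k)
    {F : EuclideanSpace ℝ (Fin n) → ℝ} (hF : ContDiff ℝ 1 F)
    (hneg : ∀ x : EuclideanSpace ℝ (Fin n), x i < x k → F x ≤ 0)
    (hpos : ∀ x : EuclideanSpace ℝ (Fin n), x k < x i → 0 ≤ F x) :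
    ∫ x in K, fderiv ℝ F x (ee i k) ≤ 0 := by
  have hFd : Differentiable ℝ F := hF.differentiable (by norm_num)
  have hcont : Continuous (fun x => fderiv ℝ F x) := hF.continuous_fderiv (by norm_num)
  obtain ⟨R, hR⟩ := hb.subset_closedBall (0 : EuclideanSpace ℝ (Fin n))
  obtain ⟨L0, hL0⟩ := (isCompact_closedBall (0 : EuclideanSpace ℝ (Fin n)) (R + 2)).exists_bound_of_continuousOn
    hcont.continuousOn
  set L := max L0 0
  have hLn : 0 ≤ L := le_max_right _ _
  have hL : ∀ x ∈ Metric.closedBall (0 : EuclideanSpace ℝ (Fin n)) (R + 2), ‖fderiv ℝ F x‖ ≤ L :=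
    fun x hx => (hL0 x hx).trans (le_max_left _ _)
  have hLip : ∀ x ∈ Metric.closedBall (0 : EuclideanSpace ℝ (Fin n)) (R + 2),
      ∀ y ∈ Metric.closedBall (0 : EuclideanSpace ℝ (Fin n)) (R + 2), |F y - F x| ≤ L * ‖y - x‖ := by
    intro x hx y hy
    have := (convex_closedBall (0 : EuclideanSpace ℝ (Fin n)) (R + 2)).norm_image_sub_le_of_norm_fderiv_le
      (𝕜 := ℝ) (fun z _ => hFd z) hL hx hy
    rwa [Real.norm_eq_abs] at this
  have hKR : ∀ x ∈ K, x ∈ Metric.closedBall (0 : EuclideanSpace ℝ (Fin n)) (R + 2) := fun x hx =>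
    Metric.closedBall_subset_closedBall (by linarith) (hR hx)
  set e := ee i k with he
  have hen : ‖e‖ ≤ 2 := norm_ee_le i k
  have hshift : ∀ x ∈ K, ∀ t : ℝ, 0 < t → t ≤ 1 →
      x + t • e ∈ Metric.closedBall (0 : EuclideanSpace ℝ (Fin n)) (R + 2) := by
    intro x hx t ht ht1
    have h1 := hR hx
    rw [mem_closedBall_zero_iff] at h1 ⊢
    calc ‖x + t • e‖ ≤ ‖x‖ + ‖t • e‖ := norm_add_le _ _
      _ ≤ R + 1 * 2 := by
        rw [norm_smul, Real.norm_eq_abs, abs_of_pos ht]
        exact add_le_add h1 (mul_le_mul ht1 hen (norm_nonneg _) (by norm_num))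
      _ = R + 2 := by ring
  have hKm : MeasurableSet K := ho.measurableSet
  have hKfin : volume K < ⊤ := hb.measure_lt_top
  have hfin : IsFiniteMeasure (volume.restrict K) := ⟨by rw [Measure.restrict_apply_univ]; exact hKfin⟩
  set A : ℝ → Set (EuclideanSpace ℝ (Fin n)) := fun t => {y | y - t • e ∈ K} with hA
  have hAo : ∀ t, IsOpen (A t) := fun t => ho.preimage (by fun_prop)
  have hAm : ∀ t, MeasurableSet (A t) := fun t => (hAo t).measurableSet
  have hAb : ∀ t, Bornology.IsBounded (A t) := by
    intro t
    rw [Metric.isBounded_iff_subset_closedBall (0 : EuclideanSpace ℝ (Fin n))]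
    refine ⟨R + ‖t • e‖, fun y hy => ?_⟩
    have h1 := hR (show y - t • e ∈ K from hy)
    rw [mem_closedBall_zero_iff] at h1 ⊢
    calc ‖y‖ = ‖(y - t • e) + t • e‖ := by rw [sub_add_cancel]
      _ ≤ ‖y - t • e‖ + ‖t • e‖ := norm_add_le _ _
      _ ≤ _ := by linarith
  have hint : ∀ (S : Set (EuclideanSpace ℝ (Fin n))) (g : EuclideanSpace ℝ (Fin n) → ℝ),
      Bornology.IsBounded S → Continuous g → IntegrableOn g S := by
    intro S g hS hg
    exact (hg.continuousOn.integrableOn_compact hS.isCompact_closure).mono_set subset_closure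
  -- sign facts
  have h1 : ∀ t : ℝ, 0 < t → ∀ y ∈ A t \ K, F y ≤ 0 := by
    intro t ht y hy
    apply hneg
    by_contra hcon
    push Not at hcon
    apply hy.2
    set x := y - t • e with hx
    have hxK : x ∈ K := hy.1
    have hxi : x i = y i + t := by
      simp [hx, he, ee_left hik]
    have hxk : x k = y k - t := by
      simp [hx, he, ee_right hik]
    have hd : 0 < x i - x k := by rw [hxi, hxk]; linarith
    have := swap_hull hK hc hik hxK (t := t / (x i - x k)) (by positivity) (by
      rw [div_le_one hd, hxi, hxk]; linarith)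
    rw [div_mul_cancel₀ _ hd.ne'] at this
    have e2 : x + t • ee i k = y := by rw [hx, ← he]; simp
    rwa [e2] at this
  have h2 : ∀ t : ℝ, 0 < t → ∀ x ∈ K \ A t, -(L * t) ≤ F x := by
    intro t ht x hx
    rcases lt_or_ge (x k) (x i) with hv | hv
    · have := hpos x hv
      have : 0 ≤ L * t := by positivity
      linarith
    · -- 0 ≤ x k - x i < t
      have hvt : x k - x i < t := by
        by_contra hcon
        push Not at hcon
        apply hx.2
        have hd : 0 < x k - x i := by linarith
        have := swap_hull hK hc hik hx.1 (t := t / (x k - x i)) (by positivity) (by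
          rw [div_le_one hd]; exact hcon)
        have e2 : t / (x k - x i) * (x i - x k) = -t := by
          rw [div_mul_eq_mul_div, div_eq_iff hd.ne']; ring
        rw [e2] at this
        show x - t • e ∈ K
        rw [sub_eq_add_neg, ← neg_smul]; exact this
      have hm := swap_hull hK hc hik hx.1 (t := 1 / 2) (by norm_num) (by norm_num)
      set x0 := x + (1 / 2 * (x i - x k)) • ee i k with hx0
      have hx0i : x0 i = x0 k := by
        simp [hx0, ee_left hik, ee_right hik]; ring
      have hF0 : F x0 = 0 := by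
        apply le_antisymm
        · -- limit of points with `x i < x k`
          have hc0 : Tendsto (fun s : ℝ => F (x0 + s • e)) (𝓝[>] 0) (𝓝 (F (x0 + (0:ℝ) • e))) := by
            have : Continuous (fun s : ℝ => F (x0 + s • e)) := hF.continuous.comp (by fun_prop)
            exact this.continuousAt.tendsto.mono_left nhdsWithin_le_nhds
          rw [zero_smul, add_zero] at hc0
          apply le_of_tendsto hc0
          filter_upwards [self_mem_nhdsWithin] with s hs
          apply hneg
          have hs' : 0 < s := hs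
          simp only [PiLp.add_apply, PiLp.smul_apply, smul_eq_mul, he, ee_left hik, ee_right hik]
          linarith
        · have hc0 : Tendsto (fun s : ℝ => F (x0 - s • e)) (𝓝[>] 0) (𝓝 (F (x0 - (0:ℝ) • e))) := by
            have : Continuous (fun s : ℝ => F (x0 - s • e)) := hF.continuous.comp (by fun_prop)
            exact this.continuousAt.tendsto.mono_left nhdsWithin_le_nhds
          rw [zero_smul, sub_zero] at hc0
          apply ge_of_tendsto hc0
          filter_upwards [self_mem_nhdsWithin] with s hs
          apply hpos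
          have hs' : 0 < s := hs
          simp only [PiLp.sub_apply, PiLp.smul_apply, smul_eq_mul, he, ee_left hik, ee_right hik]
          linarith
      have h3 := hLip x0 (hKR _ hm) x (hKR _ hx.1)
      rw [hF0, sub_zero] at h3
      have h4 : ‖x - x0‖ ≤ t := by
        have : x - x0 = (-(1 / 2 * (x i - x k))) • ee i k := by
          rw [hx0, neg_smul]; simp
        rw [this, norm_smul, Real.norm_eq_abs]
        have h5 : |(-(1 / 2 * (x i - x k)))| ≤ 1 / 2 * t := by
          rw [abs_le]; constructor <;> linarith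
        calc |(-(1 / 2 * (x i - x k)))| * ‖ee i k‖ ≤ (1 / 2 * t) * 2 :=
              mul_le_mul h5 hen (norm_nonneg _) (by positivity)
          _ = t := by ring
      have h6 : |F x| ≤ L * t := h3.trans (mul_le_mul_of_nonneg_left h4 hLn)
      linarith [neg_abs_le (F x)]
  -- the difference quotient
  set q : ℝ → EuclideanSpace ℝ (Fin n) → ℝ := fun t x =>
    (F (x + t • e) - F x) / t - L * (A t)ᶜ.indicator (fun _ => (1:ℝ)) x with hq
  have hqint : ∀ t : ℝ, 0 < t → ∫ x in K, q t x ≤ 0 := by
    intro t ht
    have i1 : IntegrableOn (fun x => F (x + t • e)) K := hint K _ hb (hF.continuous.comp (by fun_prop))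
    have i2 : IntegrableOn F K := hint K _ hb hF.continuous
    have i3 : IntegrableOn (fun x => (F (x + t • e) - F x) / t) K := (i1.sub i2).div_const t
    have i4 : IntegrableOn (fun x => L * (A t)ᶜ.indicator (fun _ => (1:ℝ)) x) K := by
      apply Integrable.const_mul
      exact (integrable_const (1:ℝ)).indicator (hAm t).compl
    have e1 : ∫ x in K, F (x + t • e) = ∫ x in A t, F x := by
      rw [← integral_indicator hKm, ← integral_indicator (hAm t)]
      rw [← integral_add_right_eq_self (fun y => (A t).indicator F y) (t • e)]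
      apply integral_congr_ae
      filter_upwards with x
      by_cases hx : x ∈ K
      · rw [indicator_of_mem hx, indicator_of_mem]
        show x + t • e - t • e ∈ K
        simpa using hx
      · rw [indicator_of_notMem hx, indicator_of_notMem]
        show ¬ (x + t • e - t • e ∈ K)
        simpa using hx
    have e2 : ∫ x in A t, F x = (∫ x in A t ∩ K, F x) + ∫ x in A t \ K, F x :=
      (integral_inter_add_sdiff hKm (hint _ _ (hAb t) hF.continuous)).symm
    have e3 : ∫ x in K, F x = (∫ x in K ∩ A t, F x) + ∫ x in K \ A t, F x :=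
      (integral_inter_add_sdiff (hAm t) i2).symm
    have e4 : ∫ x in A t \ K, F x ≤ 0 := by
      apply setIntegral_nonpos ((hAm t).diff hKm)
      exact h1 t ht
    have e5 : -(L * t) * volume.real (K \ A t) ≤ ∫ x in K \ A t, F x := by
      have : ∫ x in K \ A t, (-(L * t)) = -(L * t) * volume.real (K \ A t) := by
        rw [setIntegral_const, smul_eq_mul]; ring
      rw [← this]
      apply setIntegral_mono_on _ (i2.mono_set sdiff_subset) (hKm.diff (hAm t))
      · exact h2 t ht
      · exact (hint K _ hb continuous_const).mono_set sdiff_subset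
    have e6 : ∫ x in K, (A t)ᶜ.indicator (fun _ => (1:ℝ)) x = volume.real (K \ A t) := by
      rw [setIntegral_indicator (hAm t).compl, setIntegral_const, smul_eq_mul, mul_one]
      rfl
    have e7 : ∫ x in K, q t x = ((∫ x in K, F (x + t • e)) - ∫ x in K, F x) / t -
        L * volume.real (K \ A t) := by
      simp only [hq]
      rw [integral_sub i3 i4, integral_div, integral_sub i1 i2, integral_const_mul, e6]
    rw [e7, e1, e2, e3, inter_comm (A t) K]
    have e8 : ((∫ x in K ∩ A t, F x) + (∫ x in A t \ K, F x) -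
        ((∫ x in K ∩ A t, F x) + ∫ x in K \ A t, F x)) ≤ (L * volume.real (K \ A t)) * t := by
      linarith
    have e9 := (div_le_iff₀ ht).mpr e8
    linarith
  have hlim : ∀ x ∈ K, Tendsto (fun t => q t x) (𝓝[>] 0) (𝓝 (fderiv ℝ F x e)) := by
    intro x hx
    have hd : HasDerivAt (fun τ : ℝ => x + τ • e) e 0 := by
      have := ((hasDerivAt_id (0:ℝ)).smul_const e).const_add x
      simpa using this
    have hd2 : HasFDerivAt F (fderiv ℝ F x) (x + (0:ℝ) • e) := by
      simpa using (hFd x).hasFDerivAt
    have hd3 : HasDerivAt (fun τ : ℝ => F (x + τ • e)) (fderiv ℝ F x e) 0 :=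
      hd2.comp_hasDerivAt (0:ℝ) hd
    have hd5 := hd3.hasDerivWithinAt (s := Ioi 0)
    rw [hasDerivWithinAt_iff_tendsto_slope' (by simp)] at hd5
    refine hd5.congr' ?_
    have hev : ∀ᶠ t : ℝ in 𝓝[>] 0, x ∈ A t := by
      have hct : ContinuousAt (fun t : ℝ => x - t • e) 0 := by
        have : Continuous (fun t : ℝ => x - t • e) := by fun_prop
        exact this.continuousAt
      have h3 : ∀ᶠ t : ℝ in 𝓝 0, x - t • e ∈ K := by
        apply hct.eventually_mem
        simpa using ho.mem_nhds hx
      exact h3.filter_mono nhdsWithin_le_nhds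
    filter_upwards [hev, self_mem_nhdsWithin] with t h3 h4
    have h5 : (A t)ᶜ.indicator (fun _ => (1:ℝ)) x = 0 := indicator_of_notMem (by simpa using h3) _
    simp only [hq, h5, slope_def_field]
    simp
  have hqm : ∀ t : ℝ, AEStronglyMeasurable (q t) (volume.restrict K) := by
    intro t
    apply Measurable.aestronglyMeasurable
    apply Measurable.sub
    · have hc1 : Continuous (fun x => F (x + t • e)) := hF.continuous.comp (by fun_prop)
      exact (hc1.measurable.sub hF.continuous.measurable).div_const t
    · exact (measurable_const.indicator (hAm t).compl).const_mul L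
  have hfinal : Tendsto (fun t => ∫ x in K, q t x) (𝓝[>] 0) (𝓝 (∫ x in K, fderiv ℝ F x e)) := by
    apply tendsto_integral_filter_of_dominated_convergence (fun _ => 3 * L)
    · exact Eventually.of_forall hqm
    · have hev : ∀ᶠ t : ℝ in 𝓝[>] 0, 0 < t ∧ t ≤ 1 := by
        have g1 : ∀ᶠ t : ℝ in 𝓝[>] 0, 0 < t := self_mem_nhdsWithin
        have g2 : ∀ᶠ t : ℝ in 𝓝[>] 0, t ≤ 1 := by
          have : ∀ᶠ t : ℝ in 𝓝 0, t ≤ 1 := eventually_le_nhds (by norm_num)
          exact this.filter_mono nhdsWithin_le_nhds
        exact g1.and g2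
      filter_upwards [hev] with t ht
      filter_upwards [ae_restrict_mem hKm] with x hx
      have g3 := hLip x (hKR x hx) _ (hshift x hx t ht.1 ht.2)
      rw [add_sub_cancel_left, norm_smul, Real.norm_eq_abs, abs_of_pos ht.1] at g3
      have g4 : |(F (x + t • e) - F x) / t| ≤ 2 * L := by
        rw [abs_div, abs_of_pos ht.1, div_le_iff₀ ht.1]
        calc |F (x + t • e) - F x| ≤ L * (t * ‖e‖) := g3
          _ ≤ L * (t * 2) := by
            apply mul_le_mul_of_nonneg_left _ hLn
            exact mul_le_mul_of_nonneg_left hen ht.1.le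
          _ = 2 * L * t := by ring
      have g5 : |L * (A t)ᶜ.indicator (fun _ => (1:ℝ)) x| ≤ L := by
        rw [abs_mul, abs_of_nonneg hLn]
        have : |(A t)ᶜ.indicator (fun _ => (1:ℝ)) x| ≤ 1 := by
          by_cases hxA : x ∈ (A t)ᶜ
          · rw [indicator_of_mem hxA]; simp
          · rw [indicator_of_notMem hxA]; simp
        calc L * _ ≤ L * 1 := mul_le_mul_of_nonneg_left this hLn
          _ = L := mul_one L
      rw [Real.norm_eq_abs]
      calc |q t x| ≤ |(F (x + t • e) - F x) / t| + |L * (A t)ᶜ.indicator (fun _ => (1:ℝ)) x| :=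
            abs_sub _ _
        _ ≤ 2 * L + L := add_le_add g4 g5
        _ = 3 * L := by ring
    · exact integrable_const _
    · filter_upwards [ae_restrict_mem hKm] with x hx
      exact hlim x hx
  apply le_of_tendsto hfinal
  filter_upwards [self_mem_nhdsWithin] with t ht
  exact hqint t ht

end Pool.Agent.H18.KLS
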