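import Mathlib
import Pool.Agent.H18.KLS.Swap
import Pool.Agent.H18.KLS.Brk

set_option autoImplicit false

open MeasureTheory Set Filter Topology

namespace Pool.Agent.H18.KLS

variable {n : ℕ}

/-- the squared function cut at the wall -/
noncomputable def cutsq (i j : Fin n) (h : EuclideanSpace ℝ (Fin n) → ℝ)
    (x : EuclideanSpace ℝ (Fin n)) : ℝ := if x j < x i then h x ^ 2 else 0

noncomputable def cuth (i j : Fin n) (h : EuclideanSpace ℝ (Fin n) → ℝ)
    (x : EuclideanSpace ℝ (Fin n)) : ℝ := if x j < x i then h x else 0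

theorem continuous_cuth {i j : Fin n} {h : EuclideanSpace ℝ (Fin n) → ℝ} (hh : Continuous h)
    (h0 : ∀ x : EuclideanSpace ℝ (Fin n), x i = x j → h x = 0) : Continuous (cuth i j h) := by
  have e : cuth i j h = fun x => if x i ≤ x j then 0 else h x := by
    funext x
    unfold cuth
    by_cases hx : x j < x i
    · rw [if_pos hx, if_neg (not_le.mpr hx)]
    · rw [if_neg hx, if_pos (not_lt.mp hx)]
  rw [e]
  apply Continuous.if_le continuous_const hh (by fun_prop) (by fun_prop)
  intro x hx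
  exact (h0 x hx).symm

theorem hasFDerivAt_cutsq {i j : Fin n} {h : EuclideanSpace ℝ (Fin n) → ℝ}
    (hh : Differentiable ℝ h)
    (h0 : ∀ x : EuclideanSpace ℝ (Fin n), x i = x j → h x = 0) (x : EuclideanSpace ℝ (Fin n)) :
    HasFDerivAt (cutsq i j h) ((2 * cuth i j h x) • fderiv ℝ h x) x := by
  have hci : Continuous (fun x : EuclideanSpace ℝ (Fin n) => x i) := by fun_prop
  have hcj : Continuous (fun x : EuclideanSpace ℝ (Fin n) => x j) := by fun_prop
  rcases lt_trichotomy (x j) (x i) with hx | hx | hx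
  · have h1 : HasFDerivAt (fun y => h y ^ 2) ((2 * h x) • fderiv ℝ h x) x := by
      have := (hh x).hasFDerivAt.mul (hh x).hasFDerivAt
      have e1 : (fun y => h y ^ 2) = h * h := by funext y; simp [sq]
      rw [e1]
      refine this.congr_fderiv ?_
      ext v
      show h x * (fderiv ℝ h x) v + h x * (fderiv ℝ h x) v = (2 * h x) * (fderiv ℝ h x) v
      ring
    have h2 : cuth i j h x = h x := if_pos hx
    rw [h2]
    apply h1.congr_of_eventuallyEq
    filter_upwards [(isOpen_lt hcj hci).mem_nhds hx] with y hy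
    exact if_pos hy
  · have h2 : cuth i j h x = 0 := if_neg (by rw [hx]; exact lt_irrefl _)
    have h3 : cutsq i j h x = 0 := if_neg (by rw [hx]; exact lt_irrefl _)
    have h4 : h x = 0 := h0 x hx.symm
    rw [h2, mul_zero, zero_smul]
    rw [hasFDerivAt_iff_isLittleO_nhds_zero]
    have hO : (fun v => h (x + v)) =O[𝓝 0] fun v => v := by
      have := (hh x).hasFDerivAt.isBigO_sub
      have h5 : Tendsto (fun v : EuclideanSpace ℝ (Fin n) => x + v) (𝓝 0) (𝓝 x) := by
        have : Continuous (fun v : EuclideanSpace ℝ (Fin n) => x + v) := by fun_prop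
        simpa using this.tendsto 0
      have h6 := this.comp_tendsto h5
      simpa [Function.comp_def, h4] using h6
    have h7 : (fun v => h (x + v) ^ 2) =o[𝓝 0] fun v => v := by
      have h8 : (fun v => h (x + v)) =o[𝓝 0] fun _ : EuclideanSpace ℝ (Fin n) => (1:ℝ) := by
        apply (Asymptotics.isLittleO_one_iff ℝ).mpr
        have h5 : Continuous (fun v : EuclideanSpace ℝ (Fin n) => h (x + v)) :=
          hh.continuous.comp (by fun_prop)
        have := h5.tendsto 0
        simpa [h4] using this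
      have h9 := h8.mul_isBigO hO.norm_right
      have h10 : (fun v => h (x + v) * h (x + v)) =o[𝓝 0] fun v => ‖v‖ := by simpa using h9
      have h11 : (fun v => h (x + v) ^ 2) =o[𝓝 0] fun v => ‖v‖ := by simpa [sq] using h10
      exact h11.of_norm_right
    have h12 : (fun v => cutsq i j h (x + v) - cutsq i j h x -
        (0 : EuclideanSpace ℝ (Fin n) →L[ℝ] ℝ) v) =O[𝓝 0] fun v => h (x + v) ^ 2 := by
      apply Asymptotics.IsBigO.of_bound 1
      filter_upwards with v
      rw [h3]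
      simp only [sub_zero, one_mul, zero_apply]
      unfold cutsq
      split_ifs
      · exact le_rfl
      · rw [norm_zero]; exact norm_nonneg _
    exact h12.trans_isLittleO h7
  · have h2 : cuth i j h x = 0 := if_neg (not_lt.mpr hx.le)
    rw [h2, mul_zero, zero_smul]
    have h1 : HasFDerivAt (fun _ : EuclideanSpace ℝ (Fin n) => (0:ℝ))
        (0 : EuclideanSpace ℝ (Fin n) →L[ℝ] ℝ) x := hasFDerivAt_const _ _
    apply h1.congr_of_eventuallyEq
    filter_upwards [(isOpen_lt hci hcj).mem_nhds hx] with y hy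
    exact if_neg (not_lt.mpr (le_of_lt hy))

theorem contDiff_cutsq {i j : Fin n} {h : EuclideanSpace ℝ (Fin n) → ℝ} (hh : ContDiff ℝ 1 h)
    (h0 : ∀ x : EuclideanSpace ℝ (Fin n), x i = x j → h x = 0) : ContDiff ℝ 1 (cutsq i j h) := by
  have hd : Differentiable ℝ h := hh.differentiable (by norm_num)
  rw [contDiff_one_iff_fderiv]
  refine ⟨fun x => (hasFDerivAt_cutsq hd h0 x).differentiableAt, ?_⟩
  have e : (fun x => fderiv ℝ (cutsq i j h) x) = fun x => (2 * cuth i j h x) • fderiv ℝ h x := by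
    funext x; exact (hasFDerivAt_cutsq hd h0 x).fderiv
  have e' : fderiv ℝ (cutsq i j h) = fun x => (2 * cuth i j h x) • fderiv ℝ h x := e
  rw [e']
  exact ((continuous_cuth hh.continuous h0).const_mul 2).smul (hh.continuous_fderiv (by norm_num))

/-- derivative along a line of a function of two coordinates -/
theorem fderiv_two {a b : Fin n} {φ : ℝ → ℝ → ℝ}
    (hφ : ContDiff ℝ 1 (fun x : EuclideanSpace ℝ (Fin n) => φ (x a) (x b)))
    (v x : EuclideanSpace ℝ (Fin n)) {c : ℝ}
    (hc : HasDerivAt (fun t => φ (x a + t * v a) (x b + t * v b)) c 0) :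
    fderiv ℝ (fun x : EuclideanSpace ℝ (Fin n) => φ (x a) (x b)) x v = c := by
  have hd : HasDerivAt (fun τ : ℝ => x + τ • v) v 0 := by
    have := ((hasDerivAt_id (0:ℝ)).smul_const v).const_add x
    simpa using this
  have hd2 : HasFDerivAt (fun x : EuclideanSpace ℝ (Fin n) => φ (x a) (x b))
      (fderiv ℝ (fun x : EuclideanSpace ℝ (Fin n) => φ (x a) (x b)) x) (x + (0:ℝ) • v) := by
    simpa using ((hφ.differentiable (by norm_num)) x).hasFDerivAt
  have hd3 := hd2.comp_hasDerivAt (0:ℝ) hd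
  exact hd3.unique hc

theorem contDiff_sg : ContDiff ℝ 1 sg := by
  unfold sg
  apply ContDiff.div contDiff_const (by fun_prop)
  intro x; exact (sg_den x).ne'

theorem contDiff_rr : ContDiff ℝ 1 rr := by
  unfold rr
  apply ContDiff.sqrt (by fun_prop)
  intro x; positivity

theorem contDiff_om : ContDiff ℝ 1 om := by
  unfold om
  apply ContDiff.div (contDiff_id.add contDiff_rr) (contDiff_const.mul (contDiff_rr.pow 2))
  intro x
  have := (rr_pos x).ne'
  positivity

theorem contDiff_GG {f g : EuclideanSpace ℝ (Fin n) → ℝ} (hf : ContDiff ℝ 1 f)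
    (hg : ContDiff ℝ 1 g) : ContDiff ℝ 1 (fun x => GG (f x) (g x)) := by
  unfold GG
  exact ((hf.sub hg).mul (contDiff_sg.comp hg)).mul (contDiff_om.comp hf)

theorem contDiff_coord (a : Fin n) : ContDiff ℝ 1 (fun x : EuclideanSpace ℝ (Fin n) => x a) := by
  fun_prop

/-- flux inequality for a transfer weight times a nonnegative function -/
theorem flux_mul {K : Set (EuclideanSpace ℝ (Fin n))} (hK : PermInv K) (hc : Convex ℝ K)
    (ho : IsOpen K) (hb : Bornology.IsBounded K) {a b : Fin n} (hab : a ≠ b)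
    {g H : EuclideanSpace ℝ (Fin n) → ℝ} (hg : ContDiff ℝ 1 g) (hH : ContDiff ℝ 1 H)
    (hneg : ∀ x : EuclideanSpace ℝ (Fin n), x a < x b → g x * H x ≤ 0)
    (hpos : ∀ x : EuclideanSpace ℝ (Fin n), x b < x a → 0 ≤ g x * H x)
    {g' : EuclideanSpace ℝ (Fin n) → ℝ} (hg' : ∀ x, fderiv ℝ g x (ee a b) = g' x) :
    ∫ x in K, (g' x * H x + g x * fderiv ℝ H x (ee a b)) ≤ 0 := by
  have h1 := swap_flux hK hc ho hb hab (hg.mul hH) hneg hpos
  have h2 : ∀ x, fderiv ℝ (fun y => g y * H y) x (ee a b) =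
      g' x * H x + g x * fderiv ℝ H x (ee a b) := by
    intro x
    have h3 := ((hg.differentiable (by norm_num)) x).hasFDerivAt.mul
      ((hH.differentiable (by norm_num)) x).hasFDerivAt
    have h4 : fderiv ℝ (fun y => g y * H y) x = _ := h3.fderiv
    rw [h4]
    show g x * (fderiv ℝ H x) (ee a b) + H x * (fderiv ℝ g x) (ee a b) = _
    rw [hg' x]; ring
  rw [← integral_congr_ae (Eventually.of_forall h2)]
  exact h1

theorem sum_sq_oth_le {m : ℕ} (T : Finset (Fin m)) (y : Fin m → ℝ) :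
    (∑ k ∈ T, |y k|) ^ 2 ≤ m * ∑ k, y k ^ 2 := by
  calc (∑ k ∈ T, |y k|) ^ 2 ≤ (∑ k, |y k|) ^ 2 := by
        apply pow_le_pow_left₀ (Finset.sum_nonneg (fun k _ => abs_nonneg _))
        exact Finset.sum_le_sum_of_subset_of_nonneg (Finset.subset_univ _)
          (fun k _ _ => abs_nonneg _)
    _ ≤ m * ∑ k, |y k| ^ 2 := by
        have := sq_sum_le_card_mul_sum_sq (s := (Finset.univ : Finset (Fin m)))
          (f := fun k => |y k|)
        simpa using this
    _ = m * ∑ k, y k ^ 2 := by simp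

/-- pointwise inequality behind the refined Poincare inequality -/
theorem pointwise_bound {m : ℕ} {i j : Fin m} (hij : i ≠ j) (hm : 0 < (m:ℝ)) (α B Hx : ℝ)
    (hα0 : 0 ≤ α) (hα : α ≤ 12000) (hB : 1 / 200 ≤ B) (d g1 g2 : Fin m → ℝ)
    (hg1 : ∀ k, |g1 k| ≤ 2) (hg2 : ∀ k, |g2 k| ≤ 2) :
    1 / 400 * Hx ^ 2 - 172900000000 * (d i ^ 2 + d j ^ 2 + 1 / m * ∑ k, d k ^ 2) ≤
      B * Hx ^ 2 + 2 * Hx * (α * (d j - d i) + 1 / m * ∑ k ∈ oth i j,
        (g1 k * (d k - d i) + g2 k * (d j - d k))) := by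
  set Z := α * (d j - d i) + 1 / m * ∑ k ∈ oth i j,
        (g1 k * (d k - d i) + g2 k * (d j - d k)) with hZ
  set S := ∑ k ∈ oth i j, |d k| with hS
  have hS0 : 0 ≤ S := Finset.sum_nonneg (fun k _ => abs_nonneg _)
  have hcard : ((oth i j).card : ℝ) ≤ m := by rw [card_oth hij]; linarith
  have h1 : |∑ k ∈ oth i j, (g1 k * (d k - d i) + g2 k * (d j - d k))| ≤
      m * (2 * |d i| + 2 * |d j|) + 4 * S := by
    calc |∑ k ∈ oth i j, (g1 k * (d k - d i) + g2 k * (d j - d k))|
        ≤ ∑ k ∈ oth i j, |g1 k * (d k - d i) + g2 k * (d j - d k)| :=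
          Finset.abs_sum_le_sum_abs _ _
      _ ≤ ∑ k ∈ oth i j, ((2 * |d i| + 2 * |d j|) + 4 * |d k|) := by
          apply Finset.sum_le_sum
          intro k _
          have a1 : |g1 k * (d k - d i)| ≤ 2 * (|d k| + |d i|) := by
            rw [abs_mul]
            exact mul_le_mul (hg1 k) (abs_sub _ _) (abs_nonneg _) (by norm_num)
          have a2 : |g2 k * (d j - d k)| ≤ 2 * (|d j| + |d k|) := by
            rw [abs_mul]
            exact mul_le_mul (hg2 k) (abs_sub _ _) (abs_nonneg _) (by norm_num)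
          have a3 := abs_add_le (g1 k * (d k - d i)) (g2 k * (d j - d k))
          linarith
      _ = ((oth i j).card : ℝ) * (2 * |d i| + 2 * |d j|) + 4 * S := by
          rw [Finset.sum_add_distrib, Finset.sum_const, nsmul_eq_mul, ← Finset.mul_sum]
      _ ≤ m * (2 * |d i| + 2 * |d j|) + 4 * S := by
          have : 0 ≤ 2 * |d i| + 2 * |d j| := by positivity
          have := mul_le_mul_of_nonneg_right hcard this
          linarith
  have h2 : |Z| ≤ 12002 * |d i| + 12002 * |d j| + 4 / m * S := by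
    have a1 : |α * (d j - d i)| ≤ 12000 * (|d j| + |d i|) := by
      rw [abs_mul, abs_of_nonneg hα0]
      exact mul_le_mul hα (abs_sub _ _) (abs_nonneg _) (by norm_num)
    have a2 : |1 / m * ∑ k ∈ oth i j, (g1 k * (d k - d i) + g2 k * (d j - d k))| ≤
        (2 * |d i| + 2 * |d j|) + 4 / m * S := by
      rw [abs_mul, abs_of_pos (by positivity : (0:ℝ) < 1 / m)]
      calc 1 / (m:ℝ) * _ ≤ 1 / m * (m * (2 * |d i| + 2 * |d j|) + 4 * S) :=
            mul_le_mul_of_nonneg_left h1 (by positivity)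
        _ = (2 * |d i| + 2 * |d j|) + 4 / m * S := by field_simp
    have a3 := abs_add_le (α * (d j - d i))
      (1 / m * ∑ k ∈ oth i j, (g1 k * (d k - d i) + g2 k * (d j - d k)))
    rw [← hZ] at a3
    linarith
  set Q := ∑ k, d k ^ 2 with hQ
  have hQ0 : 0 ≤ Q := Finset.sum_nonneg (fun k _ => sq_nonneg _)
  have h3 : S ^ 2 ≤ m * Q := sum_sq_oth_le _ _
  have h4 : (4 / m * S) ^ 2 ≤ 16 / m * Q := by
    calc (4 / m * S) ^ 2 = 16 / m ^ 2 * S ^ 2 := by ring
      _ ≤ 16 / m ^ 2 * (m * Q) := mul_le_mul_of_nonneg_left h3 (by positivity)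
      _ = 16 / m * Q := by field_simp
  have h5 : Z ^ 2 ≤ 3 * ((12002 * |d i|) ^ 2 + (12002 * |d j|) ^ 2 + (4 / m * S) ^ 2) := by
    have b0 : 0 ≤ 4 / m * S := by positivity
    have b1 : 0 ≤ 12002 * |d i| := by positivity
    have b2 : 0 ≤ 12002 * |d j| := by positivity
    calc Z ^ 2 = |Z| ^ 2 := (sq_abs Z).symm
      _ ≤ (12002 * |d i| + 12002 * |d j| + 4 / m * S) ^ 2 :=
          pow_le_pow_left₀ (abs_nonneg _) h2 2
      _ ≤ _ := by
          nlinarith [sq_nonneg (12002 * |d i| - 12002 * |d j|),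
            sq_nonneg (12002 * |d i| - 4 / m * S), sq_nonneg (12002 * |d j| - 4 / m * S)]
  have h6 : Z ^ 2 ≤ 432144012 * (d i ^ 2 + d j ^ 2 + 1 / m * Q) := by
    have c1 : (12002 * |d i|) ^ 2 = 144048004 * d i ^ 2 := by rw [mul_pow, sq_abs]; norm_num
    have c2 : (12002 * |d j|) ^ 2 = 144048004 * d j ^ 2 := by rw [mul_pow, sq_abs]; norm_num
    rw [c1, c2] at h5
    have c3 : 16 / m * Q = 16 * (1 / m * Q) := by ring
    have c4 : 0 ≤ 1 / m * Q := by positivity
    rw [c3] at h4
    linarith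
  have h7 : 0 ≤ (1 / 20 * Hx + 20 * Z) ^ 2 := sq_nonneg _
  have h8 : 1 / 200 * Hx ^ 2 ≤ B * Hx ^ 2 := mul_le_mul_of_nonneg_right hB (sq_nonneg _)
  nlinarith

end Pool.Agent.H18.KLS
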