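import Mathlib
import Pool.Agent.H18.KLS.Transp

set_option autoImplicit false

open MeasureTheory Set Filter Topology

namespace Pool.Agent.H18.KLS

variable {n : ℕ}

theorem integrableOn_of_cont {K : Set (EuclideanSpace ℝ (Fin n))} (hb : Bornology.IsBounded K)
    {g : EuclideanSpace ℝ (Fin n) → ℝ} (hg : Continuous g) : IntegrableOn g K :=
  (hg.continuousOn.integrableOn_compact hb.isCompact_closure).mono_set subset_closure

theorem half_transp {K : Set (EuclideanSpace ℝ (Fin n))} (hK : PermInv K) (hc : Convex ℝ K)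
    (ho : IsOpen K) (hb : Bornology.IsBounded K) (hl : ∀ x ∈ K, ∑ k, |x k| ≤ (n:ℝ))
    {i j : Fin n} (hij : i ≠ j) {W : EuclideanSpace ℝ (Fin n) → ℝ} (hW : ContDiff ℝ 1 W)
    (hW0 : ∀ x, 0 ≤ W x) (hWe : ∀ a b x, fderiv ℝ W x (ee a b) = 0)
    {h : EuclideanSpace ℝ (Fin n) → ℝ} (hh : ContDiff ℝ 1 h)
    (h0 : ∀ x : EuclideanSpace ℝ (Fin n), x i = x j → h x = 0) :
    ∫ x in K ∩ {x | x j < x i}, W x * h x ^ 2 ≤ 69160000000000 *
      ∫ x in K ∩ {x | x j < x i}, W x * ((fderiv ℝ h x (EuclideanSpace.single i 1)) ^ 2 +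
        (fderiv ℝ h x (EuclideanSpace.single j 1)) ^ 2 +
        1 / n * ∑ k, (fderiv ℝ h x (EuclideanSpace.single k 1)) ^ 2) := by
  have hn0 : 0 < n := Fin.pos i
  have hn : (0:ℝ) < n := by exact_mod_cast hn0
  have hKm : MeasurableSet K := ho.measurableSet
  have hPm : MeasurableSet {x : EuclideanSpace ℝ (Fin n) | x j < x i} :=
    measurableSet_lt (by fun_prop) (by fun_prop)
  set S : Set (EuclideanSpace ℝ (Fin n)) := K ∩ {x | x j < x i} with hS
  have hSm : MeasurableSet S := hKm.inter hPm
  have hhd : Differentiable ℝ h := hh.differentiable (by norm_num)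
  have hWd : Differentiable ℝ W := hW.differentiable (by norm_num)
  have hdc : Continuous (fun x => fderiv ℝ h x) := hh.continuous_fderiv (by norm_num)
  have hcuth : Continuous (cuth i j h) := continuous_cuth hh.continuous h0
  have hcc : ContDiff ℝ 1 (cutsq i j h) := contDiff_cutsq hh h0
  set H : EuclideanSpace ℝ (Fin n) → ℝ := fun x => cutsq i j h x * W x with hH
  have hHc : ContDiff ℝ 1 H := hcc.mul hW
  have hcsq : ∀ x, cutsq i j h x = cuth i j h x ^ 2 := by
    intro x; unfold cutsq cuth; split_ifs <;> simp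
  have hH0 : ∀ x, 0 ≤ H x := fun x => mul_nonneg (by rw [hcsq]; positivity) (hW0 x)
  -- derivative of h in coordinates
  set d : EuclideanSpace ℝ (Fin n) → Fin n → ℝ :=
    fun x k => fderiv ℝ h x (EuclideanSpace.single k 1) with hd
  have hdk : ∀ k, Continuous (fun x => d x k) := by
    intro k; simp only [hd]; fun_prop
  have hdH : ∀ x (a b : Fin n), fderiv ℝ H x (ee a b) = W x * (2 * cuth i j h x * (d x b - d x a)) := by
    intro x a b
    have h1 := (hasFDerivAt_cutsq hhd h0 x).mul (hWd x).hasFDerivAt
    have h2 : fderiv ℝ H x = _ := h1.fderiv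
    rw [h2]
    show cutsq i j h x * (fderiv ℝ W x) (ee a b) +
      W x * ((2 * cuth i j h x) * (fderiv ℝ h x) (ee a b)) = _
    rw [hWe a b x]
    have : (fderiv ℝ h x) (ee a b) = d x b - d x a := by simp only [hd, ee, map_sub]
    rw [this]; ring
  -- the three fluxes
  set α : EuclideanSpace ℝ (Fin n) → ℝ := fun x => 12000 * Real.exp (-(x i - x j) / 80000) with hα
  have hαc : ContDiff ℝ 1 α := by simp only [hα]; fun_prop
  have hα' : ∀ x, fderiv ℝ α x (ee i j) = 3 / 10 * Real.exp (-(x i - x j) / 80000) := by
    intro x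
    apply fderiv_two (φ := fun s t => 12000 * Real.exp (-(s - t) / 80000)) hαc
    rw [ee_left hij, ee_right hij]
    have h1 : HasDerivAt (fun t : ℝ => -((x i + t * -1) - (x j + t * 1)) / 80000) (2 / 80000) 0 := by
      have : (fun t : ℝ => -((x i + t * -1) - (x j + t * 1)) / 80000) =
          fun t : ℝ => -(x i - x j) / 80000 + t * (2 / 80000) := by funext t; ring
      rw [this]
      have := ((hasDerivAt_id (0:ℝ)).mul_const (2 / 80000)).const_add (-(x i - x j) / 80000)
      simpa using this
    have h2 := (h1.exp).const_mul 12000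
    refine h2.congr_deriv ?_
    simp only [zero_mul, add_zero]
    ring
  have F0 := flux_mul hK hc ho hb hij hαc hHc
    (fun x hx => by
      have : H x = 0 := by simp only [hH, cutsq, if_neg (not_lt.mpr hx.le), zero_mul]
      rw [this, mul_zero])
    (fun x _ => mul_nonneg (by simp only [hα]; positivity) (hH0 x)) hα'
  have F1 : ∀ k ∈ oth i j, ∫ x in K, (gg (x i) (x k) * H x +
      GG (x i) (x k) * fderiv ℝ H x (ee i k)) ≤ 0 := by
    intro k hk
    rw [mem_oth] at hk
    have hik : i ≠ k := hk.2.symm
    have hgc : ContDiff ℝ 1 (fun x : EuclideanSpace ℝ (Fin n) => GG (x i) (x k)) :=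
      contDiff_GG (contDiff_coord i) (contDiff_coord k)
    apply flux_mul hK hc ho hb hik hgc hHc
    · intro x hx
      apply mul_nonpos_of_nonpos_of_nonneg _ (hH0 x)
      unfold GG
      have := sg_pos (x k)
      have := om_pos (x i)
      apply mul_nonpos_of_nonpos_of_nonneg _ this.le
      apply mul_nonpos_of_nonpos_of_nonneg (by linarith) (sg_pos _).le
    · intro x hx
      apply mul_nonneg _ (hH0 x)
      unfold GG
      apply mul_nonneg (mul_nonneg (by linarith) (sg_pos _).le) (om_pos _).le
    · intro x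
      apply fderiv_two (φ := GG) hgc
      rw [ee_left hik, ee_right hik]
      have := hasDerivAt_GG (x i) (x k)
      simpa [sub_eq_add_neg] using this
  have F2 : ∀ k ∈ oth i j, ∫ x in K, (gg (-x j) (-x k) * H x +
      GG (-x j) (-x k) * fderiv ℝ H x (ee k j)) ≤ 0 := by
    intro k hk
    rw [mem_oth] at hk
    have hkj : k ≠ j := hk.1
    have hgc : ContDiff ℝ 1 (fun x : EuclideanSpace ℝ (Fin n) => GG (-x j) (-x k)) :=
      contDiff_GG (contDiff_coord j).neg (contDiff_coord k).neg
    apply flux_mul hK hc ho hb hkj hgc hHc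
    · intro x hx
      apply mul_nonpos_of_nonpos_of_nonneg _ (hH0 x)
      unfold GG
      apply mul_nonpos_of_nonpos_of_nonneg _ (om_pos _).le
      apply mul_nonpos_of_nonpos_of_nonneg (by linarith) (sg_pos _).le
    · intro x hx
      apply mul_nonneg _ (hH0 x)
      unfold GG
      apply mul_nonneg (mul_nonneg (by linarith) (sg_pos _).le) (om_pos _).le
    · intro x
      apply fderiv_two (φ := fun s t => GG (-s) (-t)) (a := j) (b := k) hgc
      rw [ee_left hkj, ee_right hkj]
      have := hasDerivAt_GG (-x j) (-x k)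
      have e : (fun t : ℝ => GG (-(x j + t * 1)) (-(x k + t * -1))) =
          fun t => GG (-x j - t) (-x k + t) := by
        funext t; congr 1 <;> ring
      rw [e]; exact this
  -- total
  set T : EuclideanSpace ℝ (Fin n) → ℝ := fun x =>
    (3 / 10 * Real.exp (-(x i - x j) / 80000) * H x + α x * fderiv ℝ H x (ee i j)) +
    1 / n * ∑ k ∈ oth i j, ((gg (x i) (x k) * H x + GG (x i) (x k) * fderiv ℝ H x (ee i k)) +
      (gg (-x j) (-x k) * H x + GG (-x j) (-x k) * fderiv ℝ H x (ee k j))) with hT
  have hHf : Continuous (fun x => fderiv ℝ H x) := hHc.continuous_fderiv (by norm_num)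
  have csg : Continuous sg := contDiff_sg.continuous
  have csg' : Continuous sg' := by
    unfold sg'
    apply Continuous.div (by fun_prop) (by fun_prop)
    intro x; have := sg_den x; positivity
  have crr : Continuous rr := contDiff_rr.continuous
  have com : Continuous om := contDiff_om.continuous
  have com' : Continuous om' := by
    unfold om'
    apply Continuous.div (by fun_prop) (by fun_prop)
    intro x; have := rr_pos x; positivity
  have cgg : Continuous (fun z : ℝ × ℝ => gg z.1 z.2) := by unfold gg; fun_prop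
  have cGG : Continuous (fun z : ℝ × ℝ => GG z.1 z.2) := by unfold GG; fun_prop
  have cT0 : Continuous (fun x : EuclideanSpace ℝ (Fin n) =>
      3 / 10 * Real.exp (-(x i - x j) / 80000) * H x + α x * fderiv ℝ H x (ee i j)) := by
    have := hHc.continuous
    have := hαc.continuous
    fun_prop
  have cT1 : ∀ k, Continuous (fun x : EuclideanSpace ℝ (Fin n) =>
      gg (x i) (x k) * H x + GG (x i) (x k) * fderiv ℝ H x (ee i k)) := by
    intro k
    have h1 := hHc.continuous
    have h2 : Continuous (fun x : EuclideanSpace ℝ (Fin n) => gg (x i) (x k)) :=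
      cgg.comp (by fun_prop : Continuous (fun x : EuclideanSpace ℝ (Fin n) => (x i, x k)))
    have h3 : Continuous (fun x : EuclideanSpace ℝ (Fin n) => GG (x i) (x k)) :=
      cGG.comp (by fun_prop : Continuous (fun x : EuclideanSpace ℝ (Fin n) => (x i, x k)))
    fun_prop
  have cT2 : ∀ k, Continuous (fun x : EuclideanSpace ℝ (Fin n) =>
      gg (-x j) (-x k) * H x + GG (-x j) (-x k) * fderiv ℝ H x (ee k j)) := by
    intro k
    have h1 := hHc.continuous
    have h2 : Continuous (fun x : EuclideanSpace ℝ (Fin n) => gg (-x j) (-x k)) :=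
      cgg.comp (by fun_prop : Continuous (fun x : EuclideanSpace ℝ (Fin n) => (-x j, -x k)))
    have h3 : Continuous (fun x : EuclideanSpace ℝ (Fin n) => GG (-x j) (-x k)) :=
      cGG.comp (by fun_prop : Continuous (fun x : EuclideanSpace ℝ (Fin n) => (-x j, -x k)))
    fun_prop
  have hTint : ∫ x in K, T x ≤ 0 := by
    simp only [hT]
    rw [integral_add (integrableOn_of_cont hb cT0)]
    · rw [integral_const_mul, integral_finsetSum]
      · have h1 : ∑ k ∈ oth i j, ∫ x in K, ((gg (x i) (x k) * H x +
            GG (x i) (x k) * fderiv ℝ H x (ee i k)) +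
            (gg (-x j) (-x k) * H x + GG (-x j) (-x k) * fderiv ℝ H x (ee k j))) ≤ 0 := by
          apply Finset.sum_nonpos
          intro k hk
          rw [integral_add (integrableOn_of_cont hb (cT1 k)) (integrableOn_of_cont hb (cT2 k))]
          linarith [F1 k hk, F2 k hk]
        have h2 : 1 / (n:ℝ) * ∑ k ∈ oth i j, ∫ x in K, ((gg (x i) (x k) * H x +
            GG (x i) (x k) * fderiv ℝ H x (ee i k)) +
            (gg (-x j) (-x k) * H x + GG (-x j) (-x k) * fderiv ℝ H x (ee k j))) ≤ 0 :=
          mul_nonpos_of_nonneg_of_nonpos (by positivity) h1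
        linarith [F0]
      · intro k _
        exact integrableOn_of_cont hb ((cT1 k).add (cT2 k))
    · apply Integrable.const_mul
      apply integrable_finsetSum
      intro k _
      exact integrableOn_of_cont hb ((cT1 k).add (cT2 k))
  -- rewrite T
  have hTeq : ∀ x, T x = W x * ((3 / 10 * Real.exp (-(x i - x j) / 80000) +
      1 / n * ∑ k ∈ oth i j, (gg (x i) (x k) + gg (-x j) (-x k))) * cuth i j h x ^ 2 +
      2 * cuth i j h x * (α x * (d x j - d x i) + 1 / n * ∑ k ∈ oth i j,
        (GG (x i) (x k) * (d x k - d x i) + GG (-x j) (-x k) * (d x j - d x k)))) := by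
    intro x
    simp only [hT, hdH]
    simp only [hH, hcsq]
    have e1 : ∑ k ∈ oth i j, ((gg (x i) (x k) * (cuth i j h x ^ 2 * W x) +
        GG (x i) (x k) * (W x * (2 * cuth i j h x * (d x k - d x i)))) +
        (gg (-x j) (-x k) * (cuth i j h x ^ 2 * W x) +
        GG (-x j) (-x k) * (W x * (2 * cuth i j h x * (d x j - d x k))))) =
        (∑ k ∈ oth i j, (gg (x i) (x k) + gg (-x j) (-x k))) * (cuth i j h x ^ 2 * W x) +
        (∑ k ∈ oth i j, (GG (x i) (x k) * (d x k - d x i) + GG (-x j) (-x k) * (d x j - d x k))) *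
          (W x * (2 * cuth i j h x)) := by
      rw [Finset.sum_mul, Finset.sum_mul, ← Finset.sum_add_distrib]
      apply Finset.sum_congr rfl
      intro k _; ring
    rw [e1]; ring
  have hTS : ∫ x in S, T x ≤ 0 := by
    have h1 : ∫ x in K, T x = ∫ x in S, T x := by
      apply setIntegral_eq_of_subset_of_forall_sdiff_eq_zero hKm inter_subset_left
      rintro x ⟨hx, hx2⟩
      have h2 : ¬ (x j < x i) := fun h3 => hx2 ⟨hx, h3⟩
      have h3 : cuth i j h x = 0 := if_neg h2
      rw [hTeq, h3]; ring
    rw [← h1]; exact hTint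
  have hSb : Bornology.IsBounded S := hb.subset inter_subset_left
  have cR : Continuous (fun x => W x * (d x i ^ 2 + d x j ^ 2 + 1 / n * ∑ k, d x k ^ 2)) := by
    have := hW.continuous
    have h1 : Continuous (fun x => ∑ k, d x k ^ 2) :=
      continuous_finsetSum _ (fun k _ => (hdk k).pow 2)
    have := hdk i
    have := hdk j
    fun_prop
  have cL : Continuous (fun x => W x * h x ^ 2) := hW.continuous.mul (hh.continuous.pow 2)
  have cT : Continuous T := by
    simp only [hT]
    exact cT0.add ((continuous_finsetSum _ (fun k _ => (cT1 k).add (cT2 k))).const_mul _)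
  have hmain : ∫ x in S, (1 / 400 * (W x * h x ^ 2) -
      172900000000 * (W x * (d x i ^ 2 + d x j ^ 2 + 1 / n * ∑ k, d x k ^ 2))) ≤
      ∫ x in S, T x := by
    apply setIntegral_mono_on _ (integrableOn_of_cont hSb cT) hSm
    · intro x hx
      have h1 : cuth i j h x = h x := if_pos hx.2
      rw [hTeq, h1]
      have h2 := brk hij (fun k => x k) (hl x hx.1)
      have hexp1 : Real.exp (-(x i - x j) / 80000) ≤ 1 := by
        apply Real.exp_le_one_iff.mpr
        have : 0 < x i - x j := sub_pos.mpr hx.2
        have h3 : 0 < (x i - x j) / 80000 := by positivity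
        rw [neg_div]; linarith
      have h3 := pointwise_bound hij hn (α x) _ (h x) (by simp only [hα]; positivity)
        (by simp only [hα]; nlinarith) h2 (d x) (fun k => GG (x i) (x k))
        (fun k => GG (-x j) (-x k)) (fun k => abs_GG_le _ _) (fun k => abs_GG_le _ _)
      have h4 := mul_le_mul_of_nonneg_left h3 (hW0 x)
      refine le_trans (le_of_eq ?_) h4
      ring
    · exact ((integrableOn_of_cont hSb cL).const_mul _).sub
        ((integrableOn_of_cont hSb cR).const_mul _)
  rw [integral_sub ((integrableOn_of_cont hSb cL).const_mul _)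
    ((integrableOn_of_cont hSb cR).const_mul _), integral_const_mul, integral_const_mul] at hmain
  linarith

end Pool.Agent.H18.KLS
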