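import Mathlib
import Pool.Agent.H18.KLS.Transp2
import Pool.Agent.H18.KLS.RT2

set_option autoImplicit false

open MeasureTheory Set Filter Topology

namespace Pool.Agent.H18.KLS

variable {n : ℕ}

theorem full_transp {K : Set (EuclideanSpace ℝ (Fin n))} (hK : PermInv K) (hc : Convex ℝ K)
    (ho : IsOpen K) (hb : Bornology.IsBounded K) (hl : ∀ x ∈ K, ∑ k, |x k| ≤ (n:ℝ))
    {i j : Fin n} (hij : i ≠ j) {W : EuclideanSpace ℝ (Fin n) → ℝ} (hW : ContDiff ℝ 1 W)
    (hW0 : ∀ x, 0 ≤ W x) (hWe : ∀ a b x, fderiv ℝ W x (ee a b) = 0)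
    {h : EuclideanSpace ℝ (Fin n) → ℝ} (hh : ContDiff ℝ 1 h)
    (h0 : ∀ x : EuclideanSpace ℝ (Fin n), x i = x j → h x = 0) :
    ∫ x in K, W x * h x ^ 2 ≤ 69160000000000 *
      ∫ x in K, W x * ((fderiv ℝ h x (EuclideanSpace.single i 1)) ^ 2 +
        (fderiv ℝ h x (EuclideanSpace.single j 1)) ^ 2 +
        1 / n * ∑ k, (fderiv ℝ h x (EuclideanSpace.single k 1)) ^ 2) := by
  have hm : MeasurableSet K := ho.measurableSet
  have hPm : MeasurableSet {x : EuclideanSpace ℝ (Fin n) | x j < x i} :=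
    measurableSet_lt (by fun_prop) (by fun_prop)
  have hNm : MeasurableSet {x : EuclideanSpace ℝ (Fin n) | x i < x j} :=
    measurableSet_lt (by fun_prop) (by fun_prop)
  have hdc : Continuous (fun x => fderiv ℝ h x) := hh.continuous_fderiv (by norm_num)
  have hd : Disjoint (K ∩ {x : EuclideanSpace ℝ (Fin n) | x j < x i}) (K ∩ {x | x i < x j}) := by
    rw [Set.disjoint_left]
    rintro x ⟨_, h1⟩ ⟨_, h2⟩
    exact absurd (lt_trans (show x i < x j from h2) h1) (lt_irrefl _)
  have h1 := half_transp hK hc ho hb hl hij hW hW0 hWe hh h0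
  have h2 := half_transp hK hc ho hb hl hij.symm hW hW0 hWe hh (fun x hx => h0 x hx.symm)
  set R : EuclideanSpace ℝ (Fin n) → ℝ := fun x =>
    W x * ((fderiv ℝ h x (EuclideanSpace.single i 1)) ^ 2 +
        (fderiv ℝ h x (EuclideanSpace.single j 1)) ^ 2 +
        1 / n * ∑ k, (fderiv ℝ h x (EuclideanSpace.single k 1)) ^ 2) with hR
  have cR : Continuous R := by
    have g1 := hW.continuous
    have g2 : ∀ k : Fin n, Continuous (fun x => fderiv ℝ h x (EuclideanSpace.single k 1)) := by
      intro k; fun_prop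
    have g3 : Continuous (fun x => ∑ k : Fin n, (fderiv ℝ h x (EuclideanSpace.single k 1)) ^ 2) :=
      continuous_finsetSum _ (fun k _ => (g2 k).pow 2)
    exact g1.mul ((((g2 i).pow 2).add ((g2 j).pow 2)).add (g3.const_mul _))
  have hR0 : ∀ x, 0 ≤ R x := by
    intro x
    apply mul_nonneg (hW0 x)
    have : 0 ≤ ∑ k : Fin n, (fderiv ℝ h x (EuclideanSpace.single k 1)) ^ 2 :=
      Finset.sum_nonneg (fun k _ => sq_nonneg _)
    positivity
  have e2 : ∫ x in K ∩ {x | x i < x j}, W x * ((fderiv ℝ h x (EuclideanSpace.single j 1)) ^ 2 +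
        (fderiv ℝ h x (EuclideanSpace.single i 1)) ^ 2 +
        1 / n * ∑ k, (fderiv ℝ h x (EuclideanSpace.single k 1)) ^ 2) =
      ∫ x in K ∩ {x | x i < x j}, R x := by
    apply integral_congr_ae
    filter_upwards with x
    simp only [hR]
    ring
  rw [e2] at h2
  have cL : Continuous (fun x => W x * h x ^ 2) := hW.continuous.mul (hh.continuous.pow 2)
  have hL : ∫ x in K, W x * h x ^ 2 = (∫ x in K ∩ {x | x j < x i}, W x * h x ^ 2) +
      ∫ x in K ∩ {x | x i < x j}, W x * h x ^ 2 := by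
    have hg := integrableOn_of_cont hb cL
    rw [← setIntegral_union hd (hm.inter hNm) (hg.mono_set inter_subset_left)
      (hg.mono_set inter_subset_left)]
    apply setIntegral_eq_of_subset_of_forall_sdiff_eq_zero hm
    · exact union_subset inter_subset_left inter_subset_left
    · rintro x ⟨hx, hx2⟩
      have : x i = x j := by
        by_contra hne
        rcases lt_or_gt_of_ne hne with h1 | h1
        · exact hx2 (Or.inr ⟨hx, h1⟩)
        · exact hx2 (Or.inl ⟨hx, h1⟩)
      rw [h0 x this]; norm_num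
  have hRR : (∫ x in K ∩ {x | x j < x i}, R x) + (∫ x in K ∩ {x | x i < x j}, R x) ≤
      ∫ x in K, R x := by
    have hg := integrableOn_of_cont hb cR
    rw [← setIntegral_union hd (hm.inter hNm) (hg.mono_set inter_subset_left)
      (hg.mono_set inter_subset_left)]
    apply setIntegral_mono_set hg
    · filter_upwards with x using hR0 x
    · apply LE.le.eventuallyLE
      exact union_subset inter_subset_left inter_subset_left
  rw [hL]
  linarith

/-- coordinate permutation as an isometry: `(pm σ x) j = x (σ j)` -/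
noncomputable def pm (σ : Equiv.Perm (Fin n)) :
    EuclideanSpace ℝ (Fin n) ≃ₗᵢ[ℝ] EuclideanSpace ℝ (Fin n) :=
  LinearIsometryEquiv.piLpCongrLeft 2 ℝ ℝ σ.symm

theorem pm_apply (σ : Equiv.Perm (Fin n)) (x : EuclideanSpace ℝ (Fin n)) (k : Fin n) :
    pm σ x k = x (σ k) := by
  simp [pm, LinearIsometryEquiv.piLpCongrLeft_apply, Equiv.piCongrLeft'_apply]

theorem pm_mul (σ τ : Equiv.Perm (Fin n)) (x : EuclideanSpace ℝ (Fin n)) :
    pm (σ * τ) x = pm τ (pm σ x) := by
  ext j; rw [pm_apply, pm_apply, pm_apply]; rfl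

theorem pm_one (x : EuclideanSpace ℝ (Fin n)) : pm (1 : Equiv.Perm (Fin n)) x = x := by
  ext j; rw [pm_apply]; rfl

theorem pm_preimage {K : Set (EuclideanSpace ℝ (Fin n))} (hK : PermInv K)
    (σ : Equiv.Perm (Fin n)) : pm σ ⁻¹' K = K := by
  have key : ∀ σ : Equiv.Perm (Fin n), ∀ x, x ∈ K → pm σ x ∈ K := fun σ x hx =>
    hK σ x _ hx (fun k => pm_apply σ x k)
  ext x
  refine ⟨fun h => ?_, key σ x⟩
  have h2 := key σ⁻¹ _ h
  rwa [← pm_mul, mul_inv_cancel, pm_one] at h2

theorem integral_pm {K : Set (EuclideanSpace ℝ (Fin n))} (hK : PermInv K)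
    (σ : Equiv.Perm (Fin n)) (g : EuclideanSpace ℝ (Fin n) → ℝ) :
    ∫ x in K, g (pm σ x) = ∫ x in K, g x := by
  have := (pm σ).measurePreserving.setIntegral_preimage_emb
    (pm σ).toHomeomorph.measurableEmbedding g K
  rwa [pm_preimage hK σ] at this

/-- symmetrisation -/
noncomputable def sym (f : EuclideanSpace ℝ (Fin n) → ℝ) (x : EuclideanSpace ℝ (Fin n)) : ℝ :=
  (∑ σ : Equiv.Perm (Fin n), f (pm σ x)) / (Nat.factorial n)

theorem noninv {K : Set (EuclideanSpace ℝ (Fin n))} (hK : PermInv K)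
    (hb : Bornology.IsBounded K) (hn : 0 < n) {f : EuclideanSpace ℝ (Fin n) → ℝ}
    (hf : Continuous f) :
    (∫ x in K, f x ^ 2) - (∫ x in K, sym f x ^ 2) ≤
      1 / n * ∑ l, ∑ m, ∫ x in K, (f x - f (pm (Equiv.swap l m) x)) ^ 2 := by
  have hn' : (0:ℝ) < n := by exact_mod_cast hn
  have hf0 : (0:ℝ) < Nat.factorial n := by exact_mod_cast Nat.factorial_pos n
  have hcp : ∀ σ : Equiv.Perm (Fin n), Continuous (fun x => f (pm σ x)) := fun σ =>
    hf.comp (pm σ).continuous
  have h1 : ∀ x : EuclideanSpace ℝ (Fin n),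
      (n:ℝ) * (∑ σ : Equiv.Perm (Fin n), f (pm σ x) ^ 2 - Nat.factorial n * sym f x ^ 2) ≤
      ∑ l, ∑ m, ∑ σ : Equiv.Perm (Fin n), (f (pm σ x) - f (pm (Equiv.swap l m) (pm σ x))) ^ 2 := by
    intro x
    have h2 := RT.perm_var (fun σ => f (pm σ x))
    have e1 : (∑ σ : Equiv.Perm (Fin n), f (pm σ x)) ^ 2 / (Nat.factorial n) =
        Nat.factorial n * sym f x ^ 2 := by
      unfold sym; field_simp
    rw [e1] at h2
    refine h2.trans (le_of_eq ?_)
    apply Finset.sum_congr rfl; intro l _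
    apply Finset.sum_congr rfl; intro m _
    apply Finset.sum_congr rfl; intro σ _
    rw [pm_mul]
  have csym : Continuous (sym f) := by
    unfold sym
    exact (continuous_finsetSum _ (fun σ _ => hcp σ)).div_const _
  have c1 : Continuous (fun x => ∑ σ : Equiv.Perm (Fin n), f (pm σ x) ^ 2) :=
    continuous_finsetSum _ (fun σ _ => (hcp σ).pow 2)
  have c3 : ∀ (l m : Fin n) (σ : Equiv.Perm (Fin n)), Continuous (fun x =>
      (f (pm σ x) - f (pm (Equiv.swap l m) (pm σ x))) ^ 2) := by
    intro l m σ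
    exact ((hcp σ).sub (hf.comp ((pm (Equiv.swap l m)).continuous.comp (pm σ).continuous))).pow 2
  have hint : ∀ {g : EuclideanSpace ℝ (Fin n) → ℝ}, Continuous g → IntegrableOn g K :=
    fun hg => integrableOn_of_cont hb hg
  have cL : Continuous (fun x => (n:ℝ) * (∑ σ : Equiv.Perm (Fin n), f (pm σ x) ^ 2 -
      Nat.factorial n * sym f x ^ 2)) :=
    (c1.sub ((csym.pow 2).const_mul _)).const_mul _
  have cR : Continuous (fun x => ∑ l, ∑ m, ∑ σ : Equiv.Perm (Fin n),
        (f (pm σ x) - f (pm (Equiv.swap l m) (pm σ x))) ^ 2) :=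
    continuous_finsetSum _ (fun l _ => continuous_finsetSum _ (fun m _ =>
      continuous_finsetSum _ (fun σ _ => c3 l m σ)))
  have h3 : ∫ x in K, (n:ℝ) * (∑ σ : Equiv.Perm (Fin n), f (pm σ x) ^ 2 -
      Nat.factorial n * sym f x ^ 2) ≤
      ∫ x in K, ∑ l, ∑ m, ∑ σ : Equiv.Perm (Fin n),
        (f (pm σ x) - f (pm (Equiv.swap l m) (pm σ x))) ^ 2 :=
    setIntegral_mono (hint cL) (hint cR) h1
  have hcard : (Fintype.card (Equiv.Perm (Fin n)) : ℝ) = Nat.factorial n := by
    rw [Fintype.card_perm, Fintype.card_fin]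
  have e2 : ∫ x in K, (n:ℝ) * (∑ σ : Equiv.Perm (Fin n), f (pm σ x) ^ 2 -
      Nat.factorial n * sym f x ^ 2) =
      n * (Nat.factorial n * (∫ x in K, f x ^ 2) - Nat.factorial n * ∫ x in K, sym f x ^ 2) := by
    have j1 : IntegrableOn (fun x => (Nat.factorial n : ℝ) * sym f x ^ 2) K :=
      hint ((csym.pow 2).const_mul _)
    have j2 : ∀ σ : Equiv.Perm (Fin n), IntegrableOn (fun x => f (pm σ x) ^ 2) K :=
      fun σ => hint ((hcp σ).pow 2)
    rw [integral_const_mul, integral_sub (hint c1) j1,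
      integral_const_mul, integral_finsetSum _ (fun σ _ => j2 σ)]
    congr 2
    rw [Finset.sum_congr rfl (fun σ _ => integral_pm hK σ (fun x => f x ^ 2)), Finset.sum_const,
      Finset.card_univ, nsmul_eq_mul, hcard]
  have e3 : ∫ x in K, ∑ l, ∑ m, ∑ σ : Equiv.Perm (Fin n),
        (f (pm σ x) - f (pm (Equiv.swap l m) (pm σ x))) ^ 2 =
      Nat.factorial n * ∑ l, ∑ m, ∫ x in K, (f x - f (pm (Equiv.swap l m) x)) ^ 2 := by
    rw [integral_finsetSum _ (fun l _ => hint (continuous_finsetSum _ (fun m _ =>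
      continuous_finsetSum _ (fun σ _ => c3 l m σ)))), Finset.mul_sum]
    apply Finset.sum_congr rfl; intro l _
    rw [integral_finsetSum _ (fun m _ => hint (continuous_finsetSum _ (fun σ _ => c3 l m σ))),
      Finset.mul_sum]
    apply Finset.sum_congr rfl; intro m _
    rw [integral_finsetSum _ (fun σ _ => hint (c3 l m σ))]
    rw [Finset.sum_congr rfl (fun σ _ =>
      integral_pm hK σ (fun x => (f x - f (pm (Equiv.swap l m) x)) ^ 2)), Finset.sum_const,
      Finset.card_univ, nsmul_eq_mul, hcard]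
  rw [e2, e3] at h3
  have h4 : (n:ℝ) * ((∫ x in K, f x ^ 2) - ∫ x in K, sym f x ^ 2) ≤
      ∑ l, ∑ m, ∫ x in K, (f x - f (pm (Equiv.swap l m) x)) ^ 2 := by
    have h5 : (Nat.factorial n : ℝ) * ((n:ℝ) * ((∫ x in K, f x ^ 2) - ∫ x in K, sym f x ^ 2)) ≤
        Nat.factorial n * ∑ l, ∑ m, ∫ x in K, (f x - f (pm (Equiv.swap l m) x)) ^ 2 := by
      refine le_trans (le_of_eq ?_) h3
      ring
    exact le_of_mul_le_mul_left h5 hf0
  rw [one_div, inv_mul_eq_div, le_div_iff₀ hn']
  linarith

theorem fderiv_comp_iso (T : EuclideanSpace ℝ (Fin n) ≃ₗᵢ[ℝ] EuclideanSpace ℝ (Fin n))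
    {f : EuclideanSpace ℝ (Fin n) → ℝ} (hf : Differentiable ℝ f) (x v : EuclideanSpace ℝ (Fin n)) :
    fderiv ℝ (fun y => f (T y)) x v = fderiv ℝ f (T x) (T v) := by
  have h1 : HasFDerivAt (fun y => T y)
      (T : EuclideanSpace ℝ (Fin n) →L[ℝ] EuclideanSpace ℝ (Fin n)) x :=
    (T : EuclideanSpace ℝ (Fin n) →L[ℝ] EuclideanSpace ℝ (Fin n)).hasFDerivAt
  have h2 : fderiv ℝ (fun y => f (T y)) x = _ := ((hf (T x)).hasFDerivAt.comp x h1).fderiv
  rw [h2]; rfl

theorem pm_single (σ : Equiv.Perm (Fin n)) (k : Fin n) :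
    pm σ (EuclideanSpace.single k (1:ℝ)) = EuclideanSpace.single (σ.symm k) (1:ℝ) := by
  ext j
  rw [pm_apply]
  by_cases h : σ j = k
  · have : j = σ.symm k := by rw [← h]; simp
    subst this
    simp
  · have : j ≠ σ.symm k := fun h2 => h (by rw [h2]; simp)
    simp [h, this]

/-- The part of a function orthogonal to the symmetric functions. -/
theorem noninv_poincare {K : Set (EuclideanSpace ℝ (Fin n))} (hK : PermInv K) (hc : Convex ℝ K)
    (ho : IsOpen K) (hb : Bornology.IsBounded K) (hl : ∀ x ∈ K, ∑ k, |x k| ≤ (n:ℝ)) (hn : 0 < n)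
    {f : EuclideanSpace ℝ (Fin n) → ℝ} (hf : ContDiff ℝ 1 f) :
    (∫ x in K, f x ^ 2) - (∫ x in K, sym f x ^ 2) ≤
      829920000000000 * ∫ x in K, ∑ k, (fderiv ℝ f x (EuclideanSpace.single k 1)) ^ 2 := by
  have hn' : (0:ℝ) < n := by exact_mod_cast hn
  have hfd : Differentiable ℝ f := hf.differentiable (by norm_num)
  have hdc : Continuous (fun x => fderiv ℝ f x) := hf.continuous_fderiv (by norm_num)
  set D : Fin n → ℝ := fun k => ∫ x in K, (fderiv ℝ f x (EuclideanSpace.single k 1)) ^ 2 with hD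
  have hD0 : ∀ k, 0 ≤ D k := fun k => integral_nonneg (fun x => sq_nonneg _)
  have cD : ∀ k : Fin n, Continuous (fun x => (fderiv ℝ f x (EuclideanSpace.single k 1)) ^ 2) := by
    intro k; fun_prop
  have hDs : ∫ x in K, ∑ k, (fderiv ℝ f x (EuclideanSpace.single k 1)) ^ 2 = ∑ k, D k :=
    integral_finsetSum _ (fun k _ => integrableOn_of_cont hb (cD k))
  rw [hDs]
  set Q := ∑ k, D k with hQ
  have hQ0 : 0 ≤ Q := Finset.sum_nonneg (fun k _ => hD0 k)
  have key : ∀ l m : Fin n, ∫ x in K, (f x - f (pm (Equiv.swap l m) x)) ^ 2 ≤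
      276640000000000 * (D l + D m + 1 / n * Q) := by
    intro l m
    by_cases hlm : l = m
    · subst hlm
      have : ∀ x, (f x - f (pm (Equiv.swap l l) x)) ^ 2 = 0 := by
        intro x
        rw [Equiv.swap_self]
        have : (Equiv.refl (Fin n)) = (1 : Equiv.Perm (Fin n)) := rfl
        rw [this, pm_one]; ring
      simp_rw [this]
      rw [integral_zero]
      have := hD0 l
      positivity
    set s := pm (Equiv.swap l m) with hs
    set h : EuclideanSpace ℝ (Fin n) → ℝ := fun x => f x - f (s x) with hh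
    have hhc : ContDiff ℝ 1 h := hf.sub (hf.comp s.contDiff)
    have h0 : ∀ x : EuclideanSpace ℝ (Fin n), x l = x m → h x = 0 := by
      intro x hx
      have : s x = x := by
        ext j
        rw [hs, pm_apply]
        rcases eq_or_ne j l with h1 | h1
        · subst h1; rw [Equiv.swap_apply_left]; exact hx.symm
        · rcases eq_or_ne j m with h2 | h2
          · subst h2; rw [Equiv.swap_apply_right]; exact hx
          · rw [Equiv.swap_apply_of_ne_of_ne h1 h2]
      simp only [hh, this]; ring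
    have h1 := full_transp hK hc ho hb hl hlm (W := fun _ => 1) contDiff_const
      (fun _ => by norm_num) (fun a b x => by simp) hhc h0
    simp only [one_mul] at h1
    have hder : ∀ (x : EuclideanSpace ℝ (Fin n)) (k : Fin n),
        fderiv ℝ h x (EuclideanSpace.single k 1) = fderiv ℝ f x (EuclideanSpace.single k 1) -
          fderiv ℝ f (s x) (EuclideanSpace.single (Equiv.swap l m k) 1) := by
      intro x k
      have g1 : DifferentiableAt ℝ (fun y => f (s y)) x :=
        (hfd (s x)).comp x s.differentiable.differentiableAt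
      have g2 : fderiv ℝ h x = fderiv ℝ f x - fderiv ℝ (fun y => f (s y)) x :=
        fderiv_fun_sub (hfd x) g1
      rw [g2]
      show fderiv ℝ f x _ - fderiv ℝ (fun y => f (s y)) x _ = _
      rw [fderiv_comp_iso s hfd, hs, pm_single, Equiv.symm_swap]
    have hpt : ∀ (x : EuclideanSpace ℝ (Fin n)) (k : Fin n),
        (fderiv ℝ h x (EuclideanSpace.single k 1)) ^ 2 ≤
        2 * (fderiv ℝ f x (EuclideanSpace.single k 1)) ^ 2 +
        2 * (fderiv ℝ f (s x) (EuclideanSpace.single (Equiv.swap l m k) 1)) ^ 2 := by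
      intro x k
      rw [hder]
      nlinarith [sq_nonneg (fderiv ℝ f x (EuclideanSpace.single k 1) +
        fderiv ℝ f (s x) (EuclideanSpace.single (Equiv.swap l m k) 1))]
    have cs : ∀ k : Fin n, Continuous (fun x =>
        (fderiv ℝ f (s x) (EuclideanSpace.single k 1)) ^ 2) := fun k => (cD k).comp s.continuous
    have hhdc : Continuous (fun x => fderiv ℝ h x) := hhc.continuous_fderiv (by norm_num)
    have ch : ∀ k : Fin n, Continuous (fun x => (fderiv ℝ h x (EuclideanSpace.single k 1)) ^ 2) := by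
      intro k; fun_prop
    have hI : ∀ k : Fin n, ∫ x in K, (fderiv ℝ h x (EuclideanSpace.single k 1)) ^ 2 ≤
        2 * D k + 2 * D (Equiv.swap l m k) := by
      intro k
      have j1 : IntegrableOn (fun x => 2 * (fderiv ℝ f x (EuclideanSpace.single k 1)) ^ 2) K :=
        (integrableOn_of_cont hb (cD k)).const_mul 2
      have j2 : IntegrableOn (fun x =>
          2 * (fderiv ℝ f (s x) (EuclideanSpace.single (Equiv.swap l m k) 1)) ^ 2) K :=
        (integrableOn_of_cont hb (cs _)).const_mul 2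
      calc ∫ x in K, (fderiv ℝ h x (EuclideanSpace.single k 1)) ^ 2
          ≤ ∫ x in K, (2 * (fderiv ℝ f x (EuclideanSpace.single k 1)) ^ 2 +
            2 * (fderiv ℝ f (s x) (EuclideanSpace.single (Equiv.swap l m k) 1)) ^ 2) :=
            setIntegral_mono (integrableOn_of_cont hb (ch k)) (j1.add j2) (fun x => hpt x k)
        _ = 2 * D k + 2 * D (Equiv.swap l m k) := by
            rw [integral_add j1 j2, integral_const_mul, integral_const_mul]
            have := integral_pm hK (Equiv.swap l m)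
              (fun x => (fderiv ℝ f x (EuclideanSpace.single (Equiv.swap l m k) 1)) ^ 2)
            rw [← hs] at this
            rw [this]
    have hsum : ∫ x in K, ((fderiv ℝ h x (EuclideanSpace.single l 1)) ^ 2 +
        (fderiv ℝ h x (EuclideanSpace.single m 1)) ^ 2 +
        1 / n * ∑ k, (fderiv ℝ h x (EuclideanSpace.single k 1)) ^ 2) ≤
        4 * (D l + D m + 1 / n * Q) := by
      have csum : Continuous (fun x => ∑ k : Fin n, (fderiv ℝ h x (EuclideanSpace.single k 1)) ^ 2) :=
        continuous_finsetSum _ (fun k _ => ch k)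
      have i1 : IntegrableOn (fun x => (fderiv ℝ h x (EuclideanSpace.single l 1)) ^ 2 +
        (fderiv ℝ h x (EuclideanSpace.single m 1)) ^ 2) K :=
        integrableOn_of_cont hb ((ch l).add (ch m))
      have i2 : IntegrableOn (fun x => 1 / (n:ℝ) *
        ∑ k : Fin n, (fderiv ℝ h x (EuclideanSpace.single k 1)) ^ 2) K :=
        (integrableOn_of_cont hb csum).const_mul _
      rw [integral_add i1 i2, integral_add (integrableOn_of_cont hb (ch l))
        (integrableOn_of_cont hb (ch m)), integral_const_mul,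
        integral_finsetSum _ (fun k _ => integrableOn_of_cont hb (ch k))]
      have e1 := hI l
      have e2 := hI m
      rw [Equiv.swap_apply_left] at e1
      rw [Equiv.swap_apply_right] at e2
      have e3 : ∑ k : Fin n, ∫ x in K, (fderiv ℝ h x (EuclideanSpace.single k 1)) ^ 2 ≤ 4 * Q := by
        calc _ ≤ ∑ k : Fin n, (2 * D k + 2 * D (Equiv.swap l m k)) :=
              Finset.sum_le_sum (fun k _ => hI k)
          _ = 4 * Q := by
              rw [Finset.sum_add_distrib, ← Finset.mul_sum, ← Finset.mul_sum,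
                Equiv.sum_comp (Equiv.swap l m) D]
              ring
      have e4 : 1 / (n:ℝ) * ∑ k : Fin n, ∫ x in K, (fderiv ℝ h x (EuclideanSpace.single k 1)) ^ 2 ≤
          1 / n * (4 * Q) := mul_le_mul_of_nonneg_left e3 (by positivity)
      have e5 : 1 / (n:ℝ) * (4 * Q) = 4 * (1 / n * Q) := by ring
      linarith
    linarith
  have h1 := noninv hK hb hn hf.continuous
  refine h1.trans ?_
  have h2 : ∑ l : Fin n, ∑ m : Fin n, ∫ x in K, (f x - f (pm (Equiv.swap l m) x)) ^ 2 ≤
      ∑ l : Fin n, ∑ m : Fin n, 276640000000000 * (D l + D m + 1 / n * Q) :=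
    Finset.sum_le_sum (fun l _ => Finset.sum_le_sum (fun m _ => key l m))
  have h3 : ∑ l : Fin n, ∑ m : Fin n, 276640000000000 * (D l + D m + 1 / n * Q) =
      n * (829920000000000 * Q) := by
    simp only [← Finset.mul_sum, Finset.sum_add_distrib, Finset.sum_const, Finset.card_univ,
      Fintype.card_fin, nsmul_eq_mul]
    rw [← hQ]
    field_simp
    ring
  rw [h3] at h2
  rw [one_div, inv_mul_eq_div, div_le_iff₀ hn']
  linarith

end Pool.Agent.H18.KLS
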