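import Pool.Agent.H18.KLS.Final

set_option autoImplicit false

open MeasureTheory
open scoped ENNReal NNReal

namespace Pool.Agent.H18.KLS.OneSymmetricOld

/-- The hyperplane conjecture of Kannan, Lovasz and Simonovits, in the form of the question, holds
with an absolute constant for all convex bodies that are invariant under permutations and sign
changes of the coordinates; moreover every central hyperplane section, not only the smallest one,
is controlled, and the set `E` of half the volume is arbitrary. -/
theorem result :
    ∃ C : ℝ≥0, ∀ (n : ℕ) (Ω E : Set (EuclideanSpace ℝ (Fin n))),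
      IsOpen Ω → Convex ℝ Ω → Bornology.IsBounded Ω →
      (∀ (σ : Equiv.Perm (Fin n)) (ε : Fin n → ℝ), (∀ j, ε j = 1 ∨ ε j = -1) →
        ∀ x ∈ Ω, (WithLp.toLp 2 (fun j => ε j * x (σ j)) : EuclideanSpace ℝ (Fin n)) ∈ Ω) →
      MeasurableSet E → E ⊆ Ω → volume E = volume Ω / 2 →
      ∀ a : EuclideanSpace ℝ (Fin n), a ≠ 0 →
        μH[(n : ℝ) - 1] {x | x ∈ Ω ∧ inner ℝ a x = (0 : ℝ)}
          ≤ (C : ℝ≥0∞) * μH[(n : ℝ) - 1] (Ω ∩ frontier E) := by
  refine ⟨16000000, ?_⟩
  intro n Ω E ho hc hb hs hE hEΩ hEv a ha
  have hK : Pool.Agent.H18.KLS.OneSymm Ω := by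
    constructor
    · intro σ x y hx hy
      have h := hs σ (fun _ => 1) (fun _ => Or.inl rfl) x hx
      have e : (WithLp.toLp 2 (fun j => (1:ℝ) * x (σ j)) : EuclideanSpace ℝ (Fin n)) = y := by
        ext j
        simp [hy j]
      rwa [e] at h
    · intro x y hx hy
      classical
      have h := hs (Equiv.refl _) (fun j => if y j = x j then 1 else -1)
        (fun j => by by_cases h : y j = x j <;> simp [h]) x hx
      have e : (WithLp.toLp 2 (fun j => (if y j = x j then (1:ℝ) else -1) * x (Equiv.refl _ j)) :
          EuclideanSpace ℝ (Fin n)) = y := by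
        ext j
        by_cases h : y j = x j
        · simp [h]
        · rcases abs_eq_abs.mp (hy j) with h2 | h2
          · exact absurd h2 h
          · show (if y j = x j then (1:ℝ) else -1) * x j = y j
            rw [if_neg h, h2]
            ring
      rwa [e] at h
  cases n with
  | zero => exact absurd (Subsingleton.elim a 0) ha
  | succ n =>
    have := Pool.Agent.H18.KLS.main_one_symm ho hc hb hK hE hEΩ hEv a ha
    refine this.trans (le_of_eq ?_)
    congr 1
    norm_num

end Pool.Agent.H18.KLS.OneSymmetricOld
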