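import Pool.Agent.H18.KLS.Inv
import Pool.Agent.H18.KLS.Assemble
import Pool.Agent.H84.KlsClass

set_option autoImplicit false

open MeasureTheory Measure Set Filter Topology
open scoped ENNReal NNReal Real Pointwise

namespace Pool.Agent.H18.KLS

open Pool.Agent.H84 Pool.H97.KLSG

variable {n : ℕ}

theorem contDiff_sym {f : EuclideanSpace ℝ (Fin n) → ℝ} (hf : ContDiff ℝ 1 f) :
    ContDiff ℝ 1 (sym f) := by
  unfold sym
  exact (ContDiff.sum (fun σ _ => hf.comp (pm σ).contDiff)).div_const _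

theorem sym_pm (f : EuclideanSpace ℝ (Fin n) → ℝ) (τ : Equiv.Perm (Fin n))
    (x : EuclideanSpace ℝ (Fin n)) : sym f (pm τ x) = sym f x := by
  unfold sym
  congr 1
  have : ∀ σ : Equiv.Perm (Fin n), f (pm σ (pm τ x)) = f (pm (τ * σ) x) := by
    intro σ; rw [pm_mul]
  rw [Finset.sum_congr rfl (fun σ _ => this σ)]
  exact Equiv.sum_comp (Equiv.mulLeft τ) (fun σ => f (pm σ x))

theorem norm_fderiv_pm (σ : Equiv.Perm (Fin n)) {f : EuclideanSpace ℝ (Fin n) → ℝ}
    (hf : Differentiable ℝ f) (x : EuclideanSpace ℝ (Fin n)) :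
    ‖fderiv ℝ (fun y => f (pm σ y)) x‖ ^ 2 = ‖fderiv ℝ f (pm σ x)‖ ^ 2 := by
  rw [norm_sq_fderiv, norm_sq_fderiv]
  have : ∀ k : Fin n, (fderiv ℝ (fun y => f (pm σ y)) x (EuclideanSpace.single k 1)) ^ 2 =
      (fderiv ℝ f (pm σ x) (EuclideanSpace.single (σ.symm k) 1)) ^ 2 := by
    intro k
    rw [fderiv_comp_iso (pm σ) hf, pm_single]
  rw [Finset.sum_congr rfl (fun k _ => this k)]
  exact Equiv.sum_comp σ.symm (fun k => (fderiv ℝ f (pm σ x) (EuclideanSpace.single k 1)) ^ 2)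

theorem norm_fderiv_sym_le {f : EuclideanSpace ℝ (Fin n) → ℝ} (hf : ContDiff ℝ 1 f)
    (x : EuclideanSpace ℝ (Fin n)) : ‖fderiv ℝ (sym f) x‖ ^ 2 ≤
      (∑ σ : Equiv.Perm (Fin n), ‖fderiv ℝ f (pm σ x)‖ ^ 2) / (Nat.factorial n) := by
  have hfd : Differentiable ℝ f := hf.differentiable (by norm_num)
  have hf0 : (0:ℝ) < Nat.factorial n := by exact_mod_cast Nat.factorial_pos n
  have hcard : (Fintype.card (Equiv.Perm (Fin n)) : ℝ) = Nat.factorial n := by
    rw [Fintype.card_perm, Fintype.card_fin]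
  have h1 : HasFDerivAt (sym f) ((Nat.factorial n : ℝ)⁻¹ •
      ∑ σ : Equiv.Perm (Fin n), fderiv ℝ (fun y => f (pm σ y)) x) x := by
    have h2 : HasFDerivAt (fun y => ∑ σ : Equiv.Perm (Fin n), f (pm σ y))
        (∑ σ : Equiv.Perm (Fin n), fderiv ℝ (fun y => f (pm σ y)) x) x := by
      apply HasFDerivAt.fun_sum
      intro σ _
      exact ((hfd (pm σ x)).comp x (pm σ).differentiable.differentiableAt).hasFDerivAt
    have h3 := h2.const_mul ((Nat.factorial n : ℝ)⁻¹)
    have e : sym f = fun y => (Nat.factorial n : ℝ)⁻¹ * ∑ σ : Equiv.Perm (Fin n), f (pm σ y) := by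
      funext y; unfold sym; rw [div_eq_inv_mul]
    rw [e]; exact h3
  rw [h1.fderiv, norm_smul, mul_pow, norm_inv, Real.norm_of_nonneg hf0.le]
  have h4 : ‖∑ σ : Equiv.Perm (Fin n), fderiv ℝ (fun y => f (pm σ y)) x‖ ^ 2 ≤
      Nat.factorial n * ∑ σ : Equiv.Perm (Fin n), ‖fderiv ℝ f (pm σ x)‖ ^ 2 := by
    calc ‖∑ σ : Equiv.Perm (Fin n), fderiv ℝ (fun y => f (pm σ y)) x‖ ^ 2
        ≤ (∑ σ : Equiv.Perm (Fin n), ‖fderiv ℝ (fun y => f (pm σ y)) x‖) ^ 2 :=
          pow_le_pow_left₀ (norm_nonneg _) (norm_sum_le _ _) 2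
      _ ≤ Nat.factorial n * ∑ σ : Equiv.Perm (Fin n), ‖fderiv ℝ (fun y => f (pm σ y)) x‖ ^ 2 := by
          have := sq_sum_le_card_mul_sum_sq (s := (Finset.univ : Finset (Equiv.Perm (Fin n))))
            (f := fun σ => ‖fderiv ℝ (fun y => f (pm σ y)) x‖)
          rw [Finset.card_univ, hcard] at this
          exact this
      _ = _ := by
          congr 1
          exact Finset.sum_congr rfl (fun σ _ => norm_fderiv_pm σ hfd x)
  rw [div_eq_inv_mul]
  calc ((Nat.factorial n : ℝ)⁻¹) ^ 2 * _ ≤ ((Nat.factorial n : ℝ)⁻¹) ^ 2 *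
        (Nat.factorial n * ∑ σ : Equiv.Perm (Fin n), ‖fderiv ℝ f (pm σ x)‖ ^ 2) :=
        mul_le_mul_of_nonneg_left h4 (by positivity)
    _ = _ := by field_simp

/-- **Poincare inequality for permutation invariant bodies.** -/
theorem perm_poincare {K : Set (EuclideanSpace ℝ (Fin n))} (hK : PermInv K) (ho : IsOpen K)
    {R : ℝ} (hCB : CB K R) (hl : ∀ x ∈ K, ∑ k, |x k| ≤ (n:ℝ)) (hn : 0 < n)
    (hq : ∀ x ∈ K, qf (a0 n) x ≤ 1) : PC K 44006000 := by
  intro f hf
  have hb : Bornology.IsBounded K := Metric.isBounded_closedBall.subset hCB.sub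
  have hf0 : (0:ℝ) < Nat.factorial n := by exact_mod_cast Nat.factorial_pos n
  have hcard : (Fintype.card (Equiv.Perm (Fin n)) : ℝ) = Nat.factorial n := by
    rw [Fintype.card_perm, Fintype.card_fin]
  have hV : 0 ≤ volume.real K := measureReal_nonneg
  have h1 := noninv_poincare hK hCB.conv ho hb hl hn hf
  have h2 := inv_poincare hK ho hCB hl hn hq (sym f) (contDiff_sym hf) (fun σ x => sym_pm f σ x)
  have hcf : ∀ σ : Equiv.Perm (Fin n), Continuous (fun x => f (pm σ x)) := fun σ =>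
    hf.continuous.comp (pm σ).continuous
  have e1 : ∫ x in K, sym f x = ∫ x in K, f x := by
    unfold sym
    rw [integral_div, integral_finsetSum _ (fun σ _ => integrableOn_of_cont hb (hcf σ)),
      Finset.sum_congr rfl (fun σ _ => integral_pm hK σ f), Finset.sum_const, Finset.card_univ,
      nsmul_eq_mul, hcard]
    field_simp
  have cd : Continuous (fun x => ‖fderiv ℝ f x‖ ^ 2) :=
    (hf.continuous_fderiv (by norm_num)).norm.pow 2
  have cds : Continuous (fun x => ‖fderiv ℝ (sym f) x‖ ^ 2) :=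
    ((contDiff_sym hf).continuous_fderiv (by norm_num)).norm.pow 2
  have cdp : ∀ σ : Equiv.Perm (Fin n), Continuous (fun x => ‖fderiv ℝ f (pm σ x)‖ ^ 2) := fun σ =>
    cd.comp (pm σ).continuous
  have e2 : ∫ x in K, ‖fderiv ℝ (sym f) x‖ ^ 2 ≤ ∫ x in K, ‖fderiv ℝ f x‖ ^ 2 := by
    calc ∫ x in K, ‖fderiv ℝ (sym f) x‖ ^ 2
        ≤ ∫ x in K, (∑ σ : Equiv.Perm (Fin n), ‖fderiv ℝ f (pm σ x)‖ ^ 2) / (Nat.factorial n) :=
          setIntegral_mono (integrableOn_of_cont hb cds)
            ((integrableOn_of_cont hb (continuous_finsetSum _ (fun σ _ => cdp σ))).div_const _)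
            (fun x => norm_fderiv_sym_le hf x)
      _ = ∫ x in K, ‖fderiv ℝ f x‖ ^ 2 := by
          rw [integral_div, integral_finsetSum _ (fun σ _ => integrableOn_of_cont hb (cdp σ)),
            Finset.sum_congr rfl (fun σ _ => integral_pm hK σ (fun x => ‖fderiv ℝ f x‖ ^ 2)),
            Finset.sum_const, Finset.card_univ, nsmul_eq_mul, hcard]
          field_simp
  have e3 : ∫ x in K, ∑ k, (fderiv ℝ f x (EuclideanSpace.single k 1)) ^ 2 =
      ∫ x in K, ‖fderiv ℝ f x‖ ^ 2 := by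
    apply integral_congr_ae
    filter_upwards with x
    exact (norm_sq_fderiv _).symm
  rw [e3] at h1
  rw [e1] at h2
  set G := ∫ x in K, ‖fderiv ℝ f x‖ ^ 2 with hG
  have hG0 : 0 ≤ G := integral_nonneg (fun x => by positivity)
  have h3 := mul_le_mul_of_nonneg_left h1 hV
  have h4 := mul_le_mul_of_nonneg_left e2 hV
  have h5 : 0 ≤ volume.real K * G := mul_nonneg hV hG0
  nlinarith

theorem markov_real {K : Set (EuclideanSpace ℝ (Fin n))} (hm : MeasurableSet K)
    (hb : Bornology.IsBounded K) {g : EuclideanSpace ℝ (Fin n) → ℝ} (hg : Continuous g)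
    (hg0 : ∀ x, 0 ≤ g x) (c : ℝ) : c * volume.real (K ∩ {x | c ≤ g x}) ≤ ∫ x in K, g x := by
  have hBm : MeasurableSet {x | c ≤ g x} := measurableSet_le measurable_const hg.measurable
  have hi := integrableOn_of_cont hb hg
  calc c * volume.real (K ∩ {x | c ≤ g x}) = ∫ x in K ∩ {x | c ≤ g x}, c := by
        rw [setIntegral_const, smul_eq_mul]; ring
    _ ≤ ∫ x in K ∩ {x | c ≤ g x}, g x := by
        apply setIntegral_mono_on _ (hi.mono_set inter_subset_left) (hm.inter hBm)
        · intro x hx; exact hx.2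
        · exact (integrableOn_of_cont hb continuous_const).mono_set inter_subset_left
    _ ≤ ∫ x in K, g x := by
        apply setIntegral_mono_set hi
        · filter_upwards with x using hg0 x
        · exact inter_subset_left.eventuallyLE

theorem int_abs_le {K : Set (EuclideanSpace ℝ (Fin n))} 
    (hb : Bornology.IsBounded K) {g : EuclideanSpace ℝ (Fin n) → ℝ} (hg : Continuous g) {s : ℝ}
    (hs : 0 < s) (h : ∫ x in K, g x ^ 2 ≤ s ^ 2 * volume.real K) :
    ∫ x in K, |g x| ≤ s * volume.real K := by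
  have hi1 : IntegrableOn (fun x => |g x|) K := integrableOn_of_cont hb hg.abs
  have hi2 : IntegrableOn (fun x => 1 / (2 * s) * (g x) ^ 2) K :=
    (integrableOn_of_cont hb (hg.pow 2)).const_mul _
  have hi4 : IntegrableOn (fun _ : EuclideanSpace ℝ (Fin n) => s / 2) K :=
    integrableOn_of_cont hb continuous_const
  calc ∫ x in K, |g x| ≤ ∫ x in K, (s / 2 + 1 / (2 * s) * (g x) ^ 2) := by
        apply setIntegral_mono hi1 (hi4.add hi2)
        intro x
        have h2 : 0 ≤ 1 / (2 * s) * (|g x| - s) ^ 2 := by positivity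
        have h3 : 1 / (2 * s) * (|g x| - s) ^ 2 = 1 / (2 * s) * (g x) ^ 2 - |g x| + s / 2 := by
          rw [← sq_abs (g x)]; field_simp; ring
        show |g x| ≤ s / 2 + 1 / (2 * s) * (g x) ^ 2
        linarith
    _ = s / 2 * volume.real K + 1 / (2 * s) * ∫ x in K, (g x) ^ 2 := by
        rw [integral_add hi4 hi2, integral_const_mul, setIntegral_const, smul_eq_mul]
        ring
    _ ≤ s / 2 * volume.real K + 1 / (2 * s) * (s ^ 2 * volume.real K) := by
        have := mul_le_mul_of_nonneg_left h (by positivity : 0 ≤ 1 / (2 * s))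
        linarith
    _ = s * volume.real K := by field_simp; ring

end Pool.Agent.H18.KLS
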